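import Mathlib
import Pool.Agent.Helper934.PlankMain

/-!
# Existence of the limits
-/

set_option autoImplicit false

open Set Metric Filter Topology

namespace Pool.Agent.V5helper78.PK

open Pool.Agent.Helper934.PlankDefs Pool.Agent.Helper934.PlankSupp Pool.Agent.Helper934.PlankMain

variable {d : ℕ}

theorem card_append {m m' : ℕ} (p : Fin m → Prop) (p' : Fin m' → Prop) :
    Nat.card {i : Fin (m + m') // Fin.addCases (motive := fun _ => Prop) p p' i} =
      Nat.card {i // p i} + Nat.card {i // p' i} := by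
  classical
  rw [Nat.card_eq_fintype_card, Nat.card_eq_fintype_card, Nat.card_eq_fintype_card,
    Fintype.card_subtype, Fintype.card_subtype, Fintype.card_subtype,
    Finset.card_filter, Finset.card_filter, Finset.card_filter, Fin.sum_univ_add]
  simp

theorem cover_append {K : Set (EuclideanSpace ℝ (Fin d))} {k k' m m' : ℕ}
    {θ : Fin m → EuclideanSpace ℝ (Fin d)} {a b : Fin m → ℝ}
    {θ' : Fin m' → EuclideanSpace ℝ (Fin d)} {a' b' : Fin m' → ℝ}
    (h : IsFoldCover K k θ a b) (h' : IsFoldCover K k' θ' a' b') :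
    IsFoldCover K (k + k') (Fin.append θ θ') (Fin.append a a') (Fin.append b b') := by
  refine ⟨fun i => ?_, fun i => ?_, fun x hx => ?_⟩
  · refine Fin.addCases (fun i => ?_) (fun i => ?_) i
    · simpa using h.1 i
    · simpa using h'.1 i
  · refine Fin.addCases (fun i => ?_) (fun i => ?_) i
    · simpa using h.2.1 i
    · simpa using h'.2.1 i
  · have e := card_append (fun i : Fin m => x ∈ plank (θ i) (a i) (b i))
      (fun i : Fin m' => x ∈ plank (θ' i) (a' i) (b' i))
    have e2 : Nat.card {i : Fin (m + m') // x ∈ plank (Fin.append θ θ' i) (Fin.append a a' i)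
        (Fin.append b b' i)} = Nat.card {i : Fin (m + m') // Fin.addCases (motive := fun _ => Prop)
          (fun i : Fin m => x ∈ plank (θ i) (a i) (b i))
          (fun i : Fin m' => x ∈ plank (θ' i) (a' i) (b' i)) i} := by
      refine Nat.card_congr (Equiv.subtypeEquivRight fun i => ?_)
      refine Fin.addCases (fun i => ?_) (fun i => ?_) i <;> simp
    rw [e2, e]
    exact Nat.add_le_add (h.2.2 x hx) (h'.2.2 x hx)

theorem cover_nonempty (hd : 1 ≤ d) {K : Set (EuclideanSpace ℝ (Fin d))} (hb : IsConvexBody K)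
    (k : ℕ) : {c : ℝ | ∃ (m : ℕ) (θ : Fin m → EuclideanSpace ℝ (Fin d)) (a b : Fin m → ℝ),
      IsFoldCover K k θ a b ∧ c = (∑ i, (b i - a i)) / minWidth K}.Nonempty := by
  obtain ⟨e, he⟩ := exists_unit hd
  exact ⟨_, k, _, _, _, trivial_cover hb k e he, rfl⟩

theorem coverConst_add (hd : 1 ≤ d) {K : Set (EuclideanSpace ℝ (Fin d))} (hb : IsConvexBody K) :
    Subadditive (coverConst K) := by
  intro j k
  have hw := minWidth_pos hd hb
  refine le_of_forall_pos_le_add fun ε hε => ?_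
  obtain ⟨_, ⟨m, θ, a, b, hc, rfl⟩, h1⟩ := Real.lt_sInf_add_pos (cover_nonempty hd hb j) (half_pos hε)
  obtain ⟨_, ⟨m', θ', a', b', hc', rfl⟩, h2⟩ :=
    Real.lt_sInf_add_pos (cover_nonempty hd hb k) (half_pos hε)
  have h3 := coverConst_le hw.le (cover_append hc hc')
  have e : ∑ i, (Fin.append b b' i - Fin.append a a' i) =
      ∑ i, (b i - a i) + ∑ i, (b' i - a' i) := by
    rw [Fin.sum_univ_add]; simp
  rw [e, add_div] at h3
  have h1' : (∑ i, (b i - a i)) / minWidth K < coverConst K j + ε / 2 := h1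
  have h2' : (∑ i, (b' i - a' i)) / minWidth K < coverConst K k + ε / 2 := h2
  linarith

theorem bdd_div (hd : 1 ≤ d) {K : Set (EuclideanSpace ℝ (Fin d))} (hb : IsConvexBody K) :
    BddBelow (range fun n : ℕ => coverConst K n / n) := by
  refine ⟨0, ?_⟩
  rintro _ ⟨n, rfl⟩
  exact div_nonneg (coverConst_nonneg (minWidth_pos hd hb).le n) (Nat.cast_nonneg n)

/-- the limit of `c_K(k)/k` -/
noncomputable def limConst (K : Set (EuclideanSpace ℝ (Fin d))) : ℝ :=
  sInf ((fun n : ℕ => coverConst K n / n) '' Ici 1)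

theorem limConst_eq (hd : 1 ≤ d) {K : Set (EuclideanSpace ℝ (Fin d))} (hb : IsConvexBody K) :
    (coverConst_add hd hb).lim = limConst K := by
  rw [Subadditive.lim]
  rfl

theorem tendsto_limConst (hd : 1 ≤ d) {K : Set (EuclideanSpace ℝ (Fin d))} (hb : IsConvexBody K) :
    Tendsto (fun k : ℕ => coverConst K k / k) atTop (𝓝 (limConst K)) := by
  rw [← limConst_eq hd hb]
  exact (coverConst_add hd hb).tendsto_lim (bdd_div hd hb)

theorem limConst_mul_le (hd : 1 ≤ d) {K : Set (EuclideanSpace ℝ (Fin d))} (hb : IsConvexBody K)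
    (k : ℕ) : limConst K * k ≤ coverConst K k := by
  rcases Nat.eq_zero_or_pos k with rfl | hk
  · simpa using coverConst_nonneg (minWidth_pos hd hb).le 0
  · have h := (coverConst_add hd hb).lim_le_div (bdd_div hd hb) (n := k) (by omega)
    have hkp : (0 : ℝ) < k := by exact_mod_cast hk
    rw [le_div_iff₀ hkp, limConst_eq hd hb] at h
    exact h

theorem limConst_ge_of (hd : 1 ≤ d) {K : Set (EuclideanSpace ℝ (Fin d))} (hb : IsConvexBody K)
    {c : ℝ} (h : ∀ k : ℕ, 1 ≤ k → c * k ≤ coverConst K k) : c ≤ limConst K := by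
  refine ge_of_tendsto (tendsto_limConst hd hb) ?_
  filter_upwards [eventually_ge_atTop 1] with k hk
  have hkp : (0 : ℝ) < k := by exact_mod_cast hk
  rw [le_div_iff₀ hkp]
  exact h k hk

theorem limConst_le_of (hd : 1 ≤ d) {K : Set (EuclideanSpace ℝ (Fin d))} (hb : IsConvexBody K)
    {c C : ℝ} (h : ∀ k : ℕ, 1 ≤ k → coverConst K k ≤ c * k + C) : limConst K ≤ c := by
  have hu : Tendsto (fun k : ℕ => c + C / (k : ℝ)) atTop (𝓝 (c + 0)) :=
    tendsto_const_nhds.add (tendsto_const_div_atTop_nhds_zero_nat C)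
  rw [add_zero] at hu
  refine le_of_tendsto_of_tendsto (tendsto_limConst hd hb) hu ?_
  filter_upwards [eventually_ge_atTop 1] with k hk
  have hkp : (0 : ℝ) < k := by exact_mod_cast hk
  rw [div_le_iff₀ hkp]
  calc coverConst K k ≤ c * k + C := h k hk
    _ = (c + C / k) * k := by field_simp

theorem limConst_le_radius (hd : 1 ≤ d) {K : Set (EuclideanSpace ℝ (Fin d))}
    (hb : IsConvexBody K) : limConst K ≤ 2 * inradius K / minWidth K := by
  obtain ⟨C, hC⟩ := coverConst_upper hd hb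
  exact limConst_le_of hd hb hC

theorem limConst_nonneg (hd : 1 ≤ d) {K : Set (EuclideanSpace ℝ (Fin d))} (hb : IsConvexBody K) :
    0 ≤ limConst K :=
  limConst_ge_of hd hb fun k _ => by
    rw [zero_mul]; exact coverConst_nonneg (minWidth_pos hd hb).le k

/-- the closed unit ball is a convex body -/
theorem body_ball : IsConvexBody (closedBall (0 : EuclideanSpace ℝ (Fin d)) 1) := by
  refine ⟨isCompact_closedBall _ _, convex_closedBall _ _, 0, ?_⟩
  rw [mem_interior]
  exact ⟨ball 0 1, ball_subset_closedBall, isOpen_ball, mem_ball_self one_pos⟩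

/-- the limit of `c_d(k)/k` -/
noncomputable def limDim (d : ℕ) : ℝ :=
  sInf {c : ℝ | ∃ K : Set (EuclideanSpace ℝ (Fin d)), IsConvexBody K ∧ c = limConst K}

theorem bdd_limDim (hd : 1 ≤ d) : BddBelow {c : ℝ | ∃ K : Set (EuclideanSpace ℝ (Fin d)),
    IsConvexBody K ∧ c = limConst K} := by
  refine ⟨0, ?_⟩
  rintro _ ⟨K, hb, rfl⟩
  exact limConst_nonneg hd hb

theorem bdd_dim (hd : 1 ≤ d) (k : ℕ) : BddBelow {c : ℝ | ∃ K : Set (EuclideanSpace ℝ (Fin d)),
    IsConvexBody K ∧ c = coverConst K k} := by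
  refine ⟨0, ?_⟩
  rintro _ ⟨K, hb, rfl⟩
  exact coverConst_nonneg (minWidth_pos hd hb).le k

theorem limDim_mul_le (hd : 1 ≤ d) (k : ℕ) : limDim d * k ≤ coverConstDim d k := by
  refine le_csInf ⟨_, _, body_ball, rfl⟩ ?_
  rintro _ ⟨K, hb, rfl⟩
  refine le_trans ?_ (limConst_mul_le hd hb k)
  exact mul_le_mul_of_nonneg_right (csInf_le (bdd_limDim hd) ⟨K, hb, rfl⟩) (Nat.cast_nonneg k)

theorem limDim_le (hd : 1 ≤ d) {K : Set (EuclideanSpace ℝ (Fin d))} (hb : IsConvexBody K) :
    limDim d ≤ limConst K := csInf_le (bdd_limDim hd) ⟨K, hb, rfl⟩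

theorem tendsto_limDim (hd : 1 ≤ d) :
    Tendsto (fun k : ℕ => coverConstDim d k / k) atTop (𝓝 (limDim d)) := by
  rw [tendsto_order]
  constructor
  · intro a ha
    filter_upwards [eventually_ge_atTop 1] with k hk
    have hkp : (0 : ℝ) < k := by exact_mod_cast hk
    rw [lt_div_iff₀ hkp]
    have := limDim_mul_le hd k
    nlinarith
  · intro a ha
    obtain ⟨_, ⟨K, hb, rfl⟩, hK⟩ := exists_lt_of_csInf_lt
      (show {c : ℝ | ∃ K : Set (EuclideanSpace ℝ (Fin d)), IsConvexBody K ∧
        c = limConst K}.Nonempty from ⟨_, _, body_ball, rfl⟩) ha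
    have h1 := (tendsto_order.1 (tendsto_limConst hd hb)).2 a hK
    filter_upwards [h1, eventually_ge_atTop 1] with k h1 hk
    have hkp : (0 : ℝ) < k := by exact_mod_cast hk
    refine lt_of_le_of_lt ?_ h1
    exact div_le_div_of_nonneg_right (csInf_le (bdd_dim hd k) ⟨K, hb, rfl⟩) hkp.le

theorem limDim_ge_of {c : ℝ} (h : ∀ K : Set (EuclideanSpace ℝ (Fin d)), IsConvexBody K →
    c ≤ limConst K) : c ≤ limDim d := by
  refine le_csInf ⟨_, _, body_ball, rfl⟩ ?_
  rintro _ ⟨K, hb, rfl⟩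
  exact h K hb

end Pool.Agent.V5helper78.PK
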