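import Mathlib
import Pool.Agent.Helper115_ME.Dual
import Pool.Agent.V5helper78.PK.LIM

/-!
# Fractional coverings by planks
-/

set_option autoImplicit false

open Set Metric Filter Topology MeasureTheory

namespace Pool.Agent.V5helper78.PK

open Pool.Agent.Helper934.PlankDefs Pool.Agent.Helper934.PlankSupp Pool.Agent.Helper934.PlankMain
  Pool.Agent.Helper934.PlankCore

variable {d : ℕ}

/-- `f` is at most a combination of indicator functions of planks with total width `t` -/
def FC (K : Set (EuclideanSpace ℝ (Fin d))) (f : C(K, ℝ)) (t : ℝ) : Prop :=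
  ∃ (m : ℕ) (θ : Fin m → EuclideanSpace ℝ (Fin d)) (a b c : Fin m → ℝ), (∀ i, ‖θ i‖ = 1) ∧
    (∀ i, a i ≤ b i) ∧ (∀ i, 0 ≤ c i) ∧
    (∀ x : K, f x ≤ ∑ i, c i * (plank (θ i) (a i) (b i)).indicator (fun _ => (1 : ℝ)) (x : EuclideanSpace ℝ (Fin d))) ∧
    t = ∑ i, c i * (b i - a i)

/-- the sublinear functional -/
noncomputable def pp (K : Set (EuclideanSpace ℝ (Fin d))) (f : C(K, ℝ)) : ℝ := sInf {t | FC K f t}

section
variable {K : Set (EuclideanSpace ℝ (Fin d))}

theorem FC.nonneg {f : C(K, ℝ)} {t : ℝ} (h : FC K f t) : 0 ≤ t := by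
  obtain ⟨m, θ, a, b, c, -, hab, hc, -, rfl⟩ := h
  exact Finset.sum_nonneg fun i _ => mul_nonneg (hc i) (sub_nonneg.mpr (hab i))

theorem bdd_FC (f : C(K, ℝ)) : BddBelow {t | FC K f t} := ⟨0, fun _ h => h.nonneg⟩

theorem FC.le {f : C(K, ℝ)} {t : ℝ} (h : FC K f t) : pp K f ≤ t := csInf_le (bdd_FC f) h

theorem pp_nonneg (f : C(K, ℝ)) : 0 ≤ pp K f := Real.sInf_nonneg fun _ h => FC.nonneg h

theorem FC.add {f g : C(K, ℝ)} {s t : ℝ} (h : FC K f s) (h' : FC K g t) : FC K (f + g) (s + t) := by
  obtain ⟨m, θ, a, b, c, h1, h2, h3, h4, rfl⟩ := h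
  obtain ⟨m', θ', a', b', c', h1', h2', h3', h4', rfl⟩ := h'
  refine ⟨m + m', Fin.append θ θ', Fin.append a a', Fin.append b b', Fin.append c c',
    fun i => ?_, fun i => ?_, fun i => ?_, fun x => ?_, ?_⟩
  · refine Fin.addCases (fun i => ?_) (fun i => ?_) i
    · simpa using h1 i
    · simpa using h1' i
  · refine Fin.addCases (fun i => ?_) (fun i => ?_) i
    · simpa using h2 i
    · simpa using h2' i
  · refine Fin.addCases (fun i => ?_) (fun i => ?_) i
    · simpa using h3 i
    · simpa using h3' i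
  · rw [Fin.sum_univ_add]
    simp only [Fin.append_left, Fin.append_right, ContinuousMap.add_apply]
    exact add_le_add (h4 x) (h4' x)
  · rw [Fin.sum_univ_add]
    simp

theorem FC.smul {f : C(K, ℝ)} {t r : ℝ} (h : FC K f t) (hr : 0 ≤ r) : FC K (r • f) (r * t) := by
  obtain ⟨m, θ, a, b, c, h1, h2, h3, h4, rfl⟩ := h
  refine ⟨m, θ, a, b, fun i => r * c i, h1, h2, fun i => mul_nonneg hr (h3 i), fun x => ?_, ?_⟩
  · rw [ContinuousMap.smul_apply, smul_eq_mul]
    refine (mul_le_mul_of_nonneg_left (h4 x) hr).trans (le_of_eq ?_)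
    rw [Finset.mul_sum]
    exact Finset.sum_congr rfl fun i _ => by ring
  · rw [Finset.mul_sum]
    exact Finset.sum_congr rfl fun i _ => by ring

theorem FC_of_nonpos {f : C(K, ℝ)} (h : ∀ x, f x ≤ 0) : FC K f 0 :=
  ⟨0, Fin.elim0, Fin.elim0, Fin.elim0, Fin.elim0, fun i => i.elim0, fun i => i.elim0,
    fun i => i.elim0, fun x => by simpa using h x, by simp⟩

theorem FC_one_plank {f : C(K, ℝ)} {θ : EuclideanSpace ℝ (Fin d)} (hθ : ‖θ‖ = 1) {a b r : ℝ}
    (hab : a ≤ b) (hr : 0 ≤ r)
    (h : ∀ x : K, f x ≤ r * (plank θ a b).indicator (fun _ => (1 : ℝ)) (x : EuclideanSpace ℝ (Fin d))) :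
    FC K f (r * (b - a)) :=
  ⟨1, fun _ => θ, fun _ => a, fun _ => b, fun _ => r, fun _ => hθ, fun _ => hab, fun _ => hr,
    fun x => by simpa using h x, by simp⟩

end

section body
variable {K : Set (EuclideanSpace ℝ (Fin d))}

theorem FC_nonempty (hd : 1 ≤ d) (hb : IsConvexBody K) (f : C(K, ℝ)) : {t | FC K f t}.Nonempty := by
  obtain ⟨e, he⟩ := exists_unit hd
  have : CompactSpace K := isCompact_iff_compactSpace.mp hb.1
  have hne : K.Nonempty := hb.2.2.mono interior_subset
  refine ⟨‖f‖ * (supp K e - -supp K (-e)), FC_one_plank he ?_ (norm_nonneg f) fun x => ?_⟩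
  · have := widthIn_nonneg hb.1 hne e
    rw [widthIn_eq hb.1 hne] at this
    linarith
  · have hx : (x : EuclideanSpace ℝ (Fin d)) ∈ plank e (-supp K (-e)) (supp K e) := by
      have h1 := le_supp hb.1 x.2 e
      have h2 := le_supp hb.1 x.2 (-e)
      rw [inner_neg_right] at h2
      exact ⟨by linarith, h1⟩
    rw [indicator_of_mem hx, mul_one]
    exact (le_abs_self _).trans (f.norm_coe_le_norm x)

theorem pp_add (hd : 1 ≤ d) (hb : IsConvexBody K) (f g : C(K, ℝ)) :
    pp K (f + g) ≤ pp K f + pp K g := by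
  refine le_of_forall_pos_le_add fun ε hε => ?_
  obtain ⟨s, hs, h1⟩ := Real.lt_sInf_add_pos (FC_nonempty hd hb f) (half_pos hε)
  obtain ⟨t, ht, h2⟩ := Real.lt_sInf_add_pos (FC_nonempty hd hb g) (half_pos hε)
  have h3 := (FC.add hs ht).le
  have h1' : s < pp K f + ε / 2 := h1
  have h2' : t < pp K g + ε / 2 := h2
  linarith

theorem pp_smul_le (hd : 1 ≤ d) (hb : IsConvexBody K) {r : ℝ} (hr : 0 < r) (f : C(K, ℝ)) :
    pp K (r • f) ≤ r * pp K f := by
  rw [← div_le_iff₀' hr]
  refine le_csInf (FC_nonempty hd hb f) fun t ht => ?_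
  rw [div_le_iff₀' hr]
  exact (FC.smul ht hr.le).le

theorem pp_smul (hd : 1 ≤ d) (hb : IsConvexBody K) {r : ℝ} (hr : 0 < r) (f : C(K, ℝ)) :
    pp K (r • f) = r * pp K f := by
  refine le_antisymm (pp_smul_le hd hb hr f) ?_
  have h := pp_smul_le hd hb (inv_pos.2 hr) (r • f)
  rw [smul_smul, inv_mul_cancel₀ hr.ne', one_smul] at h
  rw [inv_mul_eq_div, le_div_iff₀' hr] at h
  exact h

/-- coverings with an arbitrary finite index type -/
theorem coverConst_le_fintype (hd : 1 ≤ d) (hb : IsConvexBody K) {ι : Type} [Fintype ι] {k : ℕ}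
    (θ : ι → EuclideanSpace ℝ (Fin d)) (a b : ι → ℝ) (h1 : ∀ i, ‖θ i‖ = 1) (h2 : ∀ i, a i ≤ b i)
    (h3 : ∀ x ∈ K, k ≤ Nat.card {i : ι // x ∈ plank (θ i) (a i) (b i)}) :
    coverConst K k ≤ (∑ i, (b i - a i)) / minWidth K := by
  let e := (Fintype.equivFin ι).symm
  have hc : IsFoldCover K k (fun i => θ (e i)) (fun i => a (e i)) (fun i => b (e i)) := by
    refine ⟨fun i => h1 _, fun i => h2 _, fun x hx => (h3 x hx).trans (le_of_eq ?_)⟩
    exact (Nat.card_congr (e.subtypeEquiv fun i => Iff.rfl)).symm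
  have h := coverConst_le (minWidth_pos hd hb).le hc
  rwa [e.sum_comp (fun i => b i - a i)] at h

/-- fractional coverings are not cheaper -/
theorem limConst_le_FC (hd : 1 ≤ d) (hb : IsConvexBody K) {t : ℝ} (h : FC K 1 t) :
    limConst K * minWidth K ≤ t := by
  classical
  obtain ⟨m, θ, a, b, c, h1, h2, h3, h4, rfl⟩ := h
  have hw := minWidth_pos hd hb
  set P : ℝ := ∑ i, (b i - a i) with hP
  have key : ∀ N : ℕ, 1 ≤ N → limConst K * minWidth K ≤ ∑ i, c i * (b i - a i) + P / N := by
    intro N hN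
    have hNp : (0 : ℝ) < N := by exact_mod_cast hN
    let n : Fin m → ℕ := fun i => ⌈N * c i⌉₊
    have hcov := coverConst_le_fintype (K := K) hd hb (k := N) (ι := Σ i : Fin m, Fin (n i))
      (fun s => θ s.1) (fun s => a s.1) (fun s => b s.1) (fun s => h1 _) (fun s => h2 _) (by
        intro x hx
        have h5 := h4 ⟨x, hx⟩
        have e1 : Nat.card {s : Σ i : Fin m, Fin (n i) // x ∈ plank (θ s.1) (a s.1) (b s.1)} =
            ∑ i, n i * (if x ∈ plank (θ i) (a i) (b i) then 1 else 0) := by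
          rw [Nat.card_eq_fintype_card, Fintype.card_subtype, Finset.card_filter,
            Fintype.sum_sigma]
          refine Finset.sum_congr rfl fun i _ => ?_
          dsimp only
          by_cases hxi : x ∈ plank (θ i) (a i) (b i) <;> simp [hxi]
        rw [e1]
        have h6 : (N : ℝ) ≤ ∑ i, (n i : ℝ) * (if x ∈ plank (θ i) (a i) (b i) then 1 else 0) := by
          calc (N : ℝ) = N * 1 := (mul_one _).symm
            _ ≤ N * ∑ i, c i * (plank (θ i) (a i) (b i)).indicator (fun _ => (1 : ℝ)) x :=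
              mul_le_mul_of_nonneg_left h5 hNp.le
            _ = ∑ i, (N * c i) * (if x ∈ plank (θ i) (a i) (b i) then 1 else 0) := by
              rw [Finset.mul_sum]
              refine Finset.sum_congr rfl fun i _ => ?_
              rw [indicator_apply]; ring
            _ ≤ _ := Finset.sum_le_sum fun i _ =>
              mul_le_mul_of_nonneg_right (Nat.le_ceil _) (by split_ifs <;> norm_num)
        exact_mod_cast h6)
    have h7 := limConst_mul_le hd hb N
    have h8 : ∑ s : (Σ i : Fin m, Fin (n i)), (b s.1 - a s.1) = ∑ i, (n i : ℝ) * (b i - a i) := by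
      rw [Fintype.sum_sigma]
      refine Finset.sum_congr rfl fun i _ => ?_
      dsimp only
      rw [Finset.sum_const, Finset.card_univ, Fintype.card_fin, nsmul_eq_mul]
    rw [h8] at hcov
    have h9 : ∑ i, (n i : ℝ) * (b i - a i) ≤ N * (∑ i, c i * (b i - a i)) + P := by
      rw [Finset.mul_sum, hP, ← Finset.sum_add_distrib]
      refine Finset.sum_le_sum fun i _ => ?_
      have h10 : (n i : ℝ) ≤ N * c i + 1 := (Nat.ceil_lt_add_one (by have := h3 i; positivity)).le
      have h11 : 0 ≤ b i - a i := sub_nonneg.mpr (h2 i)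
      calc (n i : ℝ) * (b i - a i) ≤ (N * c i + 1) * (b i - a i) :=
            mul_le_mul_of_nonneg_right h10 h11
        _ = N * (c i * (b i - a i)) + (b i - a i) := by ring
    have h12 : limConst K * N ≤ (N * (∑ i, c i * (b i - a i)) + P) / minWidth K :=
      h7.trans (hcov.trans (div_le_div_of_nonneg_right h9 hw.le))
    rw [le_div_iff₀ hw] at h12
    have h13 : (limConst K * minWidth K) * N ≤ (∑ i, c i * (b i - a i) + P / N) * N := by
      have e : (∑ i, c i * (b i - a i) + P / N) * N = N * (∑ i, c i * (b i - a i)) + P := by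
        field_simp
      rw [e]; linarith
    exact le_of_mul_le_mul_right h13 hNp
  have hlim : Tendsto (fun N : ℕ => ∑ i, c i * (b i - a i) + P / (N : ℝ)) atTop
      (𝓝 (∑ i, c i * (b i - a i) + 0)) :=
    tendsto_const_nhds.add (tendsto_const_div_atTop_nhds_zero_nat P)
  rw [add_zero] at hlim
  exact ge_of_tendsto hlim (by
    filter_upwards [eventually_ge_atTop 1] with N hN
    exact key N hN)

theorem FC_of_cover {k m : ℕ} (hk : 1 ≤ k) {θ : Fin m → EuclideanSpace ℝ (Fin d)} {a b : Fin m → ℝ}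
    (h : IsFoldCover K k θ a b) : FC K 1 ((∑ i, (b i - a i)) / k) := by
  classical
  have hkp : (0 : ℝ) < k := by exact_mod_cast hk
  refine ⟨m, θ, a, b, fun _ => 1 / k, h.1, h.2.1, fun _ => by positivity, fun x => ?_, ?_⟩
  · have h1 := h.2.2 x x.2
    rw [Nat.card_eq_fintype_card, Fintype.card_subtype, Finset.card_filter] at h1
    have h2 : (k : ℝ) ≤ ∑ i, (if (x : EuclideanSpace ℝ (Fin d)) ∈ plank (θ i) (a i) (b i) then 1 else 0) := by
      exact_mod_cast h1
    rw [← Finset.mul_sum, ContinuousMap.one_apply, one_div, ← div_eq_inv_mul, le_div_iff₀ hkp,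
      one_mul]
    refine h2.trans (le_of_eq (Finset.sum_congr rfl fun i _ => ?_))
    rw [indicator_apply]
  · rw [← Finset.mul_sum]; ring

theorem pp_one (hd : 1 ≤ d) (hb : IsConvexBody K) : pp K 1 = limConst K * minWidth K := by
  have hw := minWidth_pos hd hb
  apply le_antisymm
  · rw [← div_le_iff₀ hw]
    refine limConst_ge_of hd hb fun k hk => ?_
    have hkp : (0 : ℝ) < k := by exact_mod_cast hk
    refine le_csInf (cover_nonempty hd hb k) ?_
    rintro _ ⟨m, θ, a, b, hc, rfl⟩
    have h1 := (FC_of_cover hk hc).le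
    rw [le_div_iff₀ hkp] at h1
    rw [div_mul_eq_mul_div]
    exact div_le_div_of_nonneg_right h1 hw.le
  · exact le_csInf (FC_nonempty hd hb 1) fun t ht => limConst_le_FC hd hb ht

/-- Hahn-Banach: a positive functional below `pp` with the value `pp 1` at `1` -/
theorem exists_functional_pp (hd : 1 ≤ d) (hb : IsConvexBody K) :
    ∃ g : C(K, ℝ) →ₗ[ℝ] ℝ, g 1 = pp K 1 ∧ (∀ f, g f ≤ pp K f) ∧ ∀ f, (∀ x, 0 ≤ f x) → 0 ≤ g f := by
  have hne : Nonempty K := (hb.2.2.mono interior_subset).to_subtype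
  have h1 : (1 : C(K, ℝ)) ≠ 0 := one_ne_zero
  let F : C(K, ℝ) →ₗ.[ℝ] ℝ := LinearPMap.mkSpanSingleton (1 : C(K, ℝ)) (pp K 1) h1
  have e : ∀ (r : ℝ) (hx : r • (1 : C(K, ℝ)) ∈ F.domain), F ⟨r • 1, hx⟩ = r • pp K 1 :=
    fun r hx => LinearPMap.mkSpanSingleton'_apply _ _ _ r hx
  obtain ⟨g, hg1, hg2⟩ := exists_extension_of_le_sublinear F (pp K)
    (fun r hr f => pp_smul hd hb hr f) (pp_add hd hb) (by
      rintro ⟨x, hx⟩
      obtain ⟨r, rfl⟩ := Submodule.mem_span_singleton.1 hx
      rw [e, smul_eq_mul]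
      rcases le_or_gt r 0 with hr | hr
      · exact (mul_nonpos_of_nonpos_of_nonneg hr (pp_nonneg _)).trans (pp_nonneg _)
      · exact (pp_smul hd hb hr 1).ge)
  refine ⟨g, ?_, hg2, fun f hf => ?_⟩
  · have hm : (1 : ℝ) • (1 : C(K, ℝ)) ∈ F.domain := Submodule.mem_span_singleton.2 ⟨1, rfl⟩
    have h : g ((1 : ℝ) • 1) = F ⟨(1 : ℝ) • 1, hm⟩ := hg1 ⟨(1 : ℝ) • 1, hm⟩
    rw [e 1 hm, one_smul, one_smul] at h
    exact h
  · have h := (hg2 (-f)).trans (FC_of_nonpos (f := -f) (fun x => by simpa using hf x)).le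
    rw [map_neg] at h
    linarith

/-- a measure on `K` with `μ(plank) ≤ width` for all planks and with the largest possible mass -/
theorem exists_measure (hd : 1 ≤ d) (hb : IsConvexBody K) :
    ∃ μ : Measure (EuclideanSpace ℝ (Fin d)), IsFiniteMeasure μ ∧ μ Kᶜ = 0 ∧
      (∀ (θ : EuclideanSpace ℝ (Fin d)) (a b : ℝ), ‖θ‖ = 1 → a ≤ b →
        μ (plank θ a b) ≤ ENNReal.ofReal (b - a)) ∧
      (μ K).toReal = limConst K * minWidth K := by
  have : CompactSpace K := isCompact_iff_compactSpace.mp hb.1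
  have hKm : MeasurableSet K := hb.1.measurableSet
  obtain ⟨g, hg1, hg2, hg3⟩ := exists_functional_pp hd hb
  obtain ⟨ν, hν, hg⟩ := Pool.Agent.Helper115_ME.dual_measure (Ω := K) (LinearMap.id : C(K, ℝ) →ₗ[ℝ] C(K, ℝ))
    1 (fun x => rfl) g (fun f hf => hg3 f hf)
  have hmass : (ν univ).toReal = limConst K * minWidth K := by
    have h := hg 1
    rw [hg1, pp_one hd hb] at h
    simp only [LinearMap.id_coe, id_eq, ContinuousMap.one_apply, integral_const, smul_eq_mul,
      mul_one] at h
    rw [h]; rfl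
  refine ⟨ν.map Subtype.val, inferInstance, ?_, fun θ a b hθ hab => ?_, ?_⟩
  · rw [Measure.map_apply measurable_subtype_coe hKm.compl]
    have : (Subtype.val ⁻¹' Kᶜ : Set K) = ∅ := by
      ext x; simp
    rw [this, measure_empty]
  · rw [Measure.map_apply measurable_subtype_coe (measurableSet_plank θ a b)]
    have key : ∀ ε : ℝ, 0 < ε → (ν (Subtype.val ⁻¹' plank θ a b)).toReal ≤ b - a + 2 * ε := by
      intro ε hε
      let f : C(K, ℝ) := ⟨fun x => max 0 (1 - max 0 (max (a - inner ℝ (x : EuclideanSpace ℝ (Fin d)) θ)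
        (inner ℝ (x : EuclideanSpace ℝ (Fin d)) θ - b)) / ε), by fun_prop⟩
      have hf : ∀ x : K, f x = max 0 (1 - max 0 (max (a - inner ℝ (x : EuclideanSpace ℝ (Fin d)) θ)
        (inner ℝ (x : EuclideanSpace ℝ (Fin d)) θ - b)) / ε) := fun x => rfl
      have h1 : FC K f (1 * ((b + ε) - (a - ε))) := by
        refine FC_one_plank hθ (by linarith) zero_le_one fun x => ?_
        rw [one_mul, hf]
        by_cases hx : (x : EuclideanSpace ℝ (Fin d)) ∈ plank θ (a - ε) (b + ε)
        · rw [indicator_of_mem hx]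
          refine max_le zero_le_one ?_
          have : 0 ≤ max 0 (max (a - inner ℝ (x : EuclideanSpace ℝ (Fin d)) θ)
            (inner ℝ (x : EuclideanSpace ℝ (Fin d)) θ - b)) / ε := by positivity
          linarith
        · rw [indicator_of_notMem hx]
          refine max_le le_rfl ?_
          rw [sub_nonpos, le_div_iff₀ hε, one_mul]
          have hx : ¬ (a - ε ≤ inner ℝ (x : EuclideanSpace ℝ (Fin d)) θ ∧
            inner ℝ (x : EuclideanSpace ℝ (Fin d)) θ ≤ b + ε) := hx
          rw [not_and_or, not_le, not_le] at hx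
          rcases hx with hx | hx
          · exact le_max_of_le_right (le_max_of_le_left (by linarith))
          · exact le_max_of_le_right (le_max_of_le_right (by linarith))
      have h2 : ∫ x, f x ∂ν ≤ b - a + 2 * ε := by
        have h := (hg f).symm.le.trans ((hg2 f).trans h1.le)
        simp only [LinearMap.id_coe, id_eq] at h
        linarith
      refine le_trans ?_ h2
      have hm : MeasurableSet (Subtype.val ⁻¹' plank θ a b : Set K) :=
        measurable_subtype_coe (measurableSet_plank θ a b)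
      have h3 : (ν (Subtype.val ⁻¹' plank θ a b)).toReal =
          ∫ x, (Subtype.val ⁻¹' plank θ a b : Set K).indicator (fun _ => (1 : ℝ)) x ∂ν := by
        rw [integral_indicator hm]
        simp [Measure.real]
      rw [h3]
      refine integral_mono ((integrable_const (1 : ℝ)).indicator hm)
        (f.continuous.integrable_of_hasCompactSupport (HasCompactSupport.of_compactSpace _)) fun x => ?_
      by_cases hx : x ∈ (Subtype.val ⁻¹' plank θ a b : Set K)
      · rw [indicator_of_mem hx, hf]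
        have hx' : a ≤ inner ℝ (x : EuclideanSpace ℝ (Fin d)) θ ∧
            inner ℝ (x : EuclideanSpace ℝ (Fin d)) θ ≤ b := hx
        have : max 0 (max (a - inner ℝ (x : EuclideanSpace ℝ (Fin d)) θ)
            (inner ℝ (x : EuclideanSpace ℝ (Fin d)) θ - b)) = 0 := by
          apply max_eq_left
          exact max_le (by linarith [hx'.1]) (by linarith [hx'.2])
        rw [this, zero_div, sub_zero]
        exact le_max_right _ _
      · rw [indicator_of_notMem hx, hf]
        exact le_max_left _ _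
    have h4 : (ν (Subtype.val ⁻¹' plank θ a b)).toReal ≤ b - a := by
      refine le_of_forall_pos_le_add fun ε hε => ?_
      have := key (ε / 2) (half_pos hε)
      linarith
    exact (ENNReal.le_ofReal_iff_toReal_le (measure_ne_top _ _) (by linarith)).2 h4
  · rw [Measure.map_apply measurable_subtype_coe hKm]
    rw [← hmass]
    congr 2
    ext x; simp

/-- counting inequality for a measure -/
theorem count_le {m : ℕ} (μ : Measure (EuclideanSpace ℝ (Fin d)))
    (S : Set (EuclideanSpace ℝ (Fin d))) (hS : MeasurableSet S) (k : ℕ)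
    (θ : Fin m → EuclideanSpace ℝ (Fin d)) (a b : Fin m → ℝ)
    (h : ∀ x ∈ S, k ≤ Nat.card {i : Fin m // x ∈ plank (θ i) (a i) (b i)}) :
    (k : ENNReal) * μ S ≤ ∑ i, μ (plank (θ i) (a i) (b i)) := by
  classical
  calc (k : ENNReal) * μ S = ∫⁻ _ in S, (k : ENNReal) ∂μ := by
        rw [setLIntegral_const]
    _ ≤ ∫⁻ x in S, ∑ i, (plank (θ i) (a i) (b i)).indicator (fun _ => (1 : ENNReal)) x ∂μ := by
        apply setLIntegral_mono' hS
        intro x hx
        have := h x hx
        rw [Nat.card_eq_fintype_card, Fintype.card_subtype] at this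
        calc (k : ENNReal) ≤ ((Finset.univ.filter
              (fun i => x ∈ plank (θ i) (a i) (b i))).card : ENNReal) := by exact_mod_cast this
          _ = ∑ i, (plank (θ i) (a i) (b i)).indicator (fun _ => (1 : ENNReal)) x := by
              rw [Finset.card_filter]
              push_cast
              apply Finset.sum_congr rfl
              intro i _
              by_cases hi : x ∈ plank (θ i) (a i) (b i)
              · simp [hi]
              · simp [hi]
    _ = ∑ i, ∫⁻ x in S, (plank (θ i) (a i) (b i)).indicator (fun _ => (1 : ENNReal)) x ∂μ := by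
        rw [lintegral_finsetSum]
        intro i _
        exact measurable_const.indicator (measurableSet_plank _ _ _)
    _ ≤ ∑ i, μ (plank (θ i) (a i) (b i)) := by
        refine Finset.sum_le_sum fun i _ => ?_
        rw [lintegral_indicator (measurableSet_plank _ _ _), setLIntegral_const, one_mul,
          Measure.restrict_apply (measurableSet_plank _ _ _)]
        exact measure_mono inter_subset_left

/-- weak duality -/
theorem measure_le_cover (hd : 1 ≤ d) (hb : IsConvexBody K) {μ : Measure (EuclideanSpace ℝ (Fin d))}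
    (h : ∀ (θ : EuclideanSpace ℝ (Fin d)) (a b : ℝ), ‖θ‖ = 1 → a ≤ b →
        μ (plank θ a b) ≤ ENNReal.ofReal (b - a)) :
    μ K ≤ ENNReal.ofReal (limConst K * minWidth K) := by
  have hw := minWidth_pos hd hb
  have key : ∀ (k m : ℕ) (θ : Fin m → EuclideanSpace ℝ (Fin d)) (a b : Fin m → ℝ),
      IsFoldCover K k θ a b → (k : ENNReal) * μ K ≤ ENNReal.ofReal (∑ i, (b i - a i)) := by
    intro k m θ a b hc
    refine (count_le μ K hb.1.measurableSet k θ a b hc.2.2).trans ?_
    rw [ENNReal.ofReal_sum_of_nonneg fun i _ => sub_nonneg.mpr (hc.2.1 i)]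
    exact Finset.sum_le_sum fun i _ => h _ _ _ (hc.1 i) (hc.2.1 i)
  obtain ⟨e, he⟩ := exists_unit hd
  have hfin : μ K ≠ ⊤ := by
    have h1 := key 1 _ _ _ _ (trivial_cover hb 1 e he)
    rw [Nat.cast_one, one_mul] at h1
    exact (h1.trans_lt ENNReal.ofReal_lt_top).ne
  rw [ENNReal.le_ofReal_iff_toReal_le hfin (mul_nonneg (limConst_nonneg hd hb) hw.le),
    ← div_le_iff₀ hw]
  refine limConst_ge_of hd hb fun k _ => ?_
  refine le_csInf (cover_nonempty hd hb k) ?_
  rintro _ ⟨m, θ, a, b, hc, rfl⟩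
  rw [div_mul_eq_mul_div]
  refine div_le_div_of_nonneg_right ?_ hw.le
  have h1 := key k m θ a b hc
  have h2 := ENNReal.toReal_mono ENNReal.ofReal_ne_top h1
  rw [ENNReal.toReal_mul, ENNReal.toReal_natCast,
    ENNReal.toReal_ofReal (Finset.sum_nonneg fun i _ => sub_nonneg.mpr (hc.2.1 i))] at h2
  linarith

end body

end Pool.Agent.V5helper78.PK
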