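import Mathlib
import Pool.Agent.Helper934.PlankCore

/-!
# Slices of spherical shells
-/

set_option autoImplicit false

open MeasureTheory Metric Set Filter Topology

namespace Pool.Agent.V5helper78.PK

open Pool.Agent.Helper934.PlankDefs Pool.Agent.Helper934.PlankCore

/-- the shell `s ≤ ‖x‖ ≤ ρ` -/
def shell (n : ℕ) (s ρ : ℝ) : Set (EuclideanSpace ℝ (Fin n)) := {x | s ^ 2 ≤ ‖x‖ ^ 2 ∧ ‖x‖ ^ 2 ≤ ρ ^ 2}

/-- slices of a shell -/
theorem slice {n : ℕ} {θ : EuclideanSpace ℝ (Fin (n + 1))} (hθ : ‖θ‖ = 1) (a b s ρ : ℝ) :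
    volume (plank θ a b ∩ shell (n + 1) s ρ) =
      ∫⁻ t in Icc a b, volume {z : EuclideanSpace ℝ (Fin n) |
        s ^ 2 - t ^ 2 ≤ ‖z‖ ^ 2 ∧ ‖z‖ ^ 2 ≤ ρ ^ 2 - t ^ 2} := by
  obtain ⟨B, hB⟩ : ∃ B : OrthonormalBasis (Fin (n + 1)) ℝ (EuclideanSpace ℝ (Fin (n + 1))),
      B 0 = θ := by
    have hcard : Module.finrank ℝ (EuclideanSpace ℝ (Fin (n + 1))) = Fintype.card (Fin (n + 1)) := by
      simp
    have horth : Orthonormal ℝ (({0} : Set (Fin (n + 1))).domRestrict (fun _ => θ)) := by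
      rw [orthonormal_iff_ite]
      rintro ⟨i, hi⟩ ⟨j, hj⟩
      simp only [mem_singleton_iff] at hi hj
      subst hi; subst hj
      simp [Set.domRestrict, hθ]
    obtain ⟨B, hB⟩ := horth.exists_orthonormalBasis_extension_of_card_eq hcard
    exact ⟨B, hB 0 rfl⟩
  set S1 : Set (ℝ × (Fin n → ℝ)) :=
    {p | a ≤ p.1 ∧ p.1 ≤ b ∧ s ^ 2 - p.1 ^ 2 ≤ ∑ i, p.2 i ^ 2 ∧
      ∑ i, p.2 i ^ 2 ≤ ρ ^ 2 - p.1 ^ 2} with hS1
  have hmeas1 : MeasurableSet S1 := by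
    have e1 : Measurable (fun p : ℝ × (Fin n → ℝ) => p.1) := measurable_fst
    have e2 : Measurable (fun p : ℝ × (Fin n → ℝ) => ∑ i, p.2 i ^ 2) := by fun_prop
    have e3 : Measurable (fun p : ℝ × (Fin n → ℝ) => s ^ 2 - p.1 ^ 2) := by fun_prop
    have e4 : Measurable (fun p : ℝ × (Fin n → ℝ) => ρ ^ 2 - p.1 ^ 2) := by fun_prop
    have : S1 = {p | a ≤ p.1} ∩ ({p | p.1 ≤ b} ∩ ({p | s ^ 2 - p.1 ^ 2 ≤ ∑ i, p.2 i ^ 2} ∩
        {p | ∑ i, p.2 i ^ 2 ≤ ρ ^ 2 - p.1 ^ 2})) := by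
      ext p; simp [hS1]
    rw [this]
    exact (measurableSet_le measurable_const e1).inter ((measurableSet_le e1 measurable_const).inter
      ((measurableSet_le e3 e2).inter (measurableSet_le e2 e4)))
  have mp1 := B.measurePreserving_repr
  have mp2 := EuclideanSpace.volume_preserving_symm_measurableEquiv_toLp (Fin (n + 1))
  have mp3 := volume_preserving_piFinSuccAbove (fun _ : Fin (n + 1) => ℝ) 0
  have mp := mp3.comp (mp2.comp mp1)
  have hpre : plank θ a b ∩ shell (n + 1) s ρ =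
      (⇑(MeasurableEquiv.piFinSuccAbove (fun _ : Fin (n + 1) => ℝ) 0) ∘
      ⇑(MeasurableEquiv.toLp 2 (Fin (n + 1) → ℝ)).symm ∘ ⇑B.repr) ⁻¹' S1 := by
    ext x
    have hnorm : ‖x‖ ^ 2 = (B.repr x) 0 ^ 2 + ∑ i : Fin n, (B.repr x) i.succ ^ 2 := by
      have : ‖x‖ = ‖B.repr x‖ := by simp
      rw [this, EuclideanSpace.norm_sq_eq, Fin.sum_univ_succ]
      simp only [Real.norm_eq_abs, sq_abs]
    have hinner : inner ℝ x θ = (B.repr x) 0 := by
      rw [B.repr_apply_apply, hB, real_inner_comm]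
    have h0 : ((MeasurableEquiv.piFinSuccAbove (fun _ : Fin (n + 1) => ℝ) 0)
        ((MeasurableEquiv.toLp 2 (Fin (n + 1) → ℝ)).symm (B.repr x))).1 = (B.repr x) 0 := rfl
    have h1 : ∀ i : Fin n, ((MeasurableEquiv.piFinSuccAbove (fun _ : Fin (n + 1) => ℝ) 0)
        ((MeasurableEquiv.toLp 2 (Fin (n + 1) → ℝ)).symm (B.repr x))).2 i = (B.repr x) i.succ :=
      fun i => rfl
    simp only [plank, shell, hS1, mem_inter_iff, mem_ofPred_eq, mem_preimage, Function.comp_apply,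
      hnorm, hinner, h0, h1]
    constructor
    · rintro ⟨⟨h1, h2⟩, h3, h4⟩
      exact ⟨h1, h2, by linarith, by linarith⟩
    · rintro ⟨h1, h2, h3, h4⟩
      exact ⟨⟨h1, h2⟩, by linarith, by linarith⟩
  have hvol : volume (plank θ a b ∩ shell (n + 1) s ρ) = volume S1 := by
    rw [hpre]
    exact mp.measure_preimage hmeas1.nullMeasurableSet
  rw [hvol, Measure.volume_eq_prod, Measure.prod_apply hmeas1,
    ← lintegral_indicator measurableSet_Icc]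
  refine lintegral_congr fun t => ?_
  by_cases ht : t ∈ Icc a b
  · rw [indicator_of_mem ht]
    have hvp := (EuclideanSpace.volume_preserving_symm_measurableEquiv_toLp (Fin n))
    set S : Set (Fin n → ℝ) := {y : Fin n → ℝ | s ^ 2 - t ^ 2 ≤ ∑ i, y i ^ 2 ∧
      ∑ i, y i ^ 2 ≤ ρ ^ 2 - t ^ 2} with hS
    have hmeas : MeasurableSet S := by
      have h1 : Measurable (fun y : Fin n → ℝ => ∑ i, y i ^ 2) := by fun_prop
      exact (measurableSet_le measurable_const h1).inter (measurableSet_le h1 measurable_const)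
    have e1 : Prod.mk t ⁻¹' S1 = S := by
      ext y
      simp only [hS1, hS, mem_preimage, mem_ofPred_eq]
      exact ⟨fun h => ⟨h.2.2.1, h.2.2.2⟩, fun h => ⟨ht.1, ht.2, h.1, h.2⟩⟩
    have hpre : volume S = volume ((MeasurableEquiv.toLp 2 (Fin n → ℝ)).symm ⁻¹' S) := by
      rw [hvp.measure_preimage hmeas.nullMeasurableSet]
    rw [e1, hpre]
    congr 1
    ext x
    simp only [mem_preimage, hS, mem_ofPred_eq, EuclideanSpace.norm_sq_eq,
      Real.norm_eq_abs, sq_abs]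
    rfl
  · rw [indicator_of_notMem ht]
    have : Prod.mk t ⁻¹' S1 = ∅ := by
      ext y
      simp only [hS1, mem_preimage, mem_ofPred_eq, mem_empty_iff_false, iff_false]
      intro hy
      exact ht ⟨hy.1, hy.2.1⟩
    rw [this]; simp

/-- volume of the unit ball -/
noncomputable def kap (n : ℕ) : ℝ := (volume (ball (0 : EuclideanSpace ℝ (Fin n)) 1)).toReal

theorem kap_pos (n : ℕ) : 0 < kap n :=
  ENNReal.toReal_pos (measure_ball_pos _ _ one_pos).ne' measure_ball_lt_top.ne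

theorem vol_closedBall {n : ℕ} {r : ℝ} (hr : 0 ≤ r) :
    volume (closedBall (0 : EuclideanSpace ℝ (Fin n)) r) = ENNReal.ofReal (kap n * r ^ n) := by
  rw [Measure.addHaar_closedBall _ _ hr, kap, mul_comm (ENNReal.toReal _),
    ENNReal.ofReal_mul (by positivity), ENNReal.ofReal_toReal measure_ball_lt_top.ne]
  simp

theorem pow_diff_le {n : ℕ} (hn : 2 ≤ n) {X Y : ℝ} (hY : 0 ≤ Y) (hXY : Y ≤ X) :
    X ^ n - Y ^ n ≤ n / 2 * X ^ (n - 2) * (X ^ 2 - Y ^ 2) := by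
  obtain ⟨m, rfl⟩ := Nat.exists_eq_add_of_le hn
  clear hn
  have hX : 0 ≤ X := hY.trans hXY
  induction m with
  | zero => simp
  | succ m ih =>
    have e1 : 2 + (m + 1) - 2 = m + 1 := by omega
    have e2 : 2 + m - 2 = m := by omega
    rw [e1]
    rw [e2] at ih
    have h1 : X * (X ^ (2 + m) - Y ^ (2 + m)) ≤
        X * (((2 + m : ℕ) : ℝ) / 2 * X ^ m * (X ^ 2 - Y ^ 2)) := mul_le_mul_of_nonneg_left ih hX
    have h2 : Y ^ (m + 1) ≤ X ^ (m + 1) := pow_le_pow_left₀ hY hXY _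
    have h3 : Y ^ (m + 1) * Y ≤ X ^ (m + 1) * ((X + Y) / 2) :=
      mul_le_mul h2 (by linarith) hY (by positivity)
    have h4 := mul_le_mul_of_nonneg_right h3 (sub_nonneg.mpr hXY)
    push_cast at h1 ⊢
    have e3 : X ^ (2 + (m + 1)) - Y ^ (2 + (m + 1)) =
        X * (X ^ (2 + m) - Y ^ (2 + m)) + Y ^ (m + 1) * Y * (X - Y) := by ring
    rw [e3]
    have e4 : (2 + ((m : ℝ) + 1)) / 2 * X ^ (m + 1) * (X ^ 2 - Y ^ 2) =
        X * ((2 + (m : ℝ)) / 2 * X ^ m * (X ^ 2 - Y ^ 2)) + X ^ (m + 1) * ((X + Y) / 2) * (X - Y) := by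
      ring
    rw [e4]
    linarith

theorem annulus_le {n : ℕ} (hn : 2 ≤ n) {s ρ : ℝ} (hs : 0 ≤ s) (hsρ : s ≤ ρ) (t : ℝ) :
    volume {z : EuclideanSpace ℝ (Fin n) | s ^ 2 - t ^ 2 ≤ ‖z‖ ^ 2 ∧ ‖z‖ ^ 2 ≤ ρ ^ 2 - t ^ 2} ≤
      ENNReal.ofReal (kap n * (n / 2 * ρ ^ (n - 2) * (ρ ^ 2 - s ^ 2))) := by
  have hρ : 0 ≤ ρ := hs.trans hsρ
  have hsρ2 : s ^ 2 ≤ ρ ^ 2 := pow_le_pow_left₀ hs hsρ 2
  rcases lt_or_ge (ρ ^ 2 - t ^ 2) 0 with h | h
  · have : {z : EuclideanSpace ℝ (Fin n) | s ^ 2 - t ^ 2 ≤ ‖z‖ ^ 2 ∧ ‖z‖ ^ 2 ≤ ρ ^ 2 - t ^ 2} = ∅ := by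
      ext z
      simp only [mem_ofPred_eq, mem_empty_iff_false, iff_false, not_and, not_le]
      intro _
      nlinarith [sq_nonneg ‖z‖]
    rw [this, measure_empty]
    exact zero_le
  set X := Real.sqrt (ρ ^ 2 - t ^ 2) with hX
  set Y := Real.sqrt (s ^ 2 - t ^ 2) with hY
  have hX0 : 0 ≤ X := Real.sqrt_nonneg _
  have hY0 : 0 ≤ Y := Real.sqrt_nonneg _
  have hYX : Y ≤ X := Real.sqrt_le_sqrt (by linarith)
  have hX2 : X ^ 2 = ρ ^ 2 - t ^ 2 := Real.sq_sqrt h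
  have hY2 : s ^ 2 - t ^ 2 ≤ Y ^ 2 := by
    rcases le_total 0 (s ^ 2 - t ^ 2) with h' | h'
    · rw [hY, Real.sq_sqrt h']
    · exact h'.trans (sq_nonneg _)
  have hXρ : X ≤ ρ := by
    rw [hX]
    exact Real.sqrt_le_iff.2 ⟨hρ, by nlinarith [sq_nonneg t]⟩
  have hsub : ball (0 : EuclideanSpace ℝ (Fin n)) Y ⊆ closedBall (0 : EuclideanSpace ℝ (Fin n)) X :=
    ball_subset_closedBall.trans (closedBall_subset_closedBall hYX)
  calc volume {z : EuclideanSpace ℝ (Fin n) | s ^ 2 - t ^ 2 ≤ ‖z‖ ^ 2 ∧ ‖z‖ ^ 2 ≤ ρ ^ 2 - t ^ 2}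
      ≤ volume (closedBall (0 : EuclideanSpace ℝ (Fin n)) X \
          ball (0 : EuclideanSpace ℝ (Fin n)) Y) := by
        apply measure_mono
        intro x hx
        simp only [mem_ofPred_eq] at hx
        simp only [Set.mem_sdiff, mem_closedBall, dist_zero_right, mem_ball, not_lt]
        exact ⟨Real.le_sqrt_of_sq_le hx.2, Real.sqrt_le_iff.mpr ⟨norm_nonneg x, hx.1⟩⟩
    _ = volume (closedBall (0 : EuclideanSpace ℝ (Fin n)) X) -
          volume (ball (0 : EuclideanSpace ℝ (Fin n)) Y) := by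
        rw [measure_sdiff hsub measurableSet_ball.nullMeasurableSet]
        exact measure_ball_lt_top.ne
    _ = ENNReal.ofReal (kap n * X ^ n) - ENNReal.ofReal (kap n * Y ^ n) := by
        have : Nonempty (Fin n) := ⟨⟨0, by omega⟩⟩
        rw [← Measure.addHaar_closedBall_eq_addHaar_ball, vol_closedBall hX0, vol_closedBall hY0]
    _ = ENNReal.ofReal (kap n * (X ^ n - Y ^ n)) := by
        rw [← ENNReal.ofReal_sub _ (mul_nonneg (kap_pos n).le (pow_nonneg hY0 _))]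
        congr 1; ring
    _ ≤ _ := by
        refine ENNReal.ofReal_le_ofReal (mul_le_mul_of_nonneg_left ?_ (kap_pos n).le)
        refine (pow_diff_le hn hY0 hYX).trans ?_
        have h1 : X ^ (n - 2) ≤ ρ ^ (n - 2) := pow_le_pow_left₀ hX0 hXρ _
        have h2 : X ^ 2 - Y ^ 2 ≤ ρ ^ 2 - s ^ 2 := by linarith
        have h3 : 0 ≤ X ^ 2 - Y ^ 2 := by nlinarith
        exact mul_le_mul (mul_le_mul_of_nonneg_left h1 (by positivity)) h2 h3 (by positivity)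

theorem annulus_ge {n : ℕ} (hn : 1 ≤ n) {s ρ : ℝ} (hs : 0 ≤ s) {t : ℝ} (ht : t ^ 2 ≤ ρ ^ 2) :
    ENNReal.ofReal (kap n * (Real.sqrt (ρ ^ 2 - t ^ 2) ^ n - s ^ n)) ≤
    volume {z : EuclideanSpace ℝ (Fin n) | s ^ 2 - t ^ 2 ≤ ‖z‖ ^ 2 ∧ ‖z‖ ^ 2 ≤ ρ ^ 2 - t ^ 2} := by
  set X := Real.sqrt (ρ ^ 2 - t ^ 2) with hX
  have hX0 : 0 ≤ X := Real.sqrt_nonneg _
  have hX2 : X ^ 2 = ρ ^ 2 - t ^ 2 := Real.sq_sqrt (by linarith)
  have : Nonempty (Fin n) := ⟨⟨0, by omega⟩⟩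
  calc ENNReal.ofReal (kap n * (X ^ n - s ^ n))
      = ENNReal.ofReal (kap n * X ^ n) - ENNReal.ofReal (kap n * s ^ n) := by
        rw [← ENNReal.ofReal_sub _ (mul_nonneg (kap_pos n).le (pow_nonneg hs _))]
        congr 1; ring
    _ = volume (closedBall (0 : EuclideanSpace ℝ (Fin n)) X) -
          volume (ball (0 : EuclideanSpace ℝ (Fin n)) s) := by
        rw [← Measure.addHaar_closedBall_eq_addHaar_ball, vol_closedBall hX0, vol_closedBall hs]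
    _ ≤ volume (closedBall (0 : EuclideanSpace ℝ (Fin n)) X \
          ball (0 : EuclideanSpace ℝ (Fin n)) s) := le_measure_sdiff
    _ ≤ _ := by
        apply measure_mono
        intro x hx
        simp only [Set.mem_sdiff, mem_closedBall, dist_zero_right, mem_ball, not_lt] at hx
        have h1 : ‖x‖ ^ 2 ≤ X ^ 2 := pow_le_pow_left₀ (norm_nonneg _) hx.1 2
        have h2 : s ^ 2 ≤ ‖x‖ ^ 2 := pow_le_pow_left₀ hs hx.2 2
        exact ⟨by nlinarith [sq_nonneg t], by linarith⟩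

theorem shell_plank_le {n : ℕ} (hn : 2 ≤ n) {θ : EuclideanSpace ℝ (Fin (n + 1))} (hθ : ‖θ‖ = 1)
    (a b : ℝ) {s ρ : ℝ} (hs : 0 ≤ s) (hsρ : s ≤ ρ) :
    volume (plank θ a b ∩ shell (n + 1) s ρ) ≤
      ENNReal.ofReal (kap n * (n / 2 * ρ ^ (n - 2) * (ρ ^ 2 - s ^ 2))) * ENNReal.ofReal (b - a) := by
  rw [slice hθ]
  refine (lintegral_mono fun t => annulus_le hn hs hsρ t).trans (le_of_eq ?_)
  rw [setLIntegral_const, Real.volume_Icc]

theorem shell_plank_ge {n : ℕ} (hn : 1 ≤ n) {θ : EuclideanSpace ℝ (Fin (n + 1))} (hθ : ‖θ‖ = 1)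
    {r s ρ : ℝ} (hs : 0 ≤ s) (hr : 0 ≤ r) (hrρ : r ≤ ρ) :
    ENNReal.ofReal (kap n * (Real.sqrt (ρ ^ 2 - r ^ 2) ^ n - s ^ n)) * ENNReal.ofReal (2 * r) ≤
    volume (plank θ (-r) r ∩ shell (n + 1) s ρ) := by
  rw [slice hθ]
  have e : ENNReal.ofReal (2 * r) = volume (Icc (-r) r) := by
    rw [Real.volume_Icc]; congr 1; ring
  rw [e, ← setLIntegral_const]
  refine setLIntegral_mono' measurableSet_Icc fun t ht => ?_
  have h1 : t ^ 2 ≤ r ^ 2 := by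
    rw [← sq_abs t]; exact pow_le_pow_left₀ (abs_nonneg _) (abs_le.2 ht) 2
  have h2 : r ^ 2 ≤ ρ ^ 2 := pow_le_pow_left₀ hr hrρ 2
  refine le_trans ?_ (annulus_ge hn hs (h1.trans h2))
  refine ENNReal.ofReal_le_ofReal (mul_le_mul_of_nonneg_left ?_ (kap_pos n).le)
  refine sub_le_sub_right (pow_le_pow_left₀ (Real.sqrt_nonneg _) (Real.sqrt_le_sqrt ?_) _) _
  linarith

theorem shell_eq {n : ℕ} {s ρ : ℝ} (hs : 0 ≤ s) (hρ : 0 ≤ ρ) :
    shell n s ρ = closedBall 0 ρ \ ball 0 s := by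
  ext x
  simp only [shell, mem_ofPred_eq, Set.mem_sdiff, mem_closedBall, dist_zero_right, mem_ball, not_lt]
  rw [pow_le_pow_iff_left₀ hs (norm_nonneg _) two_ne_zero,
    pow_le_pow_iff_left₀ (norm_nonneg _) hρ two_ne_zero, and_comm]

theorem measurableSet_shell {n : ℕ} (s ρ : ℝ) : MeasurableSet (shell n s ρ) := by
  have h1 : Measurable (fun x : EuclideanSpace ℝ (Fin n) => ‖x‖ ^ 2) := by fun_prop
  exact (measurableSet_le measurable_const h1).inter (measurableSet_le h1 measurable_const)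

theorem vol_shell {n : ℕ} (hn : 1 ≤ n) {s ρ : ℝ} (hs : 0 ≤ s) (hsρ : s ≤ ρ) :
    volume (shell n s ρ) = ENNReal.ofReal (kap n * (ρ ^ n - s ^ n)) := by
  have hρ : 0 ≤ ρ := hs.trans hsρ
  have : Nonempty (Fin n) := ⟨⟨0, by omega⟩⟩
  rw [shell_eq hs hρ, measure_sdiff (ball_subset_closedBall.trans (closedBall_subset_closedBall hsρ))
    measurableSet_ball.nullMeasurableSet measure_ball_lt_top.ne,
    ← Measure.addHaar_closedBall_eq_addHaar_ball, vol_closedBall hρ, vol_closedBall hs,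
    ← ENNReal.ofReal_sub _ (mul_nonneg (kap_pos n).le (pow_nonneg hs _))]
  congr 1; ring

end Pool.Agent.V5helper78.PK
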