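import Mathlib
import Pool.Agent.V5helper78.PK.SL
import Pool.Agent.V5helper78.PK.DU

/-!
# The exact constant for balls
-/

set_option autoImplicit false

open MeasureTheory Metric Set Filter Topology

namespace Pool.Agent.V5helper78.PK

open Pool.Agent.Helper934.PlankDefs Pool.Agent.Helper934.PlankSupp Pool.Agent.Helper934.PlankMain
  Pool.Agent.Helper934.PlankCore

theorem geo_ge {s ρ : ℝ} (hs : 0 < s) (hsρ : s ≤ ρ) (m : ℕ) :
    m * s ^ m * (ρ - s) ≤ s * (ρ ^ m - s ^ m) := by
  induction m with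
  | zero => simp
  | succ m ih =>
    have e : s * (ρ ^ (m + 1) - s ^ (m + 1)) = ρ * (s * (ρ ^ m - s ^ m)) + s ^ (m + 1) * (ρ - s) := by
      ring
    have h0 : 0 ≤ s * (ρ ^ m - s ^ m) :=
      mul_nonneg hs.le (sub_nonneg.mpr (pow_le_pow_left₀ hs.le hsρ m))
    have h1 : s * (s * (ρ ^ m - s ^ m)) ≤ ρ * (s * (ρ ^ m - s ^ m)) :=
      mul_le_mul_of_nonneg_right hsρ h0
    have h2 := mul_le_mul_of_nonneg_left ih hs.le
    rw [e]
    push_cast
    calc ((m : ℝ) + 1) * s ^ (m + 1) * (ρ - s) = s * (m * s ^ m * (ρ - s)) + s ^ (m + 1) * (ρ - s) := by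
          ring
      _ ≤ _ := by linarith

/-- the lower bound by an inscribed ball -/
theorem lower_ball {n : ℕ} (hn : 2 ≤ n) {K : Set (EuclideanSpace ℝ (Fin (n + 1)))}
    (hb : IsConvexBody K) {c : EuclideanSpace ℝ (Fin (n + 1))} {ρ : ℝ} (hρ : 0 < ρ)
    (hc : closedBall c ρ ⊆ K) :
    ((n : ℝ) + 1) * kap (n + 1) * ρ ≤ limConst K * minWidth K * (n * kap n) := by
  have hd : 1 ≤ n + 1 := by omega
  have hw := minWidth_pos hd hb
  have hl := limConst_nonneg hd hb
  have hk := kap_pos n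
  have hk1 := kap_pos (n + 1)
  have hnp : (0 : ℝ) < n := by exact_mod_cast (by omega : 0 < n)
  have key : ∀ s, 0 < s → s < ρ → kap (n + 1) * (ρ ^ (n + 1) - s ^ (n + 1)) ≤
      limConst K * minWidth K * (kap n * (n / 2 * ρ ^ (n - 2) * (ρ ^ 2 - s ^ 2))) := by
    intro s hs hsρ
    set A : ℝ := kap n * (n / 2 * ρ ^ (n - 2) * (ρ ^ 2 - s ^ 2)) with hA
    have hA0 : 0 < A := by
      have : s ^ 2 < ρ ^ 2 := pow_lt_pow_left₀ hsρ hs.le two_ne_zero
      have h2 : 0 < ρ ^ 2 - s ^ 2 := by linarith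
      positivity
    have hAe : ENNReal.ofReal A ≠ 0 := (ENNReal.ofReal_pos.2 hA0).ne'
    set S : Set (EuclideanSpace ℝ (Fin (n + 1))) := (fun x => x + -c) ⁻¹' shell (n + 1) s ρ with hS
    have h := measure_le_cover hd hb (μ := (ENNReal.ofReal A)⁻¹ • volume.restrict S) (by
      intro θ a b hθ hab
      rw [Measure.smul_apply, smul_eq_mul, Measure.restrict_apply (measurableSet_plank θ a b)]
      have e : plank θ a b ∩ S = (fun x => x + -c) ⁻¹'
          (plank θ (a - inner ℝ c θ) (b - inner ℝ c θ) ∩ shell (n + 1) s ρ) := by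
        ext x
        simp only [hS, plank, mem_inter_iff, mem_ofPred_eq, mem_preimage, inner_add_left,
          inner_neg_left]
        constructor
        · rintro ⟨⟨h1, h2⟩, h3⟩
          exact ⟨⟨by linarith, by linarith⟩, h3⟩
        · rintro ⟨⟨h1, h2⟩, h3⟩
          exact ⟨⟨by linarith, by linarith⟩, h3⟩
      rw [e, measure_preimage_add_right]
      have h1 := shell_plank_le hn hθ (a - inner ℝ c θ) (b - inner ℝ c θ) hs.le hsρ.le
      rw [← hA] at h1
      calc (ENNReal.ofReal A)⁻¹ * _ ≤ (ENNReal.ofReal A)⁻¹ * (ENNReal.ofReal A *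
            ENNReal.ofReal (b - inner ℝ c θ - (a - inner ℝ c θ))) := mul_le_mul_right h1 _
        _ = ENNReal.ofReal (b - a) := by
          rw [← mul_assoc, ENNReal.inv_mul_cancel hAe ENNReal.ofReal_ne_top, one_mul]
          congr 1; ring)
    rw [Measure.smul_apply, smul_eq_mul, Measure.restrict_apply hb.1.measurableSet] at h
    have hSK : K ∩ S = S := by
      refine inter_eq_right.2 fun x hx => hc ?_
      rw [hS, mem_preimage, shell_eq hs.le hρ.le] at hx
      have := hx.1
      rw [mem_closedBall, dist_zero_right, ← sub_eq_add_neg] at this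
      rwa [mem_closedBall, dist_eq_norm]
    rw [hSK, hS, measure_preimage_add_right, vol_shell (by omega) hs.le hsρ.le] at h
    have h2 : ENNReal.ofReal (kap (n + 1) * (ρ ^ (n + 1) - s ^ (n + 1))) ≤
        ENNReal.ofReal A * ENNReal.ofReal (limConst K * minWidth K) := by
      calc ENNReal.ofReal (kap (n + 1) * (ρ ^ (n + 1) - s ^ (n + 1)))
          = ENNReal.ofReal A * ((ENNReal.ofReal A)⁻¹ *
            ENNReal.ofReal (kap (n + 1) * (ρ ^ (n + 1) - s ^ (n + 1)))) := by
            rw [← mul_assoc, ENNReal.mul_inv_cancel hAe ENNReal.ofReal_ne_top, one_mul]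
        _ ≤ _ := mul_le_mul_right h _
    rw [← ENNReal.ofReal_mul hA0.le,
      ENNReal.ofReal_le_ofReal_iff (mul_nonneg hA0.le (mul_nonneg hl hw.le))] at h2
    linarith
  -- divide by `ρ - s`
  have key2 : ∀ s, 0 < s → s < ρ → kap (n + 1) * ((n + 1) * s ^ n) ≤
      limConst K * minWidth K * (kap n * (n * ρ ^ (n - 1))) := by
    intro s hs hsρ
    have hδ : 0 < ρ - s := sub_pos.mpr hsρ
    have h1 := geo_ge hs hsρ.le (n + 1)
    have h2 : ((n : ℝ) + 1) * s ^ n * (ρ - s) ≤ ρ ^ (n + 1) - s ^ (n + 1) := by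
      have : s * (((n : ℝ) + 1) * s ^ n * (ρ - s)) ≤ s * (ρ ^ (n + 1) - s ^ (n + 1)) := by
        push_cast at h1
        calc s * (((n : ℝ) + 1) * s ^ n * (ρ - s)) = (n + 1) * s ^ (n + 1) * (ρ - s) := by ring
          _ ≤ _ := h1
      exact le_of_mul_le_mul_left this hs
    have h3 : ρ ^ (n - 2) * (ρ ^ 2 - s ^ 2) ≤ 2 * ρ ^ (n - 1) * (ρ - s) := by
      have e1 : ρ ^ (n - 1) = ρ ^ (n - 2) * ρ := by
        rw [← pow_succ]; congr 1; omega
      have e2 : 2 * ρ ^ (n - 1) * (ρ - s) - ρ ^ (n - 2) * (ρ ^ 2 - s ^ 2) =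
          ρ ^ (n - 2) * (ρ - s) ^ 2 := by rw [e1]; ring
      have : 0 ≤ ρ ^ (n - 2) * (ρ - s) ^ 2 := by positivity
      linarith
    have h4 : kap (n + 1) * ((n + 1) * s ^ n) * (ρ - s) ≤
        limConst K * minWidth K * (kap n * (n * ρ ^ (n - 1))) * (ρ - s) := by
      calc kap (n + 1) * ((n + 1) * s ^ n) * (ρ - s) = kap (n + 1) * (((n : ℝ) + 1) * s ^ n * (ρ - s)) := by
            ring
        _ ≤ kap (n + 1) * (ρ ^ (n + 1) - s ^ (n + 1)) := mul_le_mul_of_nonneg_left h2 hk1.le
        _ ≤ _ := key s hs hsρ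
        _ = limConst K * minWidth K * (kap n * (n / 2 * (ρ ^ (n - 2) * (ρ ^ 2 - s ^ 2)))) := by ring
        _ ≤ limConst K * minWidth K * (kap n * (n / 2 * (2 * ρ ^ (n - 1) * (ρ - s)))) := by
            refine mul_le_mul_of_nonneg_left (mul_le_mul_of_nonneg_left
              (mul_le_mul_of_nonneg_left h3 (by positivity)) hk.le) (mul_nonneg hl hw.le)
        _ = _ := by ring
    exact le_of_mul_le_mul_right h4 hδ
  have h5 : kap (n + 1) * ((n + 1) * ρ ^ n) ≤
      limConst K * minWidth K * (kap n * (n * ρ ^ (n - 1))) := by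
    have hcont : Continuous fun s : ℝ => kap (n + 1) * ((n + 1) * s ^ n) := by fun_prop
    refine le_of_tendsto ((hcont.tendsto ρ).mono_left (nhdsWithin_le_nhds (s := Iio ρ))) ?_
    filter_upwards [Ioo_mem_nhdsLT hρ] with s hs
    exact key2 s hs.1 hs.2
  have e1 : ρ ^ n = ρ ^ (n - 1) * ρ := by rw [← pow_succ]; congr 1; omega
  have h6 : (((n : ℝ) + 1) * kap (n + 1) * ρ) * ρ ^ (n - 1) ≤
      (limConst K * minWidth K * (n * kap n)) * ρ ^ (n - 1) := by
    rw [e1] at h5
    linarith
  exact le_of_mul_le_mul_right h6 (by positivity)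

/-- averaging over directions: the upper bound for the ball -/
theorem upper_ball {n : ℕ} (hn : 1 ≤ n) {c : EuclideanSpace ℝ (Fin (n + 1))} {ρ : ℝ} (hρ : 0 < ρ)
    (hb : IsConvexBody (closedBall c ρ)) :
    limConst (closedBall c ρ) * minWidth (closedBall c ρ) * (n * kap n) ≤
      ((n : ℝ) + 1) * kap (n + 1) * ρ := by
  have hd : 1 ≤ n + 1 := by omega
  have hk := kap_pos n
  have hk1 := kap_pos (n + 1)
  have hnp : (0 : ℝ) < n := by exact_mod_cast hn
  obtain ⟨μ, hμ, -, hμp, hμK⟩ := exists_measure hd hb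
  set M : ℝ := limConst (closedBall c ρ) * minWidth (closedBall c ρ) with hM
  have hM0 : 0 ≤ M := mul_nonneg (limConst_nonneg hd hb) (minWidth_pos hd hb).le
  have hμK' : μ (closedBall c ρ) = ENNReal.ofReal M := by
    rw [← hμK, ENNReal.ofReal_toReal (measure_ne_top _ _)]
  obtain ⟨e₀, he₀⟩ := exists_unit hd
  have key : ∀ s τ : ℝ, 0 < s → s < 1 → 0 < τ → τ < 1 →
      M * s * (kap n * (Real.sqrt (1 ^ 2 - (τ * s) ^ 2) ^ n - s ^ n)) ≤
        ρ * (kap (n + 1) * (1 ^ (n + 1) - s ^ (n + 1))) := by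
    intro s τ hs hs1 hτ hτ1
    set v : ℝ := kap n * (Real.sqrt (1 ^ 2 - (τ * s) ^ 2) ^ n - s ^ n) with hv
    set V : ℝ := kap (n + 1) * (1 ^ (n + 1) - s ^ (n + 1)) with hV
    have hV0 : 0 ≤ V := by
      have : s ^ (n + 1) ≤ 1 ^ (n + 1) := pow_le_pow_left₀ hs.le hs1.le _
      exact mul_nonneg hk1.le (by linarith)
    rcases le_total v 0 with hv0 | hv0
    · exact (mul_nonpos_of_nonneg_of_nonpos (by positivity) hv0).trans (by positivity)
    let A : Set (EuclideanSpace ℝ (Fin (n + 1)) × EuclideanSpace ℝ (Fin (n + 1))) :=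
      {p | |(inner ℝ (p.1 - c) p.2 : ℝ)| ≤ ρ * τ * ‖p.2‖} ∩ {p | p.2 ∈ shell (n + 1) s 1}
    have hA : MeasurableSet A := by
      refine MeasurableSet.inter (measurableSet_le (by fun_prop) (by fun_prop)) ?_
      exact measurable_snd (measurableSet_shell s 1)
    have h1 : (μ.prod volume) A ≤ ENNReal.ofReal (2 * (ρ * τ)) * ENNReal.ofReal V := by
      rw [Measure.prod_apply_symm hA]
      calc ∫⁻ y, μ ((fun x => (x, y)) ⁻¹' A)
          ≤ ∫⁻ y, (shell (n + 1) s 1).indicator (fun _ => ENNReal.ofReal (2 * (ρ * τ))) y := by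
            refine lintegral_mono fun y => ?_
            by_cases hy : y ∈ shell (n + 1) s 1
            · rw [indicator_of_mem hy]
              have hyn : 0 < ‖y‖ := by
                have := hy.1
                have h2 : 0 < s ^ 2 := by positivity
                rcases (norm_nonneg y).lt_or_eq with h | h
                · exact h
                · exfalso; rw [← h] at this; nlinarith
              have hu : ‖‖y‖⁻¹ • y‖ = 1 := by
                rw [norm_smul, norm_inv, norm_norm]; exact inv_mul_cancel₀ hyn.ne'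
              refine (measure_mono ?_).trans ((hμp (‖y‖⁻¹ • y)
                (inner ℝ c (‖y‖⁻¹ • y) - ρ * τ) (inner ℝ c (‖y‖⁻¹ • y) + ρ * τ) hu
                (by nlinarith [mul_pos hρ hτ])).trans (le_of_eq ?_))
              · intro x hx
                have hx1 : |(inner ℝ (x - c) y : ℝ)| ≤ ρ * τ * ‖y‖ := hx.1
                have hx2 : |(inner ℝ (x - c) (‖y‖⁻¹ • y) : ℝ)| ≤ ρ * τ := by
                  rw [inner_smul_right, abs_mul, abs_of_pos (inv_pos.2 hyn),
                    inv_mul_le_iff₀ hyn]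
                  linarith
                rw [inner_sub_left, abs_le] at hx2
                exact ⟨by linarith [hx2.1], by linarith [hx2.2]⟩
              · congr 1; ring
            · rw [indicator_of_notMem hy]
              have : (fun x => (x, y)) ⁻¹' A = ∅ := by
                ext x
                simp only [mem_preimage, mem_empty_iff_false, iff_false]
                exact fun hx => hy hx.2
              rw [this, measure_empty]
        _ = ENNReal.ofReal (2 * (ρ * τ)) * ENNReal.ofReal V := by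
            rw [lintegral_indicator (measurableSet_shell s 1), setLIntegral_const,
              vol_shell (by omega) hs.le hs1.le]
    have h2 : ENNReal.ofReal v * ENNReal.ofReal (2 * (τ * s)) * ENNReal.ofReal M ≤
        (μ.prod volume) A := by
      rw [Measure.prod_apply hA, ← hμK', ← setLIntegral_const]
      refine (setLIntegral_mono' measurableSet_closedBall fun x hx => ?_).trans
        (setLIntegral_le_lintegral _ _)
      obtain ⟨u, hu, hxu⟩ : ∃ u : EuclideanSpace ℝ (Fin (n + 1)), ‖u‖ = 1 ∧ x - c = ‖x - c‖ • u := by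
        by_cases h0 : x - c = 0
        · exact ⟨e₀, he₀, by rw [h0, norm_zero, zero_smul]⟩
        · have hp := norm_pos_iff.2 h0
          refine ⟨‖x - c‖⁻¹ • (x - c), ?_, ?_⟩
          · rw [norm_smul, norm_inv, norm_norm]; exact inv_mul_cancel₀ hp.ne'
          · rw [smul_smul, mul_inv_cancel₀ hp.ne', one_smul]
      have hxr : ‖x - c‖ ≤ ρ := by rwa [← dist_eq_norm, ← mem_closedBall]
      refine (shell_plank_ge (n := n) hn hu (r := τ * s) (s := s) (ρ := 1) hs.le (by positivity)
        (by nlinarith)).trans (measure_mono ?_)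
      rintro y ⟨hy1, hy2⟩
      refine ⟨?_, hy2⟩
      have h3 : |(inner ℝ y u : ℝ)| ≤ τ * s := abs_le.2 hy1
      have h4 : s ≤ ‖y‖ := by
        rw [shell_eq hs.le zero_le_one] at hy2
        simpa using hy2.2
      change |(inner ℝ (x - c) y : ℝ)| ≤ ρ * τ * ‖y‖
      rw [hxu, inner_smul_left, conj_trivial, abs_mul, abs_of_nonneg (norm_nonneg _),
        real_inner_comm]
      calc ‖x - c‖ * |(inner ℝ y u : ℝ)| ≤ ρ * (τ * s) :=
            mul_le_mul hxr h3 (abs_nonneg _) hρ.le
        _ ≤ ρ * (τ * ‖y‖) := by gcongr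
        _ = ρ * τ * ‖y‖ := by ring
    have h3 := h2.trans h1
    rw [← ENNReal.ofReal_mul hv0, ← ENNReal.ofReal_mul (by positivity),
      ← ENNReal.ofReal_mul (by positivity),
      ENNReal.ofReal_le_ofReal_iff (by positivity)] at h3
    have h4 : (M * s * v) * (2 * τ) ≤ (ρ * V) * (2 * τ) := by linarith
    exact le_of_mul_le_mul_right h4 (by positivity)
  have key2 : ∀ s : ℝ, 0 < s → s < 1 → M * s * (kap n * (1 - s ^ n)) ≤
      ρ * (kap (n + 1) * (1 - s ^ (n + 1))) := by
    intro s hs hs1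
    have hcont : Continuous fun τ : ℝ =>
        M * s * (kap n * (Real.sqrt (1 ^ 2 - (τ * s) ^ 2) ^ n - s ^ n)) := by fun_prop
    have ht := (hcont.tendsto 0).mono_left (nhdsWithin_le_nhds (s := Ioi 0))
    have e : M * s * (kap n * (Real.sqrt (1 ^ 2 - (0 * s) ^ 2) ^ n - s ^ n)) =
        M * s * (kap n * (1 - s ^ n)) := by simp
    rw [e] at ht
    refine le_of_tendsto ht ?_
    filter_upwards [Ioo_mem_nhdsGT (zero_lt_one (α := ℝ))] with τ hτ
    have h := key s τ hs hs1 hτ.1 hτ.2
    have e2 : (1 : ℝ) ^ (n + 1) = 1 := one_pow _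
    rw [e2] at h
    exact h
  have key3 : ∀ s : ℝ, 0 < s → s < 1 → M * (kap n * (n * s ^ n)) ≤
      ρ * (kap (n + 1) * (n + 1)) := by
    intro s hs hs1
    have hδ : 0 < 1 - s := sub_pos.mpr hs1
    have h1 := geo_ge hs hs1.le n
    rw [one_pow] at h1
    have h2 : 1 - s ^ (n + 1) ≤ (n + 1) * (1 - s) := by
      have := one_add_mul_le_pow (a := s - 1) (by linarith) (n + 1)
      push_cast at this
      have e : 1 + (s - 1) = s := by ring
      rw [e] at this
      linarith
    have h3 : M * (kap n * (n * s ^ n)) * (1 - s) ≤ ρ * (kap (n + 1) * (n + 1)) * (1 - s) := by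
      calc M * (kap n * (n * s ^ n)) * (1 - s) = M * kap n * (n * s ^ n * (1 - s)) := by ring
        _ ≤ M * kap n * (s * (1 - s ^ n)) := mul_le_mul_of_nonneg_left h1 (by positivity)
        _ = M * s * (kap n * (1 - s ^ n)) := by ring
        _ ≤ ρ * (kap (n + 1) * (1 - s ^ (n + 1))) := key2 s hs hs1
        _ ≤ ρ * (kap (n + 1) * ((n + 1) * (1 - s))) := by gcongr
        _ = _ := by ring
    exact le_of_mul_le_mul_right h3 hδ
  have hcont : Continuous fun s : ℝ => M * (kap n * (n * s ^ n)) := by fun_prop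
  have ht := (hcont.tendsto 1).mono_left (nhdsWithin_le_nhds (s := Iio 1))
  have h5 : M * (kap n * (n * 1 ^ n)) ≤ ρ * (kap (n + 1) * (n + 1)) := by
    refine le_of_tendsto ht ?_
    filter_upwards [Ioo_mem_nhdsLT (zero_lt_one (α := ℝ))] with s hs
    exact key3 s hs.1 hs.2
  rw [one_pow, mul_one] at h5
  linarith

end Pool.Agent.V5helper78.PK
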