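import Mathlib
import Pool.Agent.V5helper78.PK.BL

/-!
# The limit constant of balls
-/

set_option autoImplicit false

open MeasureTheory Metric Set Filter Topology

namespace Pool.Agent.V5helper78.PK

open Pool.Agent.Helper934.PlankDefs Pool.Agent.Helper934.PlankSupp Pool.Agent.Helper934.PlankMain
  Pool.Agent.Helper934.PlankCore

theorem kap_eq {n : ℕ} (hn : 1 ≤ n) :
    kap n = Real.sqrt Real.pi ^ n / Real.Gamma ((n : ℝ) / 2 + 1) := by
  have : Nonempty (Fin n) := ⟨⟨0, hn⟩⟩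
  have hG : 0 < Real.Gamma ((n : ℝ) / 2 + 1) := Real.Gamma_pos_of_pos (by positivity)
  rw [kap, EuclideanSpace.volume_ball, ENNReal.ofReal_one, one_pow, one_mul, Fintype.card_fin,
    ENNReal.toReal_ofReal (by positivity)]

/-- the limit constant of the ball in dimension `d` -/
noncomputable def bet (d : ℕ) : ℝ :=
  Real.sqrt Real.pi * Real.Gamma (((d : ℝ) - 1) / 2) / (2 * Real.Gamma ((d : ℝ) / 2))

theorem kap_ratio {n : ℕ} (hn : 1 ≤ n) :
    ((n : ℝ) + 1) * kap (n + 1) = 2 * bet (n + 1) * (n * kap n) := by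
  have hnp : (0 : ℝ) < n := by exact_mod_cast hn
  have hG : Real.Gamma ((n : ℝ) / 2 + 1) = n / 2 * Real.Gamma ((n : ℝ) / 2) :=
    Real.Gamma_add_one (by positivity)
  have hG1 : Real.Gamma (((n : ℝ) + 1) / 2 + 1) = ((n : ℝ) + 1) / 2 * Real.Gamma (((n : ℝ) + 1) / 2) :=
    Real.Gamma_add_one (by positivity)
  have h1 : 0 < Real.Gamma ((n : ℝ) / 2) := Real.Gamma_pos_of_pos (by positivity)
  have h2 : 0 < Real.Gamma (((n : ℝ) + 1) / 2) := Real.Gamma_pos_of_pos (by positivity)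
  rw [kap_eq hn, kap_eq (by omega : 1 ≤ n + 1), bet]
  push_cast
  rw [hG, hG1, add_sub_cancel_right, pow_succ]
  field_simp

theorem bet_pos {d : ℕ} (hd : 2 ≤ d) : 0 < bet d := by
  have h2 : (2 : ℝ) ≤ d := by exact_mod_cast hd
  have h3 : 0 < Real.Gamma (((d : ℝ) - 1) / 2) := Real.Gamma_pos_of_pos (by linarith)
  have h4 : 0 < Real.Gamma ((d : ℝ) / 2) := Real.Gamma_pos_of_pos (by linarith)
  rw [bet]
  have := Real.pi_pos
  positivity

theorem bet_mul_le {d : ℕ} (hd : 3 ≤ d) {K : Set (EuclideanSpace ℝ (Fin d))} (hb : IsConvexBody K) :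
    bet d * (2 * inradius K / minWidth K) ≤ limConst K := by
  obtain ⟨n, rfl⟩ : ∃ n, d = n + 1 := ⟨d - 1, by omega⟩
  have hn : 2 ≤ n := by omega
  have hd1 : 1 ≤ n + 1 := by omega
  have hw := minWidth_pos hd1 hb
  have hr := inradius_pos hd1 hb
  have hk := kap_pos n
  have hnp : (0 : ℝ) < n := by exact_mod_cast (by omega : 0 < n)
  have hβ := bet_pos (d := n + 1) (by omega)
  have key : ∀ ρ, 0 < ρ → ρ < inradius K → 2 * bet (n + 1) * ρ ≤ limConst K * minWidth K := by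
    intro ρ hρ hρr
    obtain ⟨c, hc⟩ := ball_of_lt hb hρr
    have h := lower_ball hn hb hρ hc
    rw [kap_ratio (by omega)] at h
    have h' : (2 * bet (n + 1) * ρ) * (n * kap n) ≤ (limConst K * minWidth K) * (n * kap n) := by
      linarith
    exact le_of_mul_le_mul_right h' (by positivity)
  have hcont : Continuous fun ρ : ℝ => 2 * bet (n + 1) * ρ := by fun_prop
  have h5 : 2 * bet (n + 1) * inradius K ≤ limConst K * minWidth K := by
    refine le_of_tendsto ((hcont.tendsto (inradius K)).mono_left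
      (nhdsWithin_le_nhds (s := Iio (inradius K)))) ?_
    filter_upwards [Ioo_mem_nhdsLT hr] with ρ hρ
    exact key ρ hρ.1 hρ.2
  rw [← mul_div_assoc, div_le_iff₀ hw]
  linarith

theorem body_closedBall {d : ℕ} (p : EuclideanSpace ℝ (Fin d)) {ρ : ℝ} (hρ : 0 < ρ) :
    IsConvexBody (closedBall p ρ) := by
  refine ⟨isCompact_closedBall _ _, convex_closedBall _ _, p, ?_⟩
  rw [mem_interior]
  exact ⟨ball p ρ, ball_subset_closedBall, isOpen_ball, mem_ball_self hρ⟩

theorem symm_ball {d : ℕ} (p : EuclideanSpace ℝ (Fin d)) (ρ : ℝ) :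
    ∀ x ∈ closedBall p ρ, (2 : ℝ) • p - x ∈ closedBall p ρ := by
  intro x hx
  rw [mem_closedBall, dist_eq_norm] at hx ⊢
  have : (2 : ℝ) • p - x - p = -(x - p) := by rw [two_smul]; abel
  rwa [this, norm_neg]

theorem limConst_ball {d : ℕ} (hd : 3 ≤ d) (p : EuclideanSpace ℝ (Fin d)) {ρ : ℝ} (hρ : 0 < ρ) :
    limConst (closedBall p ρ) = bet d := by
  have hd1 : 1 ≤ d := by omega
  have hb := body_closedBall p hρ
  have hw := minWidth_pos hd1 hb
  have hs := symm_width hd1 hb p (symm_ball p ρ)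
  apply le_antisymm
  · obtain ⟨n, rfl⟩ : ∃ n, d = n + 1 := ⟨d - 1, by omega⟩
    have hk := kap_pos n
    have hnp : (0 : ℝ) < n := by exact_mod_cast (by omega : 0 < n)
    have h := upper_ball (n := n) (by omega) hρ hb
    rw [kap_ratio (by omega)] at h
    have h1 : (limConst (closedBall p ρ) * minWidth (closedBall p ρ)) * (n * kap n) ≤
        (2 * bet (n + 1) * ρ) * (n * kap n) := by linarith
    have h2 := le_of_mul_le_mul_right h1 (by positivity)
    have h3 : 2 * ρ ≤ minWidth (closedBall p ρ) := by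
      rw [hs]
      have : ρ ≤ inradius (closedBall p ρ) :=
        le_csSup (bddAbove_radii hd1 hb.1) ⟨hρ.le, p, Subset.rfl⟩
      linarith
    have h4 : limConst (closedBall p ρ) * (2 * ρ) ≤ bet (n + 1) * (2 * ρ) := by
      have := mul_le_mul_of_nonneg_left h3 (limConst_nonneg hd1 hb)
      linarith
    exact le_of_mul_le_mul_right h4 (by positivity)
  · have h := bet_mul_le hd hb
    rwa [← hs, div_self hw.ne', mul_one] at h

theorem gamma_half {x : ℝ} (hx : 0 < x) : Real.Gamma (x + 1 / 2) ≤ Real.sqrt x * Real.Gamma x := by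
  have hG := Real.Gamma_pos_of_pos hx
  have h := Real.Gamma_mul_add_mul_le_rpow_Gamma_mul_rpow_Gamma (s := x) (t := x + 1) (a := 1 / 2)
    (b := 1 / 2) hx (by linarith) (by norm_num) (by norm_num) (by norm_num)
  have e : 1 / 2 * x + 1 / 2 * (x + 1) = x + 1 / 2 := by ring
  rw [e, Real.Gamma_add_one hx.ne', ← Real.sqrt_eq_rpow, ← Real.sqrt_eq_rpow,
    Real.sqrt_mul hx.le] at h
  have h2 := Real.mul_self_sqrt hG.le
  calc Real.Gamma (x + 1 / 2) ≤ Real.sqrt (Real.Gamma x) * (Real.sqrt x * Real.sqrt (Real.Gamma x)) := h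
    _ = Real.sqrt x * (Real.sqrt (Real.Gamma x) * Real.sqrt (Real.Gamma x)) := by ring
    _ = _ := by rw [h2]

theorem le_bet {d : ℕ} (hd : 2 ≤ d) : Real.sqrt (Real.pi / (2 * (d - 1))) ≤ bet d := by
  have h2 : (2 : ℝ) ≤ d := by exact_mod_cast hd
  have hpi := Real.pi_pos
  set x : ℝ := ((d : ℝ) - 1) / 2 with hx
  have hx0 : 0 < x := by rw [hx]; linarith
  have h := gamma_half hx0
  have e : x + 1 / 2 = d / 2 := by rw [hx]; ring
  have hG := Real.Gamma_pos_of_pos hx0
  have hG2 : 0 < Real.Gamma ((d : ℝ) / 2) := Real.Gamma_pos_of_pos (by linarith)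
  rw [e] at h
  have e2 : Real.pi / (2 * (d - 1)) = Real.pi / (4 * x) := by
    rw [hx]; congr 1; ring
  rw [bet, ← hx, le_div_iff₀ (by positivity), e2, Real.sqrt_div hpi.le,
    Real.sqrt_mul (by norm_num)]
  have e4 : Real.sqrt 4 = 2 := by
    rw [show (4 : ℝ) = 2 ^ 2 by norm_num, Real.sqrt_sq (by norm_num)]
  rw [e4]
  have hs := Real.sqrt_pos.2 hx0
  have hsp := Real.sqrt_pos.2 hpi
  calc Real.sqrt Real.pi / (2 * Real.sqrt x) * (2 * Real.Gamma ((d : ℝ) / 2))
      ≤ Real.sqrt Real.pi / (2 * Real.sqrt x) * (2 * (Real.sqrt x * Real.Gamma x)) := by gcongr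
    _ = _ := by field_simp

theorem bet_le {d : ℕ} (hd : 3 ≤ d) : bet d ≤ Real.sqrt (Real.pi / (2 * (d - 2))) := by
  have h2 : (3 : ℝ) ≤ d := by exact_mod_cast hd
  have hpi := Real.pi_pos
  set x : ℝ := ((d : ℝ) - 2) / 2 with hx
  have hx0 : 0 < x := by rw [hx]; linarith
  have h := gamma_half hx0
  have e : x + 1 / 2 = ((d : ℝ) - 1) / 2 := by rw [hx]; ring
  have hG := Real.Gamma_pos_of_pos hx0
  have e1 : (d : ℝ) / 2 = x + 1 := by rw [hx]; ring
  rw [e] at h
  have e2 : Real.pi / (2 * (d - 2)) = Real.pi / (4 * x) := by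
    rw [hx]; congr 1; ring
  have hs := Real.sqrt_pos.2 hx0
  have hsp := Real.sqrt_pos.2 hpi
  have hss := Real.mul_self_sqrt hx0.le
  rw [bet, e1, Real.Gamma_add_one hx0.ne', e2, Real.sqrt_div hpi.le, Real.sqrt_mul (by norm_num)]
  have e4 : Real.sqrt 4 = 2 := by
    rw [show (4 : ℝ) = 2 ^ 2 by norm_num, Real.sqrt_sq (by norm_num)]
  rw [e4, div_le_div_iff₀ (by positivity) (by positivity)]
  calc Real.sqrt Real.pi * Real.Gamma (((d : ℝ) - 1) / 2) * (2 * Real.sqrt x)
      ≤ Real.sqrt Real.pi * (Real.sqrt x * Real.Gamma x) * (2 * Real.sqrt x) := by gcongr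
    _ = Real.sqrt Real.pi * (2 * ((Real.sqrt x * Real.sqrt x) * Real.Gamma x)) := by ring
    _ = _ := by rw [hss]

end Pool.Agent.V5helper78.PK
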