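import Mathlib
import Pool.Agent.H992R2.Gauss

/-!
# Radial integrals of the Gaussian measure of `ℝ³`
-/

set_option autoImplicit false

open MeasureTheory ProbabilityTheory Set Metric
open scoped ENNReal NNReal

namespace Pool.Agent.V5helper78.PK

/-- the standard Gaussian measure of `ℝ³` -/
noncomputable abbrev g3 : Measure (EuclideanSpace ℝ (Fin 3)) :=
  stdGaussian (EuclideanSpace ℝ (Fin 3))

theorem g3_eq : g3 = (volume : Measure (EuclideanSpace ℝ (Fin 3))).withDensity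
    (fun x => ENNReal.ofReal (((Real.sqrt (2 * Real.pi))⁻¹) ^ 3 * Real.exp (-‖x‖ ^ 2 / 2))) := by
  unfold g3
  rw [← map_pi_eq_stdGaussian, Pool.Agent.H992R2.map_toLp_pi_gaussian (Fin 3) one_ne_zero]
  congr 1
  funext x
  unfold Pool.Agent.H992R2.gdens
  simp

theorem lint_radial (h : ℝ → ℝ) (hm : Measurable h) (h0 : ∀ y, 0 ≤ y → 0 ≤ h y)
    (hi : IntegrableOn (fun y : ℝ => y ^ 2 * (h y * Real.exp (-y ^ 2 / 2))) (Ioi 0)) :
    ∫⁻ x, ENNReal.ofReal (h ‖x‖) ∂g3 =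
      ENNReal.ofReal (4 * Real.pi * ((Real.sqrt (2 * Real.pi))⁻¹) ^ 3 *
        ∫ y in Ioi (0 : ℝ), y ^ 2 * (h y * Real.exp (-y ^ 2 / 2))) := by
  set c : ℝ := ((Real.sqrt (2 * Real.pi))⁻¹) ^ 3 with hc
  have hc0 : 0 ≤ c := by positivity
  have hdm : Measurable (fun x : EuclideanSpace ℝ (Fin 3) =>
      ENNReal.ofReal (c * Real.exp (-‖x‖ ^ 2 / 2))) := by fun_prop
  have hhm : Measurable (fun x : EuclideanSpace ℝ (Fin 3) => ENNReal.ofReal (h ‖x‖)) := by
    fun_prop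
  rw [g3_eq, lintegral_withDensity_eq_lintegral_mul _ hdm hhm]
  have e1 : ∀ x : EuclideanSpace ℝ (Fin 3),
      ENNReal.ofReal (c * Real.exp (-‖x‖ ^ 2 / 2)) * ENNReal.ofReal (h ‖x‖) =
      ENNReal.ofReal (c * (h ‖x‖ * Real.exp (-‖x‖ ^ 2 / 2))) := by
    intro x
    rw [← ENNReal.ofReal_mul (by positivity)]
    congr 1
    ring
  simp_rw [Pi.mul_apply, e1]
  have hfr : Module.finrank ℝ (EuclideanSpace ℝ (Fin 3)) = 3 := by simp
  have hint : Integrable (fun x : EuclideanSpace ℝ (Fin 3) =>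
      c * (h ‖x‖ * Real.exp (-‖x‖ ^ 2 / 2))) volume := by
    have := (integrable_fun_norm_addHaar (volume : Measure (EuclideanSpace ℝ (Fin 3)))
      (f := fun y : ℝ => c * (h y * Real.exp (-y ^ 2 / 2)))).2 (by
        rw [hfr]
        have := hi.const_mul c
        refine this.congr ?_
        refine Filter.Eventually.of_forall fun y => ?_
        simp only [smul_eq_mul]
        ring)
    exact this
  rw [← ofReal_integral_eq_lintegral_ofReal hint (Filter.Eventually.of_forall fun x => by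
    have := h0 ‖x‖ (norm_nonneg x)
    positivity)]
  congr 1
  have := integral_fun_norm_addHaar (volume : Measure (EuclideanSpace ℝ (Fin 3)))
    (fun y : ℝ => c * (h y * Real.exp (-y ^ 2 / 2)))
  rw [this, hfr, Measure.real, EuclideanSpace.volume_ball_fin_three]
  simp only [nsmul_eq_mul, smul_eq_mul]
  have e2 : ∀ y : ℝ, y ^ (3 - 1) * (c * (h y * Real.exp (-y ^ 2 / 2))) =
      c * (y ^ 2 * (h y * Real.exp (-y ^ 2 / 2))) := by
    intro y; ring
  simp_rw [e2]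
  rw [integral_const_mul]
  rw [ENNReal.toReal_mul, ENNReal.toReal_pow, ENNReal.toReal_ofReal zero_le_one,
    ENNReal.toReal_ofReal (by positivity)]
  push_cast
  ring

/-- `∫_0^∞ y^n e^{-y²/2} dy` for natural exponents, with the integrability -/
theorem int_pow_exp (n : ℕ) :
    IntegrableOn (fun y : ℝ => y ^ n * Real.exp (-y ^ 2 / 2)) (Ioi 0) ∧
    ∫ y in Ioi (0 : ℝ), y ^ n * Real.exp (-y ^ 2 / 2) =
      (1 / 2 : ℝ) ^ (-((n : ℝ) + 1) / 2) * (1 / 2) * Real.Gamma (((n : ℝ) + 1) / 2) := by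
  have e : ∀ y ∈ Ioi (0 : ℝ), y ^ n * Real.exp (-y ^ 2 / 2) =
      y ^ (n : ℝ) * Real.exp (-(1 / 2) * y ^ (2 : ℝ)) := by
    intro y _
    rw [Real.rpow_natCast, Real.rpow_two]
    congr 2
    ring
  constructor
  · have h1 := integrableOn_rpow_mul_exp_neg_mul_rpow (p := 2) (s := (n : ℝ)) (b := 1 / 2)
      (by have : (0 : ℝ) ≤ n := Nat.cast_nonneg n
          linarith) (by norm_num) (by norm_num)
    exact h1.congr_fun (fun y hy => (e y hy).symm) measurableSet_Ioi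
  · rw [setIntegral_congr_fun measurableSet_Ioi e]
    rw [integral_rpow_mul_exp_neg_mul_rpow (by norm_num) (by
      have : (0 : ℝ) ≤ n := Nat.cast_nonneg n
      linarith) (by norm_num)]

theorem int1 : IntegrableOn (fun y : ℝ => y ^ 1 * Real.exp (-y ^ 2 / 2)) (Ioi 0) ∧
    ∫ y in Ioi (0 : ℝ), y ^ 1 * Real.exp (-y ^ 2 / 2) = 1 := by
  refine ⟨(int_pow_exp 1).1, ?_⟩
  rw [(int_pow_exp 1).2]
  have e1 : (-(((1 : ℕ) : ℝ) + 1) / 2) = ((-1 : ℤ) : ℝ) := by push_cast; ring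
  have e2 : ((((1 : ℕ) : ℝ) + 1) / 2) = 1 := by push_cast; ring
  rw [e1, e2, Real.rpow_intCast, Real.Gamma_one]
  norm_num

theorem int3 : IntegrableOn (fun y : ℝ => y ^ 3 * Real.exp (-y ^ 2 / 2)) (Ioi 0) ∧
    ∫ y in Ioi (0 : ℝ), y ^ 3 * Real.exp (-y ^ 2 / 2) = 2 := by
  refine ⟨(int_pow_exp 3).1, ?_⟩
  rw [(int_pow_exp 3).2]
  have e1 : (-(((3 : ℕ) : ℝ) + 1) / 2) = ((-2 : ℤ) : ℝ) := by push_cast; ring
  have e2 : ((((3 : ℕ) : ℝ) + 1) / 2) = 2 := by push_cast; ring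
  rw [e1, e2, Real.rpow_intCast, Real.Gamma_two]
  norm_num

theorem const_eq : 4 * Real.pi * ((Real.sqrt (2 * Real.pi))⁻¹) ^ 3 = Real.sqrt (2 / Real.pi) := by
  have hpi := Real.pi_pos
  have h1 : Real.sqrt (2 * Real.pi) ^ 2 = 2 * Real.pi := Real.sq_sqrt (by positivity)
  have h2 : 0 < Real.sqrt (2 * Real.pi) := Real.sqrt_pos.2 (by positivity)
  have h3 : Real.sqrt (2 / Real.pi) = 2 / Real.sqrt (2 * Real.pi) := by
    have h4 : 2 / Real.pi = (2 / Real.sqrt (2 * Real.pi)) ^ 2 := by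
      rw [div_pow, h1]
      field_simp
    rw [h4, Real.sqrt_sq (by positivity)]
  rw [h3]
  generalize Real.sqrt (2 * Real.pi) = s at h1 h2
  field_simp
  nlinarith

/-- `E |g| = 2 √(2/π)` in `ℝ³` -/
theorem lint_norm : ∫⁻ x, ENNReal.ofReal ‖x‖ ∂g3 = ENNReal.ofReal (2 * Real.sqrt (2 / Real.pi)) := by
  have e : ∀ y : ℝ, y ^ 2 * (y * Real.exp (-y ^ 2 / 2)) = y ^ 3 * Real.exp (-y ^ 2 / 2) := by
    intro y; ring
  have h := lint_radial (fun y => y) measurable_id (fun y hy => hy) (by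
    simp_rw [e]; exact int3.1)
  simp_rw [e] at h
  rw [h, int3.2, const_eq]
  congr 1; ring

/-- `E 1/|g| = √(2/π)` in `ℝ³` -/
theorem lint_inv_norm :
    ∫⁻ x, ENNReal.ofReal (‖x‖⁻¹) ∂g3 = ENNReal.ofReal (Real.sqrt (2 / Real.pi)) := by
  have e : ∀ y : ℝ, y ^ 2 * (y⁻¹ * Real.exp (-y ^ 2 / 2)) = y ^ 1 * Real.exp (-y ^ 2 / 2) := by
    intro y
    by_cases hy : y = 0
    · simp [hy]
    · field_simp
  have h := lint_radial (fun y => y⁻¹) measurable_inv (fun y hy => inv_nonneg.2 hy) (by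
    simp_rw [e]; exact int1.1)
  simp_rw [e] at h
  rw [h, int1.2, const_eq, mul_one]

/-- the Gaussian measure has no atom at `0` -/
theorem g3_zero : g3 {0} = 0 := by
  rw [g3_eq]
  exact (withDensity_absolutelyContinuous _ _) (by simp)

end Pool.Agent.V5helper78.PK
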