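import Mathlib
import Pool.Agent.V5helper78.PK.GA

/-!
# Gaussian vectors and Gaussian linear maps
-/

set_option autoImplicit false

open MeasureTheory ProbabilityTheory Set Metric
open scoped ENNReal NNReal

namespace Pool.Agent.V5helper78.PK

/-- the mean of `|x|` -/
theorem abs_gauss : ∫ x, |x| ∂(gaussianReal 0 1) = Real.sqrt (2 / Real.pi) := by
  rw [integral_gaussianReal_eq_integral_smul one_ne_zero]
  have e1 : ∀ x : ℝ, gaussianPDFReal 0 1 x • |x| =
      (fun y : ℝ => (Real.sqrt (2 * Real.pi))⁻¹ * (y ^ 1 * Real.exp (-y ^ 2 / 2))) |x| := by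
    intro x
    rw [gaussianPDFReal_def]
    simp only [NNReal.coe_one, mul_one, sub_zero, smul_eq_mul, pow_one, sq_abs]
    ring
  simp_rw [e1]
  rw [integral_comp_abs (f := fun y : ℝ => (Real.sqrt (2 * Real.pi))⁻¹ * (y ^ 1 * Real.exp (-y ^ 2 / 2))),
    integral_const_mul, int1.2, mul_one]
  have hpi := Real.pi_pos
  have h1 : Real.sqrt (2 * Real.pi) ^ 2 = 2 * Real.pi := Real.sq_sqrt (by positivity)
  have h2 : 0 < Real.sqrt (2 * Real.pi) := Real.sqrt_pos.2 (by positivity)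
  have h4 : 2 / Real.pi = (2 * (Real.sqrt (2 * Real.pi))⁻¹) ^ 2 := by
    rw [mul_pow, inv_pow, h1]
    field_simp
  rw [h4, Real.sqrt_sq (by positivity)]

/-- the law of a linear functional of norm one -/
theorem law_inner {d : ℕ} (θ : EuclideanSpace ℝ (Fin d)) (hθ : ‖θ‖ = 1) :
    (stdGaussian (EuclideanSpace ℝ (Fin d))).map (fun x => inner ℝ x θ) = gaussianReal 0 1 := by
  have h := IsGaussian.map_eq_gaussianReal (μ := stdGaussian (EuclideanSpace ℝ (Fin d)))
    (innerSL ℝ θ)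
  rw [integral_strongDual_stdGaussian, variance_dual_stdGaussian, innerSL_apply_norm, hθ] at h
  have e : (fun x : EuclideanSpace ℝ (Fin d) => inner ℝ x θ) = ⇑(innerSL ℝ θ) := by
    funext x
    rw [innerSL_apply_apply, real_inner_comm]
  rw [e, h]
  simp

theorem integrable_norm_std {d : ℕ} :
    Integrable (fun x : EuclideanSpace ℝ (Fin d) => ‖x‖) (stdGaussian (EuclideanSpace ℝ (Fin d))) :=
  (IsGaussian.integrable_id (μ := stdGaussian (EuclideanSpace ℝ (Fin d)))).norm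

/-- the mean of `|⟨x, b⟩|` -/
theorem abs_inner {d : ℕ} (b : EuclideanSpace ℝ (Fin d)) :
    ∫ x, |inner ℝ x b| ∂(stdGaussian (EuclideanSpace ℝ (Fin d))) =
      Real.sqrt (2 / Real.pi) * ‖b‖ := by
  by_cases hb : b = 0
  · subst hb; simp
  have hpos : 0 < ‖b‖ := norm_pos_iff.mpr hb
  set θ : EuclideanSpace ℝ (Fin d) := ‖b‖⁻¹ • b with hθ
  have hθ1 : ‖θ‖ = 1 := by rw [hθ, norm_smul, norm_inv, norm_norm]; field_simp
  have e : ∀ x, |inner ℝ x b| = ‖b‖ * |inner ℝ x θ| := by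
    intro x
    rw [hθ, inner_smul_right, abs_mul, abs_of_pos (inv_pos.2 hpos)]
    field_simp
  simp_rw [e]
  rw [integral_const_mul]
  have h1 : ∫ x, |inner ℝ x θ| ∂(stdGaussian (EuclideanSpace ℝ (Fin d))) =
      ∫ x, |x| ∂(gaussianReal 0 1) := by
    rw [← law_inner θ hθ1, integral_map (by fun_prop) (by fun_prop)]
  rw [h1, abs_gauss]
  ring

/-- the mean of `⟨x, b⟩²` -/
theorem sq_inner {d : ℕ} (b : EuclideanSpace ℝ (Fin d)) :
    ∫ x, (inner ℝ x b) ^ 2 ∂(stdGaussian (EuclideanSpace ℝ (Fin d))) = ‖b‖ ^ 2 := by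
  by_cases hb : b = 0
  · subst hb; simp
  have hpos : 0 < ‖b‖ := norm_pos_iff.mpr hb
  set θ : EuclideanSpace ℝ (Fin d) := ‖b‖⁻¹ • b with hθ
  have hθ1 : ‖θ‖ = 1 := by rw [hθ, norm_smul, norm_inv, norm_norm]; field_simp
  have e : ∀ x, (inner ℝ x b) ^ 2 = ‖b‖ ^ 2 * (inner ℝ x θ) ^ 2 := by
    intro x
    rw [hθ, inner_smul_right]
    field_simp
  simp_rw [e]
  rw [integral_const_mul]
  have h1 : ∫ x, (inner ℝ x θ) ^ 2 ∂(stdGaussian (EuclideanSpace ℝ (Fin d))) =
      ∫ x, x ^ 2 ∂(gaussianReal 0 1) := by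
    rw [← law_inner θ hθ1, integral_map (by fun_prop) (by fun_prop)]
  have h2 : ∫ x, x ^ 2 ∂(gaussianReal 0 1) = 1 := by
    have := variance_id_gaussianReal (μ := 0) (v := 1)
    rw [variance_eq_integral (by fun_prop)] at this
    simp only [id, integral_id_gaussianReal, sub_zero] at this
    simpa using this
  rw [h1, h2, mul_one]

/-! ### Gaussian linear maps `ℝ³ → ℝ^d` -/

/-- the linear map with the columns `c` -/
noncomputable def ap {d : ℕ} (c : Fin 3 → EuclideanSpace ℝ (Fin d)) (x : EuclideanSpace ℝ (Fin 3)) :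
    EuclideanSpace ℝ (Fin d) := ∑ j, x j • c j

/-- the adjoint map -/
noncomputable def tp {d : ℕ} (c : Fin 3 → EuclideanSpace ℝ (Fin d)) (θ : EuclideanSpace ℝ (Fin d)) :
    EuclideanSpace ℝ (Fin 3) := WithLp.toLp 2 (fun j => inner ℝ (c j) θ)

theorem ap_tp {d : ℕ} (c : Fin 3 → EuclideanSpace ℝ (Fin d)) (x : EuclideanSpace ℝ (Fin 3))
    (θ : EuclideanSpace ℝ (Fin d)) : inner ℝ (ap c x) θ = inner ℝ x (tp c θ) := by
  unfold ap tp
  rw [sum_inner, PiLp.inner_apply]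
  refine Finset.sum_congr rfl fun j _ => ?_
  rw [inner_smul_left]
  simp [mul_comm]

/-- the law of the columns -/
noncomputable def gam (d : ℕ) : Measure (Fin 3 → EuclideanSpace ℝ (Fin d)) :=
  Measure.pi (fun _ : Fin 3 => stdGaussian (EuclideanSpace ℝ (Fin d)))

instance (d : ℕ) : IsProbabilityMeasure (gam d) := by unfold gam; infer_instance

theorem measurable_tp {d : ℕ} (θ : EuclideanSpace ℝ (Fin d)) :
    Measurable (fun c : Fin 3 → EuclideanSpace ℝ (Fin d) => tp c θ) := by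
  unfold tp
  fun_prop

theorem law_tp {d : ℕ} (θ : EuclideanSpace ℝ (Fin d)) (hθ : ‖θ‖ = 1) :
    (gam d).map (fun c => tp c θ) = g3 := by
  have h1 : (gam d).map (fun c : Fin 3 → EuclideanSpace ℝ (Fin d) => fun j => inner ℝ (c j) θ) =
      Measure.pi (fun _ : Fin 3 => gaussianReal 0 1) := by
    unfold gam
    rw [← law_inner θ hθ]
    rw [Measure.pi_map_pi (μ := fun _ : Fin 3 => stdGaussian (EuclideanSpace ℝ (Fin d)))
      (f := fun _ : Fin 3 => fun x : EuclideanSpace ℝ (Fin d) => inner ℝ x θ)]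
    intro i
    fun_prop
  have h2 : (fun c : Fin 3 → EuclideanSpace ℝ (Fin d) => tp c θ) =
      (WithLp.toLp 2 : (Fin 3 → ℝ) → EuclideanSpace ℝ (Fin 3)) ∘
        (fun c : Fin 3 → EuclideanSpace ℝ (Fin d) => fun j => inner ℝ (c j) θ) := rfl
  rw [h2, ← Measure.map_map (by fun_prop) (by fun_prop), h1]
  exact map_pi_eq_stdGaussian

end Pool.Agent.V5helper78.PK
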