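import Mathlib
import Pool.Agent.H703R2.LP.Shell
import Pool.Agent.V5helper78.PK.GB
import Pool.Agent.V5helper78.PK.BV

/-!
# Averages over the orthogonal group
-/

set_option autoImplicit false

open MeasureTheory ProbabilityTheory Set Metric
open scoped ENNReal NNReal

namespace Pool.Agent.V5helper78.PK

open Pool.Agent.H703R2.LP (GG act haarG exists_act continuous_act act_inv_mul)

/-- the density of the Gaussian measure -/
theorem gn_eq (n : ℕ) : stdGaussian (EuclideanSpace ℝ (Fin n)) =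
    (volume : Measure (EuclideanSpace ℝ (Fin n))).withDensity
    (fun x => ENNReal.ofReal (((Real.sqrt (2 * Real.pi))⁻¹) ^ n * Real.exp (-‖x‖ ^ 2 / 2))) := by
  rw [← map_pi_eq_stdGaussian, Pool.Agent.H992R2.map_toLp_pi_gaussian (Fin n) one_ne_zero]
  congr 1
  funext x
  unfold Pool.Agent.H992R2.gdens
  simp

theorem gn_zero {n : ℕ} (hn : 1 ≤ n) : stdGaussian (EuclideanSpace ℝ (Fin n)) {0} = 0 := by
  have : Nonempty (Fin n) := ⟨⟨0, hn⟩⟩
  have : Nontrivial (EuclideanSpace ℝ (Fin n)) := inferInstance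
  rw [gn_eq]
  exact (withDensity_absolutelyContinuous _ _) (measure_singleton _)

theorem gn_inv {n : ℕ} (hn : 2 ≤ n) :
    ∫⁻ x, ENNReal.ofReal (‖x‖⁻¹) ∂(stdGaussian (EuclideanSpace ℝ (Fin n))) =
      ENNReal.ofReal (Real.sqrt (2 / Real.pi) * bet n) := by
  have : Nonempty (Fin n) := ⟨⟨0, by omega⟩⟩
  have : Nontrivial (EuclideanSpace ℝ (Fin n)) := inferInstance
  set c : ℝ := ((Real.sqrt (2 * Real.pi))⁻¹) ^ n with hc
  have hc0 : 0 ≤ c := by positivity
  have hdm : Measurable (fun x : EuclideanSpace ℝ (Fin n) =>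
      ENNReal.ofReal (c * Real.exp (-‖x‖ ^ 2 / 2))) := by fun_prop
  have hhm : Measurable (fun x : EuclideanSpace ℝ (Fin n) => ENNReal.ofReal (‖x‖⁻¹)) := by
    fun_prop
  rw [gn_eq, lintegral_withDensity_eq_lintegral_mul _ hdm hhm]
  have e1 : ∀ x : EuclideanSpace ℝ (Fin n),
      ENNReal.ofReal (c * Real.exp (-‖x‖ ^ 2 / 2)) * ENNReal.ofReal (‖x‖⁻¹) =
      ENNReal.ofReal (c * (‖x‖⁻¹ * Real.exp (-‖x‖ ^ 2 / 2))) := by
    intro x
    rw [← ENNReal.ofReal_mul (by positivity)]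
    congr 1
    ring
  simp_rw [Pi.mul_apply, e1]
  have hfr : Module.finrank ℝ (EuclideanSpace ℝ (Fin n)) = n := by simp
  have e2 : ∀ y ∈ Ioi (0 : ℝ), y ^ (n - 1) * (c * (y⁻¹ * Real.exp (-y ^ 2 / 2))) =
      c * (y ^ (n - 2) * Real.exp (-y ^ 2 / 2)) := by
    intro y hy
    have hy0 : y ≠ 0 := (ne_of_gt hy)
    have : y ^ (n - 1) = y ^ (n - 2) * y := by rw [← pow_succ]; congr 1; omega
    rw [this]
    field_simp
  have hint : Integrable (fun x : EuclideanSpace ℝ (Fin n) =>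
      c * (‖x‖⁻¹ * Real.exp (-‖x‖ ^ 2 / 2))) volume := by
    refine (integrable_fun_norm_addHaar (volume : Measure (EuclideanSpace ℝ (Fin n)))
      (f := fun y : ℝ => c * (y⁻¹ * Real.exp (-y ^ 2 / 2)))).2 ?_
    rw [hfr]
    have h1 : IntegrableOn (fun y : ℝ => c * (y ^ (n - 2) * Real.exp (-y ^ 2 / 2))) (Ioi 0) :=
      (int_pow_exp (n - 2)).1.const_mul c
    refine h1.congr_fun (fun y hy => ?_) measurableSet_Ioi
    rw [smul_eq_mul]
    exact (e2 y hy).symm
  rw [← ofReal_integral_eq_lintegral_ofReal hint (Filter.Eventually.of_forall fun x => by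
    positivity)]
  congr 1
  have h := integral_fun_norm_addHaar (volume : Measure (EuclideanSpace ℝ (Fin n)))
    (fun y : ℝ => c * (y⁻¹ * Real.exp (-y ^ 2 / 2)))
  rw [h, hfr]
  simp only [nsmul_eq_mul, smul_eq_mul]
  rw [setIntegral_congr_fun measurableSet_Ioi e2, integral_const_mul, (int_pow_exp (n - 2)).2]
  have hk : (volume : Measure (EuclideanSpace ℝ (Fin n))).real (ball 0 1) = kap n := rfl
  rw [hk, kap_eq (by omega)]
  have hcast : ((n - 2 : ℕ) : ℝ) = (n : ℝ) - 2 := by rw [Nat.cast_sub hn]; norm_num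
  have hnp : (0 : ℝ) < n := by exact_mod_cast (by omega : 0 < n)
  have hG : Real.Gamma ((n : ℝ) / 2 + 1) = n / 2 * Real.Gamma ((n : ℝ) / 2) :=
    Real.Gamma_add_one (by positivity)
  have hG0 : 0 < Real.Gamma ((n : ℝ) / 2) := Real.Gamma_pos_of_pos (by positivity)
  have h2n : (2 : ℝ) ≤ n := by exact_mod_cast hn
  have hpi := Real.pi_pos
  have e3 : (((n - 2 : ℕ) : ℝ) + 1) / 2 = ((n : ℝ) - 1) / 2 := by rw [hcast]; ring
  have e4 : -(((n - 2 : ℕ) : ℝ) + 1) / 2 = -(((n : ℝ) - 1) / 2) := by rw [hcast]; ring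
  rw [e3, e4, hG, bet, hc]
  have hs2 : 0 < Real.sqrt 2 := Real.sqrt_pos.2 (by norm_num)
  have hsp : 0 < Real.sqrt Real.pi := Real.sqrt_pos.2 hpi
  have e5 : (1 / 2 : ℝ) ^ (-(((n : ℝ) - 1) / 2)) = Real.sqrt 2 ^ n / Real.sqrt 2 := by
    rw [one_div, Real.inv_rpow (by norm_num), Real.rpow_neg (by norm_num), inv_inv]
    have : ((n : ℝ) - 1) / 2 = (1 / 2 : ℝ) * n - 1 / 2 := by ring
    rw [this, Real.rpow_sub (by norm_num), Real.rpow_mul (by norm_num), ← Real.sqrt_eq_rpow,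
      Real.rpow_natCast]
  have e6 : Real.sqrt (2 * Real.pi) = Real.sqrt 2 * Real.sqrt Real.pi :=
    Real.sqrt_mul (by norm_num) _
  have e7 : Real.sqrt (2 / Real.pi) = Real.sqrt 2 / Real.sqrt Real.pi :=
    Real.sqrt_div (by norm_num) _
  have e8 : Real.sqrt 2 ^ 2 = 2 := Real.sq_sqrt (by norm_num)
  rw [e5, e6, e7, mul_inv, mul_pow, inv_pow, inv_pow]
  generalize Real.Gamma (((n : ℝ) - 1) / 2) = G
  field_simp
  rw [e8]

/-- averages over the group, compared with Gaussian means -/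
theorem avg_group {n : ℕ} (hn : 1 ≤ n) {F : EuclideanSpace ℝ (Fin n) → ℝ≥0∞} (hF : Measurable F)
    {ψ : ℝ → ℝ≥0∞} (hψ : Measurable ψ) (hom : ∀ t, 0 < t → ∀ x, F (t • x) = ψ t * F x)
    {v : EuclideanSpace ℝ (Fin n)} (hv : ‖v‖ = 1) :
    (∫⁻ g, F (act g⁻¹ v) ∂(haarG n)) * ∫⁻ y, ψ ‖y‖ ∂(stdGaussian (EuclideanSpace ℝ (Fin n))) =
      haarG n univ * ∫⁻ y, F y ∂(stdGaussian (EuclideanSpace ℝ (Fin n))) := by
  have hcont : Continuous fun p : EuclideanSpace ℝ (Fin n) × GG n => act (p.2)⁻¹ p.1 :=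
    continuous_act.comp (continuous_snd.inv.prodMk continuous_fst)
  have hconst : ∀ c : EuclideanSpace ℝ (Fin n), ‖c‖ = 1 →
      ∫⁻ g, F (act g⁻¹ c) ∂(haarG n) = ∫⁻ g, F (act g⁻¹ v) ∂(haarG n) := by
    intro c hc
    obtain ⟨g0, hg0⟩ := exists_act (c := v) (c' := c) (by rw [hv, hc])
    rw [← hg0]
    have e : ∀ g : GG n, F (act g⁻¹ (act g0 v)) = (fun x : GG n => F (act x⁻¹ v)) (g0⁻¹ * g) := by
      intro g
      dsimp only
      rw [act_inv_mul]
    simp_rw [e]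
    exact lintegral_mul_left_eq_self (fun x : GG n => F (act x⁻¹ v)) g0⁻¹
  have hne : ∀ᵐ y ∂(stdGaussian (EuclideanSpace ℝ (Fin n))), y ≠ 0 := by
    rw [ae_iff]
    simp only [ne_eq, not_not, ofPred_eq_eq_singleton]
    exact gn_zero hn
  have h1 : ∀ᵐ y ∂(stdGaussian (EuclideanSpace ℝ (Fin n))),
      (∫⁻ g, F (act g⁻¹ v) ∂(haarG n)) * ψ ‖y‖ = ∫⁻ g, F (act g⁻¹ y) ∂(haarG n) := by
    filter_upwards [hne] with y hy
    have hyn : 0 < ‖y‖ := norm_pos_iff.2 hy
    have hu : ‖‖y‖⁻¹ • y‖ = 1 := by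
      rw [norm_smul, norm_inv, norm_norm]; exact inv_mul_cancel₀ hyn.ne'
    have hy2 : y = ‖y‖ • (‖y‖⁻¹ • y) := by rw [smul_smul, mul_inv_cancel₀ hyn.ne', one_smul]
    have e : ∀ g : GG n, F (act g⁻¹ y) = ψ ‖y‖ * F (act g⁻¹ (‖y‖⁻¹ • y)) := by
      intro g
      conv_lhs => rw [hy2]
      rw [map_smul, hom _ hyn]
    simp_rw [e]
    rw [lintegral_const_mul, hconst _ hu, mul_comm]
    exact hF.comp (hcont.comp (by fun_prop : Continuous fun g : GG n => (‖y‖⁻¹ • y, g))).measurable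
  have hψm : Measurable fun y : EuclideanSpace ℝ (Fin n) => ψ ‖y‖ := hψ.comp measurable_norm
  rw [← lintegral_const_mul _ hψm]
  have hsw : AEMeasurable (Function.uncurry fun (y : EuclideanSpace ℝ (Fin n)) (g : GG n) =>
      F (act g⁻¹ y)) ((stdGaussian (EuclideanSpace ℝ (Fin n))).prod (haarG n)) :=
    (hF.comp hcont.measurable).aemeasurable
  rw [lintegral_congr_ae h1, lintegral_lintegral_swap hsw]
  have h2 : ∀ g : GG n, ∫⁻ y, F (act g⁻¹ y) ∂(stdGaussian (EuclideanSpace ℝ (Fin n))) =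
      ∫⁻ y, F y ∂(stdGaussian (EuclideanSpace ℝ (Fin n))) := by
    intro g
    have h3 := stdGaussian_map (act g⁻¹)
    conv_rhs => rw [← h3]
    rw [lintegral_map hF (act g⁻¹).continuous.measurable]
  simp_rw [h2]
  rw [lintegral_const, mul_comm]

/-- coordinates with respect to an orthonormal family -/
noncomputable def pj {n m : ℕ} (b : Fin m → EuclideanSpace ℝ (Fin n))
    (x : EuclideanSpace ℝ (Fin n)) : EuclideanSpace ℝ (Fin m) :=
  WithLp.toLp 2 (fun i => inner ℝ (b i) x)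

theorem continuous_pj {n m : ℕ} (b : Fin m → EuclideanSpace ℝ (Fin n)) : Continuous (pj b) := by
  unfold pj; fun_prop

theorem law_pj {n m : ℕ} {b : Fin m → EuclideanSpace ℝ (Fin n)} (hb : Orthonormal ℝ b) :
    (stdGaussian (EuclideanSpace ℝ (Fin n))).map (pj b) = stdGaussian (EuclideanSpace ℝ (Fin m)) := by
  apply Measure.ext_of_charFun
  ext t
  rw [charFun_stdGaussian, charFun_apply, integral_map (continuous_pj b).measurable.aemeasurable
    (by fun_prop)]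
  have e : ∀ x : EuclideanSpace ℝ (Fin n), (inner ℝ (pj b x) t : ℝ) =
      inner ℝ x (∑ i, t i • b i) := by
    intro x
    rw [inner_sum, PiLp.inner_apply]
    refine Finset.sum_congr rfl fun i _ => ?_
    rw [inner_smul_right, pj]
    simp only [RCLike.inner_apply, conj_trivial]
    rw [real_inner_comm]
  simp_rw [e]
  rw [← charFun_apply, charFun_stdGaussian]
  have hnorm : ‖∑ i, t i • b i‖ ^ 2 = ‖t‖ ^ 2 := by
    rw [← real_inner_self_eq_norm_sq, hb.inner_sum, EuclideanSpace.norm_sq_eq]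
    refine Finset.sum_congr rfl fun i _ => ?_
    rw [Real.norm_eq_abs, sq_abs, conj_trivial, sq]
  have hn2 : ‖∑ i, t i • b i‖ = ‖t‖ := by
    have := congrArg Real.sqrt hnorm
    rwa [Real.sqrt_sq (norm_nonneg _), Real.sqrt_sq (norm_nonneg _)] at this
  rw [hn2]

/-- the mean of the inverse length of the projection of a rotated vector -/
theorem avg_inv {n m : ℕ} (hm : 2 ≤ m) (hn : 2 ≤ n) {b : Fin m → EuclideanSpace ℝ (Fin n)}
    (hb : Orthonormal ℝ b) {v : EuclideanSpace ℝ (Fin n)} (hv : ‖v‖ = 1) :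
    ∫⁻ g, (ENNReal.ofReal ‖pj b (act g⁻¹ v)‖)⁻¹ ∂(haarG n) =
      haarG n univ * ENNReal.ofReal (bet m / bet n) := by
  have hpi := Real.pi_pos
  have hs : 0 < Real.sqrt (2 / Real.pi) := Real.sqrt_pos.2 (by positivity)
  have hbm := bet_pos hm
  have hbn := bet_pos hn
  have hFm : Measurable fun x : EuclideanSpace ℝ (Fin n) => (ENNReal.ofReal ‖pj b x‖)⁻¹ :=
    ((continuous_pj b).measurable.norm.ennreal_ofReal).inv
  have h := avg_group (n := n) (by omega) (F := fun x => (ENNReal.ofReal ‖pj b x‖)⁻¹) hFm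
    (ψ := fun t => (ENNReal.ofReal t)⁻¹) (by fun_prop) (fun t ht x => by
      have e : pj b (t • x) = t • pj b x := by
        ext i
        simp [pj, inner_smul_right]
      rw [e, norm_smul, Real.norm_eq_abs, abs_of_pos ht, ENNReal.ofReal_mul ht.le,
        ENNReal.mul_inv (Or.inl (ENNReal.ofReal_pos.2 ht).ne') (Or.inl ENNReal.ofReal_ne_top)]) hv
  have hinv : ∀ {k : ℕ}, 2 ≤ k → ∫⁻ y, (ENNReal.ofReal ‖y‖)⁻¹ ∂(stdGaussian (EuclideanSpace ℝ (Fin k))) =
      ENNReal.ofReal (Real.sqrt (2 / Real.pi) * bet k) := by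
    intro k hk
    rw [← gn_inv hk]
    refine lintegral_congr_ae ?_
    have hne : ∀ᵐ y ∂(stdGaussian (EuclideanSpace ℝ (Fin k))), y ≠ 0 := by
      rw [ae_iff]
      simp only [ne_eq, not_not, ofPred_eq_eq_singleton]
      exact gn_zero (by omega)
    filter_upwards [hne] with y hy
    rw [ENNReal.ofReal_inv_of_pos (norm_pos_iff.2 hy)]
  have h2 : ∫⁻ y, (ENNReal.ofReal ‖pj b y‖)⁻¹ ∂(stdGaussian (EuclideanSpace ℝ (Fin n))) =
      ENNReal.ofReal (Real.sqrt (2 / Real.pi) * bet m) := by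
    rw [← hinv hm, ← law_pj hb, lintegral_map (by fun_prop) (continuous_pj b).measurable]
  rw [hinv hn, h2] at h
  have h0 : ENNReal.ofReal (Real.sqrt (2 / Real.pi) * bet n) ≠ 0 :=
    (ENNReal.ofReal_pos.2 (by positivity)).ne'
  have h3 : (haarG n univ * ENNReal.ofReal (bet m / bet n)) *
      ENNReal.ofReal (Real.sqrt (2 / Real.pi) * bet n) =
      haarG n univ * ENNReal.ofReal (Real.sqrt (2 / Real.pi) * bet m) := by
    rw [mul_assoc, ← ENNReal.ofReal_mul (by positivity)]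
    congr 2
    field_simp
  rw [← h3] at h
  exact (ENNReal.mul_left_inj h0 ENNReal.ofReal_ne_top).1 h

theorem bet_two : bet 2 = Real.pi / 2 := by
  have h1 : (((2 : ℕ) : ℝ) - 1) / 2 = 1 / 2 := by norm_num
  have h2 : ((2 : ℕ) : ℝ) / 2 = 1 := by norm_num
  rw [bet, h1, h2, Real.Gamma_one, Real.Gamma_one_half_eq, Real.mul_self_sqrt Real.pi_pos.le,
    mul_one]

end Pool.Agent.V5helper78.PK
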