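import Mathlib
import Pool.Agent.V5helper78.PK.BV

/-!
# Flat bodies
-/

set_option autoImplicit false

open MeasureTheory Metric Set Filter Topology

namespace Pool.Agent.V5helper78.PK

open Pool.Agent.Helper934.PlankDefs Pool.Agent.Helper934.PlankSupp Pool.Agent.Helper934.PlankMain
  Pool.Agent.Helper934.PlankCore

variable {d : ℕ}

/-- the bound `μ(P) ≤ width(P)` for all planks -/
def PB (μ : Measure (EuclideanSpace ℝ (Fin d))) : Prop :=
  ∀ (θ : EuclideanSpace ℝ (Fin d)) (a b : ℝ), ‖θ‖ = 1 → a ≤ b →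
    μ (plank θ a b) ≤ ENNReal.ofReal (b - a)

/-- planks given by normals of arbitrary length -/
theorem PB.slab {μ : Measure (EuclideanSpace ℝ (Fin d))} (h : PB μ)
    {τ : EuclideanSpace ℝ (Fin d)} (hτ : 0 < ‖τ‖) {a b : ℝ} (hab : a ≤ b) :
    μ {x | a ≤ inner ℝ x τ ∧ inner ℝ x τ ≤ b} ≤ ENNReal.ofReal ((b - a) / ‖τ‖) := by
  have hu : ‖‖τ‖⁻¹ • τ‖ = 1 := by
    rw [norm_smul, norm_inv, norm_norm]; exact inv_mul_cancel₀ hτ.ne'
  have h1 := h (‖τ‖⁻¹ • τ) (a / ‖τ‖) (b / ‖τ‖) hu (div_le_div_of_nonneg_right hab hτ.le)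
  have e : plank (‖τ‖⁻¹ • τ) (a / ‖τ‖) (b / ‖τ‖) = {x | a ≤ inner ℝ x τ ∧ inner ℝ x τ ≤ b} := by
    ext x
    simp only [plank, mem_ofPred_eq, inner_smul_right]
    rw [inv_mul_eq_div, div_le_div_iff_of_pos_right hτ, div_le_div_iff_of_pos_right hτ]
  rw [e, ← sub_div] at h1
  exact h1

theorem inv_convex {p a : ℝ} (hp0 : 0 ≤ p) (hp1 : p ≤ 1) (ha : 0 < a) :
    1 / Real.sqrt (1 - p + p * a ^ 2) ≤ (1 - p) + p / a := by
  set y := Real.sqrt (1 - p + p * a ^ 2) with hy
  have h0 : 0 ≤ 1 - p := by linarith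
  have hL : 0 < (1 - p) + p * a := by
    rcases hp0.lt_or_eq with h | h
    · have := mul_pos h ha; linarith
    · rw [← h]; norm_num
  have h1 : (1 - p) + p * a ≤ y := by
    rw [hy]
    refine Real.le_sqrt_of_sq_le ?_
    nlinarith [mul_nonneg (mul_nonneg hp0 h0) (sq_nonneg (a - 1))]
  have hy0 : 0 < y := hL.trans_le h1
  have h3 : 0 ≤ (1 - p) + p / a := add_nonneg h0 (div_nonneg hp0 ha.le)
  rw [div_le_iff₀ hy0]
  have h2 : 1 ≤ ((1 - p) + p / a) * ((1 - p) + p * a) := by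
    have e : ((1 - p) + p / a) * ((1 - p) + p * a) = 1 + p * (1 - p) * (a - 1) ^ 2 / a := by
      field_simp
      ring
    rw [e]
    have : 0 ≤ p * (1 - p) * (a - 1) ^ 2 / a := by positivity
    linarith
  exact h2.trans (mul_le_mul_of_nonneg_left h1 h3)

/-- the length of the projection of a pair to `v` -/
noncomputable def qlen (v : EuclideanSpace ℝ (Fin d))
    (p : EuclideanSpace ℝ (Fin d) × EuclideanSpace ℝ (Fin d)) : ℝ :=
  Real.sqrt ((inner ℝ p.1 v) ^ 2 + (inner ℝ p.2 v) ^ 2)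

theorem measurable_qlen (v : EuclideanSpace ℝ (Fin d)) : Measurable (qlen v) := by
  unfold qlen; fun_prop

theorem tail_int {c : ℝ} (hc : 0 < c) :
    ∫⁻ y in Ioi c, ENNReal.ofReal ((2 / y) ^ 2) = ENNReal.ofReal (4 / c) := by
  have hi : IntegrableOn (fun t : ℝ => t ^ (-2 : ℝ)) (Ioi c) :=
    integrableOn_Ioi_rpow_of_lt (by norm_num) hc
  have h1 : ∫⁻ y in Ioi c, ENNReal.ofReal ((2 / y) ^ 2) =
      ∫⁻ y in Ioi c, ENNReal.ofReal (4 * y ^ (-2 : ℝ)) := by
    refine setLIntegral_congr_fun measurableSet_Ioi fun y hy => ?_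
    have hy0 : 0 < y := hc.trans hy
    congr 1
    rw [Real.rpow_neg hy0.le, div_pow]
    norm_num [div_eq_mul_inv]
  rw [h1, ← ofReal_integral_eq_lintegral_ofReal (hi.const_mul 4)]
  · rw [integral_const_mul, integral_Ioi_rpow_of_lt (by norm_num) hc]
    congr 1
    have : (-2 : ℝ) + 1 = -1 := by norm_num
    rw [this, Real.rpow_neg_one]
    field_simp
  · filter_upwards [ae_restrict_mem measurableSet_Ioi] with y hy
    have hy0 : 0 < y := hc.trans hy
    positivity

/-- the mean of the inverse length -/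
theorem lint_inv_qlen {γ : Measure (EuclideanSpace ℝ (Fin d))} [IsFiniteMeasure γ] (h : PB γ) {M : ℝ}
    (hM : 0 < M) (hγ : γ univ = ENNReal.ofReal M) {v : EuclideanSpace ℝ (Fin d)} (hv : ‖v‖ = 1) :
    ∫⁻ p, ENNReal.ofReal (1 / qlen v p) ∂(γ.prod γ) ≤ ENNReal.ofReal (4 * M) := by
  have hmeas : Measurable fun p => 1 / qlen v p := measurable_const.div (measurable_qlen v)
  rw [lintegral_eq_lintegral_meas_le (γ.prod γ) (f := fun p => 1 / qlen v p)
    (Eventually.of_forall fun p => div_nonneg zero_le_one (Real.sqrt_nonneg _))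
    hmeas.aemeasurable]
  have hslab : ∀ y : ℝ, 0 < y → (γ.prod γ) {p | y ≤ 1 / qlen v p} ≤
      min (ENNReal.ofReal (M ^ 2)) (ENNReal.ofReal ((2 / y) ^ 2)) := by
    intro y hy
    refine le_min ?_ ?_
    · refine (measure_mono (subset_univ _)).trans (le_of_eq ?_)
      rw [← univ_prod_univ, Measure.prod_prod, hγ, ← ENNReal.ofReal_mul hM.le, sq]
    · have hsub : {p : EuclideanSpace ℝ (Fin d) × EuclideanSpace ℝ (Fin d) | y ≤ 1 / qlen v p} ⊆
          plank v (-(1 / y)) (1 / y) ×ˢ plank v (-(1 / y)) (1 / y) := by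
        rintro ⟨ξ, η⟩ hp
        have hp' : y ≤ 1 / qlen v (ξ, η) := hp
        have hq0 : 0 < qlen v (ξ, η) := by
          have hq00 : 0 ≤ qlen v (ξ, η) := Real.sqrt_nonneg _
          rcases hq00.lt_or_eq with h | h
          · exact h
          · rw [← h, div_zero] at hp'; linarith
        have hq : qlen v (ξ, η) ≤ 1 / y := by
          rw [le_div_iff₀ hq0] at hp'
          rw [le_div_iff₀ hy]; linarith
        have h1 : |(inner ℝ ξ v : ℝ)| ≤ qlen v (ξ, η) := by
          refine Real.abs_le_sqrt ?_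
          have := sq_nonneg (inner ℝ η v : ℝ)
          dsimp only
          linarith
        have h2 : |(inner ℝ η v : ℝ)| ≤ qlen v (ξ, η) := by
          refine Real.abs_le_sqrt ?_
          have := sq_nonneg (inner ℝ ξ v : ℝ)
          dsimp only
          linarith
        exact ⟨abs_le.1 (h1.trans hq), abs_le.1 (h2.trans hq)⟩
      refine (measure_mono hsub).trans ?_
      have hy1 : 0 < 1 / y := by positivity
      have h1 := h v (-(1 / y)) (1 / y) hv (by linarith)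
      rw [Measure.prod_prod, sq, ENNReal.ofReal_mul (by positivity)]
      have e : 1 / y - -(1 / y) = 2 / y := by ring
      rw [e] at h1
      exact mul_le_mul' h1 h1
  have hy0 : 0 < 2 / M := by positivity
  calc ∫⁻ y in Ioi 0, (γ.prod γ) {p | y ≤ 1 / qlen v p}
      ≤ ∫⁻ y in Ioi 0, min (ENNReal.ofReal (M ^ 2)) (ENNReal.ofReal ((2 / y) ^ 2)) :=
        setLIntegral_mono' measurableSet_Ioi fun y hy => hslab y hy
    _ ≤ (∫⁻ y in Ioc 0 (2 / M), min (ENNReal.ofReal (M ^ 2)) (ENNReal.ofReal ((2 / y) ^ 2))) +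
        ∫⁻ y in Ioi (2 / M), min (ENNReal.ofReal (M ^ 2)) (ENNReal.ofReal ((2 / y) ^ 2)) := by
        rw [← Ioc_union_Ioi_eq_Ioi hy0.le]
        exact lintegral_union_le _ _ _
    _ ≤ (∫⁻ _ in Ioc 0 (2 / M), ENNReal.ofReal (M ^ 2)) +
        ∫⁻ y in Ioi (2 / M), ENNReal.ofReal ((2 / y) ^ 2) :=
        add_le_add (lintegral_mono fun y => min_le_left _ _) (lintegral_mono fun y => min_le_right _ _)
    _ = ENNReal.ofReal (4 * M) := by
        rw [setLIntegral_const, Real.volume_Ioc, tail_int hy0, ← ENNReal.ofReal_mul (by positivity),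
          ← ENNReal.ofReal_add (by positivity) (by positivity)]
        congr 1
        field_simp
        ring

theorem ae_qlen {γ : Measure (EuclideanSpace ℝ (Fin d))} [IsFiniteMeasure γ] (h : PB γ)
    {v : EuclideanSpace ℝ (Fin d)} (hv : ‖v‖ = 1) : ∀ᵐ p ∂(γ.prod γ), 0 < qlen v p := by
  rw [ae_iff]
  refine measure_mono_null (t := plank v 0 0 ×ˢ univ) ?_ ?_
  · rintro ⟨ξ, η⟩ hp
    have hp' : ¬ 0 < qlen v (ξ, η) := hp
    have h1 : |(inner ℝ ξ v : ℝ)| ≤ qlen v (ξ, η) := by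
      refine Real.abs_le_sqrt ?_
      have := sq_nonneg (inner ℝ η v : ℝ)
      dsimp only
      linarith
    have h2 : |(inner ℝ ξ v : ℝ)| ≤ 0 := h1.trans (not_lt.1 hp')
    have h3 := abs_le.1 h2
    exact ⟨⟨by linarith [h3.1], h3.2⟩, mem_univ _⟩
  · rw [Measure.prod_prod]
    have h1 := h v 0 0 hv le_rfl
    rw [sub_zero, ENNReal.ofReal_zero, nonpos_iff_eq_zero] at h1
    rw [h1, zero_mul]

end Pool.Agent.V5helper78.PK
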