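import Mathlib
import Pool.Agent.V5helper78.PK.FL

/-!
# Flat bodies: the measure
-/

set_option autoImplicit false

open MeasureTheory Metric Set Filter Topology

namespace Pool.Agent.V5helper78.PK

open Pool.Agent.Helper934.PlankDefs Pool.Agent.Helper934.PlankSupp Pool.Agent.Helper934.PlankMain
  Pool.Agent.Helper934.PlankCore

variable {d : ℕ}

/-- the projection orthogonal to `u` -/
noncomputable def pr (u ξ : EuclideanSpace ℝ (Fin d)) : EuclideanSpace ℝ (Fin d) :=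
  ξ - (inner ℝ ξ u : ℝ) • u

theorem inner_pr (u ξ θ : EuclideanSpace ℝ (Fin d)) :
    (inner ℝ (pr u ξ) θ : ℝ) = inner ℝ ξ (pr u θ) := by
  unfold pr
  rw [inner_sub_left, inner_sub_right, inner_smul_left, inner_smul_right, conj_trivial,
    real_inner_comm u θ]
  ring

theorem inner_pr_self {u : EuclideanSpace ℝ (Fin d)} (hu : ‖u‖ = 1) (ξ : EuclideanSpace ℝ (Fin d)) :
    (inner ℝ (pr u ξ) u : ℝ) = 0 := by
  unfold pr
  rw [inner_sub_left, inner_smul_left, real_inner_self_eq_norm_sq, hu, conj_trivial]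
  ring

theorem norm_pr_sq {u : EuclideanSpace ℝ (Fin d)} (hu : ‖u‖ = 1) (ξ : EuclideanSpace ℝ (Fin d)) :
    ‖pr u ξ‖ ^ 2 = ‖ξ‖ ^ 2 - (inner ℝ ξ u) ^ 2 := by
  unfold pr
  rw [norm_sub_sq_real, inner_smul_right, norm_smul, hu, mul_one, Real.norm_eq_abs, sq_abs]
  ring

theorem norm_pr_le {u : EuclideanSpace ℝ (Fin d)} (hu : ‖u‖ = 1) (ξ : EuclideanSpace ℝ (Fin d)) :
    ‖pr u ξ‖ ≤ ‖ξ‖ := by
  have h := norm_pr_sq hu ξ
  refine le_of_sq_le_sq ?_ (norm_nonneg _)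
  nlinarith [sq_nonneg (inner ℝ ξ u : ℝ)]

/-- the map which carries the product measure to the flat spheroid -/
noncomputable def FF (c u : EuclideanSpace ℝ (Fin d)) (h r : ℝ)
    (p : EuclideanSpace ℝ (Fin 3) × (EuclideanSpace ℝ (Fin d) × EuclideanSpace ℝ (Fin d))) :
    EuclideanSpace ℝ (Fin d) :=
  c + h • (p.1 0 • u + r • (p.1 1 • pr u p.2.1 + p.1 2 • pr u p.2.2))

theorem measurable_FF (c u : EuclideanSpace ℝ (Fin d)) (h r : ℝ) : Measurable (FF c u h r) := by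
  refine Continuous.measurable ?_
  unfold FF pr
  fun_prop

/-- the pull back of a linear form -/
noncomputable def tau (u θ : EuclideanSpace ℝ (Fin d)) (r : ℝ)
    (q : EuclideanSpace ℝ (Fin d) × EuclideanSpace ℝ (Fin d)) : EuclideanSpace ℝ (Fin 3) :=
  !₂[inner ℝ u θ, r * inner ℝ q.1 (pr u θ), r * inner ℝ q.2 (pr u θ)]

theorem inner_FF (c u θ : EuclideanSpace ℝ (Fin d)) (h r : ℝ)
    (p : EuclideanSpace ℝ (Fin 3) × (EuclideanSpace ℝ (Fin d) × EuclideanSpace ℝ (Fin d))) :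
    (inner ℝ (FF c u h r p) θ : ℝ) = inner ℝ c θ + h * inner ℝ p.1 (tau u θ r p.2) := by
  have e : (inner ℝ p.1 (tau u θ r p.2) : ℝ) = p.1 0 * inner ℝ u θ +
      r * (p.1 1 * inner ℝ p.2.1 (pr u θ) + p.1 2 * inner ℝ p.2.2 (pr u θ)) := by
    rw [PiLp.inner_apply, Fin.sum_univ_three]
    simp only [tau, RCLike.inner_apply]
    simp
    ring
  rw [e]
  unfold FF
  rw [inner_add_left, inner_smul_left, inner_add_left, inner_smul_left, inner_smul_left,
    inner_add_left, inner_smul_left, inner_smul_left, inner_pr, inner_pr]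
  simp only [conj_trivial]

theorem norm_tau_sq (u θ : EuclideanSpace ℝ (Fin d)) (r : ℝ)
    (q : EuclideanSpace ℝ (Fin d) × EuclideanSpace ℝ (Fin d)) :
    ‖tau u θ r q‖ ^ 2 = (inner ℝ u θ) ^ 2 +
      r ^ 2 * ((inner ℝ q.1 (pr u θ)) ^ 2 + (inner ℝ q.2 (pr u θ)) ^ 2) := by
  rw [EuclideanSpace.norm_sq_eq, Fin.sum_univ_three]
  simp only [tau, Real.norm_eq_abs, sq_abs]
  simp
  ring

theorem bet_three : bet 3 = 1 := by
  have h1 : (((3 : ℕ) : ℝ) - 1) / 2 = 1 := by norm_num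
  have h2 : ((3 : ℕ) : ℝ) / 2 = 1 / 2 + 1 := by norm_num
  have h3 : 0 < Real.sqrt Real.pi := Real.sqrt_pos.2 Real.pi_pos
  rw [bet, h1, h2, Real.Gamma_one, Real.Gamma_add_one (by norm_num), Real.Gamma_one_half_eq]
  field_simp

theorem two_le_width (hd : 1 ≤ d) : 2 ≤ minWidth (closedBall (0 : EuclideanSpace ℝ (Fin d)) 1) := by
  have hb := body_closedBall (0 : EuclideanSpace ℝ (Fin d)) one_pos
  rw [symm_width hd hb 0 (symm_ball 0 1)]
  have : (1 : ℝ) ≤ inradius (closedBall (0 : EuclideanSpace ℝ (Fin d)) 1) :=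
    le_csSup (bddAbove_radii hd hb.1) ⟨zero_le_one, 0, Subset.rfl⟩
  linarith

theorem exists_unit_smul (hd : 1 ≤ d) (x : EuclideanSpace ℝ (Fin d)) :
    ∃ v : EuclideanSpace ℝ (Fin d), ‖v‖ = 1 ∧ x = ‖x‖ • v := by
  obtain ⟨e, he⟩ := exists_unit hd
  by_cases h0 : x = 0
  · exact ⟨e, he, by rw [h0, norm_zero, zero_smul]⟩
  · have hp := norm_pos_iff.2 h0
    refine ⟨‖x‖⁻¹ • x, ?_, ?_⟩
    · rw [norm_smul, norm_inv, norm_norm]; exact inv_mul_cancel₀ hp.ne'
    · rw [smul_smul, mul_inv_cancel₀ hp.ne', one_smul]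

/-- the plank bound for the measure on the spheroid -/
theorem flat_PB (hd : 1 ≤ d) {μ : Measure (EuclideanSpace ℝ (Fin 3))} [IsFiniteMeasure μ]
    (hμ : PB μ) {γ : Measure (EuclideanSpace ℝ (Fin d))} [IsFiniteMeasure γ] (hγ : PB γ)
    {M : ℝ} (hM : 0 < M) (hγM : γ univ = ENNReal.ofReal M) (c : EuclideanSpace ℝ (Fin d))
    {u : EuclideanSpace ℝ (Fin d)} (hu : ‖u‖ = 1) {h : ℝ} (hh : 0 < h) :
    PB (ENNReal.ofReal (h / M ^ 2) • (μ.prod (γ.prod γ)).map (FF c u h (4 / M))) := by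
  intro θ a b hθ hab
  set r : ℝ := 4 / M with hr
  have hr0 : 0 < r := by positivity
  obtain ⟨v, hv, hpv⟩ := exists_unit_smul hd (pr u θ)
  set S : ℝ := ‖pr u θ‖ with hS
  have hS0 : 0 ≤ S := norm_nonneg _
  have hCS : (inner ℝ u θ : ℝ) ^ 2 = 1 - S ^ 2 := by
    have := norm_pr_sq hu θ
    rw [← hS, hθ, real_inner_comm] at this
    linarith
  have hp1 : S ^ 2 ≤ 1 := by have := sq_nonneg (inner ℝ u θ : ℝ); linarith
  -- the inverse norm of `tau`
  have htau : ∀ᵐ q ∂(γ.prod γ), 0 < ‖tau u θ r q‖ ∧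
      1 / ‖tau u θ r q‖ ≤ (1 - S ^ 2) + S ^ 2 / r * (1 / qlen v q) := by
    filter_upwards [ae_qlen hγ hv] with q hq
    have e : ‖tau u θ r q‖ ^ 2 = 1 - S ^ 2 + S ^ 2 * (r * qlen v q) ^ 2 := by
      rw [norm_tau_sq, hCS, mul_pow, qlen, Real.sq_sqrt (by positivity)]
      have e1 : (inner ℝ q.1 (pr u θ) : ℝ) = S * inner ℝ q.1 v := by
        conv_lhs => rw [hpv]
        rw [inner_smul_right]
      have e2 : (inner ℝ q.2 (pr u θ) : ℝ) = S * inner ℝ q.2 v := by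
        conv_lhs => rw [hpv]
        rw [inner_smul_right]
      rw [e1, e2]; ring
    have e2 : ‖tau u θ r q‖ = Real.sqrt (1 - S ^ 2 + S ^ 2 * (r * qlen v q) ^ 2) := by
      rw [← e, Real.sqrt_sq (norm_nonneg _)]
    have ha : 0 < r * qlen v q := mul_pos hr0 hq
    have h1 := inv_convex (p := S ^ 2) (a := r * qlen v q) (sq_nonneg S) hp1 ha
    have hpos : 0 < 1 - S ^ 2 + S ^ 2 * (r * qlen v q) ^ 2 := by
      rcases hp1.lt_or_eq with h | h
      · have : 0 ≤ S ^ 2 * (r * qlen v q) ^ 2 := by positivity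
        linarith
      · rw [h]; nlinarith [sq_pos_of_pos ha]
    refine ⟨by rw [e2]; exact Real.sqrt_pos.2 hpos, ?_⟩
    rw [e2]
    refine h1.trans (le_of_eq ?_)
    congr 1
    rw [div_mul_div_comm, mul_one]
  have hF := measurable_FF c u h r
  rw [Measure.smul_apply, smul_eq_mul, Measure.map_apply hF (measurableSet_plank θ a b),
    Measure.prod_apply_symm (hF (measurableSet_plank θ a b))]
  have h1 : ∫⁻ q, μ ((fun ω => (ω, q)) ⁻¹' (FF c u h r ⁻¹' plank θ a b)) ∂(γ.prod γ) ≤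
      ∫⁻ q, ENNReal.ofReal ((b - a) / h) * (ENNReal.ofReal (1 - S ^ 2) +
        ENNReal.ofReal (S ^ 2 / r) * ENNReal.ofReal (1 / qlen v q)) ∂(γ.prod γ) := by
    refine lintegral_mono_ae ?_
    filter_upwards [htau] with q hq
    have hsl := hμ.slab hq.1 (a := (a - inner ℝ c θ) / h) (b := (b - inner ℝ c θ) / h)
      (div_le_div_of_nonneg_right (by linarith) hh.le)
    have e : (fun ω => (ω, q)) ⁻¹' (FF c u h r ⁻¹' plank θ a b) =
        {ω | (a - inner ℝ c θ) / h ≤ inner ℝ ω (tau u θ r q) ∧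
          inner ℝ ω (tau u θ r q) ≤ (b - inner ℝ c θ) / h} := by
      ext ω
      simp only [plank, mem_preimage, mem_ofPred_eq, inner_FF]
      rw [div_le_iff₀' hh, le_div_iff₀' hh]
      constructor
      · rintro ⟨h1, h2⟩; constructor <;> linarith
      · rintro ⟨h1, h2⟩; constructor <;> linarith
    rw [e]
    refine hsl.trans ?_
    have hqn : 0 ≤ 1 / qlen v q := div_nonneg zero_le_one (Real.sqrt_nonneg _)
    rw [← ENNReal.ofReal_mul (by positivity), ← ENNReal.ofReal_add (by linarith)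
      (mul_nonneg (by positivity) hqn),
      ← ENNReal.ofReal_mul (div_nonneg (by linarith) hh.le)]
    refine ENNReal.ofReal_le_ofReal ?_
    have e3 : ((b - inner ℝ c θ) / h - (a - inner ℝ c θ) / h) / ‖tau u θ r q‖ =
        (b - a) / h * (1 / ‖tau u θ r q‖) := by
      rw [← sub_div]; ring
    rw [e3]
    exact mul_le_mul_of_nonneg_left hq.2 (div_nonneg (by linarith) hh.le)
  have hmq : Measurable fun q => ENNReal.ofReal (1 / qlen v q) :=
    (measurable_const.div (measurable_qlen v)).ennreal_ofReal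
  have h2 : ∫⁻ q, ENNReal.ofReal ((b - a) / h) * (ENNReal.ofReal (1 - S ^ 2) +
        ENNReal.ofReal (S ^ 2 / r) * ENNReal.ofReal (1 / qlen v q)) ∂(γ.prod γ) ≤
      ENNReal.ofReal ((b - a) / h * M ^ 2) := by
    rw [lintegral_const_mul _ (by fun_prop), lintegral_add_left measurable_const,
      lintegral_const, lintegral_const_mul _ hmq, ← univ_prod_univ, Measure.prod_prod, hγM,
      ← ENNReal.ofReal_mul hM.le]
    have h3 := lint_inv_qlen hγ hM hγM hv
    calc ENNReal.ofReal ((b - a) / h) * (ENNReal.ofReal (1 - S ^ 2) * ENNReal.ofReal (M * M) +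
          ENNReal.ofReal (S ^ 2 / r) * ∫⁻ q, ENNReal.ofReal (1 / qlen v q) ∂(γ.prod γ))
        ≤ ENNReal.ofReal ((b - a) / h) * (ENNReal.ofReal (1 - S ^ 2) * ENNReal.ofReal (M * M) +
          ENNReal.ofReal (S ^ 2 / r) * ENNReal.ofReal (4 * M)) := by gcongr
      _ = ENNReal.ofReal ((b - a) / h * M ^ 2) := by
          rw [← ENNReal.ofReal_mul (by linarith), ← ENNReal.ofReal_mul (by positivity),
            ← ENNReal.ofReal_add (mul_nonneg (by linarith) (by positivity)) (by positivity),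
            ← ENNReal.ofReal_mul (div_nonneg (by linarith) hh.le)]
          congr 2
          rw [hr]
          field_simp
          ring
  calc ENNReal.ofReal (h / M ^ 2) * _ ≤ ENNReal.ofReal (h / M ^ 2) *
        ENNReal.ofReal ((b - a) / h * M ^ 2) := mul_le_mul_right (h1.trans h2) _
    _ = ENNReal.ofReal (b - a) := by
        rw [← ENNReal.ofReal_mul (by positivity)]
        congr 1
        field_simp

/-- the spheroid with one short half-axis `h` in the direction `u` and the others `R h` -/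
def spheroid (c u : EuclideanSpace ℝ (Fin d)) (h R : ℝ) : Set (EuclideanSpace ℝ (Fin d)) :=
  {x | (inner ℝ (x - c) u) ^ 2 + (‖x - c‖ ^ 2 - (inner ℝ (x - c) u) ^ 2) / R ^ 2 ≤ h ^ 2}

theorem FF_mem {c u : EuclideanSpace ℝ (Fin d)} (hu : ‖u‖ = 1) {h r R : ℝ} (hR : 0 < R)
    (hrR : 2 * r ^ 2 ≤ R ^ 2) {ω : EuclideanSpace ℝ (Fin 3)} (hω : ‖ω‖ ≤ 1)
    {ξ η : EuclideanSpace ℝ (Fin d)} (hξ : ‖ξ‖ ≤ 1) (hη : ‖η‖ ≤ 1) :
    FF c u h r (ω, (ξ, η)) ∈ spheroid c u h R := by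
  set z := ω 1 • pr u ξ + ω 2 • pr u η with hz
  have hzu : (inner ℝ z u : ℝ) = 0 := by
    rw [hz, inner_add_left, inner_smul_left, inner_smul_left, inner_pr_self hu, inner_pr_self hu]
    simp
  have e1 : FF c u h r (ω, (ξ, η)) - c = h • (ω 0 • u + r • z) := by
    unfold FF
    rw [add_sub_cancel_left]
  have e2 : (inner ℝ (FF c u h r (ω, (ξ, η)) - c) u : ℝ) = h * ω 0 := by
    rw [e1, inner_smul_left, inner_add_left, inner_smul_left, inner_smul_left, hzu,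
      real_inner_self_eq_norm_sq, hu]
    simp
  have huz : (inner ℝ u z : ℝ) = 0 := by rw [real_inner_comm]; exact hzu
  have e3 : ‖FF c u h r (ω, (ξ, η)) - c‖ ^ 2 = h ^ 2 * ((ω 0) ^ 2 + r ^ 2 * ‖z‖ ^ 2) := by
    rw [e1, norm_smul, mul_pow, Real.norm_eq_abs, sq_abs, norm_add_sq_real, inner_smul_left,
      inner_smul_right, huz, norm_smul, norm_smul, hu, mul_pow, mul_pow, Real.norm_eq_abs,
      Real.norm_eq_abs, sq_abs, sq_abs]
    ring
  have hzn : ‖z‖ ^ 2 ≤ 2 * ((ω 1) ^ 2 + (ω 2) ^ 2) := by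
    have h1 : ‖z‖ ≤ |ω 1| + |ω 2| := by
      rw [hz]
      refine (norm_add_le _ _).trans ?_
      rw [norm_smul, norm_smul, Real.norm_eq_abs, Real.norm_eq_abs]
      have h2 := (norm_pr_le hu ξ).trans hξ
      have h3 := (norm_pr_le hu η).trans hη
      nlinarith [abs_nonneg (ω 1), abs_nonneg (ω 2)]
    have h2 : ‖z‖ ^ 2 ≤ (|ω 1| + |ω 2|) ^ 2 := pow_le_pow_left₀ (norm_nonneg _) h1 2
    have h3 : |ω 1| ^ 2 = (ω 1) ^ 2 := sq_abs _
    have h4 : |ω 2| ^ 2 = (ω 2) ^ 2 := sq_abs _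
    nlinarith [sq_nonneg (|ω 1| - |ω 2|)]
  have hωn : (ω 0) ^ 2 + (ω 1) ^ 2 + (ω 2) ^ 2 ≤ 1 := by
    have h1 : ‖ω‖ ^ 2 ≤ 1 := pow_le_one₀ (norm_nonneg _) hω
    rw [EuclideanSpace.norm_sq_eq, Fin.sum_univ_three] at h1
    simpa only [Real.norm_eq_abs, sq_abs] using h1
  change (inner ℝ (FF c u h r (ω, (ξ, η)) - c) u : ℝ) ^ 2 +
    (‖FF c u h r (ω, (ξ, η)) - c‖ ^ 2 - (inner ℝ (FF c u h r (ω, (ξ, η)) - c) u : ℝ) ^ 2) / R ^ 2 ≤ h ^ 2
  rw [e2, e3]
  have hR2 : 0 < R ^ 2 := by positivity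
  have e4 : h ^ 2 * ((ω 0) ^ 2 + r ^ 2 * ‖z‖ ^ 2) - (h * ω 0) ^ 2 = h ^ 2 * (r ^ 2 * ‖z‖ ^ 2) := by
    ring
  rw [e4]
  have h5 : r ^ 2 * ‖z‖ ^ 2 ≤ R ^ 2 * ((ω 1) ^ 2 + (ω 2) ^ 2) := by
    calc r ^ 2 * ‖z‖ ^ 2 ≤ r ^ 2 * (2 * ((ω 1) ^ 2 + (ω 2) ^ 2)) :=
          mul_le_mul_of_nonneg_left hzn (sq_nonneg r)
      _ = (2 * r ^ 2) * ((ω 1) ^ 2 + (ω 2) ^ 2) := by ring
      _ ≤ _ := mul_le_mul_of_nonneg_right hrR (by positivity)
  have h6 : h ^ 2 * (r ^ 2 * ‖z‖ ^ 2) / R ^ 2 ≤ h ^ 2 * ((ω 1) ^ 2 + (ω 2) ^ 2) := by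
    rw [div_le_iff₀ hR2]
    calc h ^ 2 * (r ^ 2 * ‖z‖ ^ 2) ≤ h ^ 2 * (R ^ 2 * ((ω 1) ^ 2 + (ω 2) ^ 2)) :=
          mul_le_mul_of_nonneg_left h5 (sq_nonneg h)
      _ = _ := by ring
  calc (h * ω 0) ^ 2 + h ^ 2 * (r ^ 2 * ‖z‖ ^ 2) / R ^ 2
      ≤ (h * ω 0) ^ 2 + h ^ 2 * ((ω 1) ^ 2 + (ω 2) ^ 2) := by linarith
    _ = h ^ 2 * ((ω 0) ^ 2 + (ω 1) ^ 2 + (ω 2) ^ 2) := by ring
    _ ≤ h ^ 2 * 1 := mul_le_mul_of_nonneg_left hωn (sq_nonneg h)
    _ = h ^ 2 := mul_one _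

theorem flat_mass (hd : 3 ≤ d) {K : Set (EuclideanSpace ℝ (Fin d))} (hb : IsConvexBody K)
    {c u : EuclideanSpace ℝ (Fin d)} (hu : ‖u‖ = 1) {h R : ℝ} (hh : 0 < h) (hR : 0 < R)
    (hRd : 16 * ((d : ℝ) - 1) / Real.pi ≤ R ^ 2) (hK : spheroid c u h R ⊆ K) :
    2 * h ≤ limConst K * minWidth K := by
  have hd1 : 1 ≤ d := by omega
  have hd3 : (3 : ℝ) ≤ d := by exact_mod_cast hd
  have hpi := Real.pi_pos
  obtain ⟨μ, hμ, -, hμp, hμm⟩ := exists_measure (d := 3) (by norm_num)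
    (body_closedBall (0 : EuclideanSpace ℝ (Fin 3)) one_pos)
  rw [limConst_ball le_rfl 0 one_pos, bet_three, one_mul] at hμm
  obtain ⟨γ, hγ, hγ0, hγp, hγm⟩ := exists_measure hd1
    (body_closedBall (0 : EuclideanSpace ℝ (Fin d)) one_pos)
  rw [limConst_ball hd 0 one_pos] at hγm
  set M : ℝ := bet d * minWidth (closedBall (0 : EuclideanSpace ℝ (Fin d)) 1) with hMdef
  have hβ := bet_pos (d := d) (by omega)
  have hw2 := two_le_width (d := d) hd1
  have hM : 0 < M := mul_pos hβ (by linarith)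
  have hγB : γ (closedBall 0 1) = ENNReal.ofReal M := by
    rw [← hγm, ENNReal.ofReal_toReal (measure_ne_top _ _)]
  have hγM : γ univ = ENNReal.ofReal M := by
    rw [← hγB, ← measure_add_measure_compl measurableSet_closedBall, hγ0, add_zero]
  have hM2 : 2 * Real.pi / (d - 1) ≤ M ^ 2 := by
    have h1 := le_bet (d := d) (by omega)
    have h2 : Real.sqrt (Real.pi / (2 * (d - 1))) * 2 ≤ M := by
      rw [hMdef]
      exact mul_le_mul h1 hw2 (by norm_num) hβ.le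
    have h3 : (Real.sqrt (Real.pi / (2 * (d - 1))) * 2) ^ 2 ≤ M ^ 2 :=
      pow_le_pow_left₀ (by positivity) h2 2
    rw [mul_pow, Real.sq_sqrt (div_nonneg hpi.le (by linarith))] at h3
    refine le_trans (le_of_eq ?_) h3
    have : (d : ℝ) - 1 ≠ 0 := by linarith
    field_simp
  have hrR : 2 * (4 / M) ^ 2 ≤ R ^ 2 := by
    refine le_trans ?_ hRd
    have hd0 : 0 < (d : ℝ) - 1 := by linarith
    rw [div_pow, ← mul_div_assoc, div_le_div_iff₀ (by positivity) hpi]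
    rw [div_le_iff₀ hd0] at hM2
    nlinarith
  set ν : Measure (EuclideanSpace ℝ (Fin d)) :=
    ENNReal.ofReal (h / M ^ 2) • (μ.prod (γ.prod γ)).map (FF c u h (4 / M)) with hν
  have hPB : PB ν := flat_PB hd1 hμp hγp hM hγM c hu hh
  have hcov := measure_le_cover hd1 hb hPB
  have hmass : ENNReal.ofReal (2 * h) ≤ ν K := by
    rw [hν, Measure.smul_apply, smul_eq_mul,
      Measure.map_apply (measurable_FF c u h (4 / M)) hb.1.measurableSet]
    have hsub : closedBall (0 : EuclideanSpace ℝ (Fin 3)) 1 ×ˢ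
        (closedBall (0 : EuclideanSpace ℝ (Fin d)) 1 ×ˢ closedBall (0 : EuclideanSpace ℝ (Fin d)) 1) ⊆
        FF c u h (4 / M) ⁻¹' K := by
      rintro ⟨ω, ξ, η⟩ ⟨h1, h2, h3⟩
      rw [mem_closedBall, dist_zero_right] at h1 h2 h3
      exact hK (FF_mem hu hR hrR h1 h2 h3)
    have h1 := measure_mono (μ := μ.prod (γ.prod γ)) hsub
    rw [Measure.prod_prod, Measure.prod_prod, hγB] at h1
    have hμB : ENNReal.ofReal 2 ≤ μ (closedBall 0 1) := by
      rw [← ENNReal.ofReal_toReal (measure_ne_top μ (closedBall 0 1)), hμm]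
      exact ENNReal.ofReal_le_ofReal (two_le_width (by norm_num))
    calc ENNReal.ofReal (2 * h) = ENNReal.ofReal (h / M ^ 2) *
          (ENNReal.ofReal 2 * (ENNReal.ofReal M * ENNReal.ofReal M)) := by
          rw [← ENNReal.ofReal_mul hM.le, ← ENNReal.ofReal_mul (by norm_num),
            ← ENNReal.ofReal_mul (by positivity)]
          congr 1
          field_simp
      _ ≤ ENNReal.ofReal (h / M ^ 2) *
          (μ (closedBall 0 1) * (ENNReal.ofReal M * ENNReal.ofReal M)) := by gcongr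
      _ ≤ _ := mul_le_mul_right h1 _
  have h2 := hmass.trans hcov
  rwa [ENNReal.ofReal_le_ofReal_iff (mul_nonneg (limConst_nonneg hd1 hb) (minWidth_pos hd1 hb).le)] at h2

/-- flat bodies -/
theorem flat_coverConst (hd : 3 ≤ d) {K : Set (EuclideanSpace ℝ (Fin d))} (hb : IsConvexBody K)
    {c u : EuclideanSpace ℝ (Fin d)} (hu : ‖u‖ = 1) {h R : ℝ} (hh : 0 < h) (hR : 0 < R)
    (hRd : 16 * ((d : ℝ) - 1) / Real.pi ≤ R ^ 2) (hK : spheroid c u h R ⊆ K)
    (hK2 : K ⊆ {x | |(inner ℝ (x - c) u : ℝ)| ≤ h}) (k : ℕ) : coverConst K k = k := by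
  have hd1 : 1 ≤ d := by omega
  have hw := minWidth_pos hd1 hb
  have hne : K.Nonempty := hb.2.2.mono interior_subset
  have h1 := flat_mass hd hb hu hh hR hRd hK
  have h2 : minWidth K ≤ 2 * h := by
    have h3 := minWidth_le hb.1 hne u hu
    rw [widthIn_eq hb.1 hne] at h3
    have h4 : supp K u ≤ inner ℝ c u + h := supp_le hne fun x hx => by
      have := hK2 hx
      simp only [mem_ofPred_eq] at this
      rw [inner_sub_left] at this
      linarith [(abs_le.1 this).2]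
    have h5 : supp K (-u) ≤ -inner ℝ c u + h := supp_le hne fun x hx => by
      have := hK2 hx
      simp only [mem_ofPred_eq] at this
      rw [inner_sub_left] at this
      rw [inner_neg_right]
      linarith [(abs_le.1 this).1]
    linarith
  have h6 : 1 ≤ limConst K := by
    have : 1 * minWidth K ≤ limConst K * minWidth K := by linarith
    exact le_of_mul_le_mul_right this hw
  refine le_antisymm (coverConst_le_self hd1 hb k) ?_
  refine le_trans ?_ (limConst_mul_le hd1 hb k)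
  have : (0 : ℝ) ≤ k := Nat.cast_nonneg k
  nlinarith

end Pool.Agent.V5helper78.PK
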