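import Mathlib
import Pool.Agent.V5helper78.PK.FM

/-!
# The values of the limit for symmetric bodies
-/

set_option autoImplicit false

open MeasureTheory Metric Set Filter Topology

namespace Pool.Agent.V5helper78.PK

open Pool.Agent.Helper934.PlankDefs Pool.Agent.Helper934.PlankSupp Pool.Agent.Helper934.PlankMain
  Pool.Agent.Helper934.PlankCore

variable {d : ℕ}

/-- the largest mass of a measure on `K` with `μ(P) ≤ width(P)` -/
noncomputable def mm (K : Set (EuclideanSpace ℝ (Fin d))) : ℝ := limConst K * minWidth K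

theorem mm_nonneg (hd : 1 ≤ d) {K : Set (EuclideanSpace ℝ (Fin d))} (hb : IsConvexBody K) :
    0 ≤ mm K := mul_nonneg (limConst_nonneg hd hb) (minWidth_pos hd hb).le

/-- comparison of the masses -/
theorem mm_le_scale (hd : 1 ≤ d) {K K' : Set (EuclideanSpace ℝ (Fin d))} (hb : IsConvexBody K)
    (hb' : IsConvexBody K') {t : ℝ} (ht : 0 < t) (h : ∀ x ∈ K', t⁻¹ • x ∈ K) :
    mm K' ≤ t * mm K := by
  obtain ⟨μ, hμ, -, hp, hm⟩ := exists_measure hd hb'
  have hmeas : Measurable fun x : EuclideanSpace ℝ (Fin d) => t⁻¹ • x := by fun_prop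
  have hPB : PB (ENNReal.ofReal t⁻¹ • μ.map fun x => t⁻¹ • x) := by
    intro θ a b hθ hab
    rw [Measure.smul_apply, smul_eq_mul, Measure.map_apply hmeas (measurableSet_plank θ a b)]
    have e : (fun x : EuclideanSpace ℝ (Fin d) => t⁻¹ • x) ⁻¹' plank θ a b =
        plank θ (t * a) (t * b) := by
      ext x
      simp only [plank, mem_preimage, mem_ofPred_eq, inner_smul_left, conj_trivial]
      rw [inv_mul_eq_div, le_div_iff₀' ht, div_le_iff₀' ht]
    rw [e]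
    have h1 := hp θ (t * a) (t * b) hθ (mul_le_mul_of_nonneg_left hab ht.le)
    calc ENNReal.ofReal t⁻¹ * μ (plank θ (t * a) (t * b))
        ≤ ENNReal.ofReal t⁻¹ * ENNReal.ofReal (t * b - t * a) := mul_le_mul_right h1 _
      _ = ENNReal.ofReal (b - a) := by
        rw [← ENNReal.ofReal_mul (inv_nonneg.2 ht.le)]
        congr 1
        field_simp
  have h1 := measure_le_cover hd hb hPB
  rw [Measure.smul_apply, smul_eq_mul, Measure.map_apply hmeas hb.1.measurableSet] at h1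
  have h2 : μ K' ≤ μ ((fun x => t⁻¹ • x) ⁻¹' K) := measure_mono fun x hx => h x hx
  have h3 : ENNReal.ofReal (t⁻¹ * mm K') ≤ ENNReal.ofReal (mm K) := by
    calc ENNReal.ofReal (t⁻¹ * mm K') = ENNReal.ofReal t⁻¹ * μ K' := by
          rw [ENNReal.ofReal_mul (inv_nonneg.2 ht.le), mm, ← hm,
            ENNReal.ofReal_toReal (measure_ne_top _ _)]
      _ ≤ ENNReal.ofReal t⁻¹ * μ ((fun x => t⁻¹ • x) ⁻¹' K) := mul_le_mul_right h2 _
      _ ≤ _ := h1
  rw [ENNReal.ofReal_le_ofReal_iff (mm_nonneg hd hb), inv_mul_eq_div, div_le_iff₀' ht] at h3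
  exact h3

theorem mm_mono (hd : 1 ≤ d) {K K' : Set (EuclideanSpace ℝ (Fin d))} (hb : IsConvexBody K)
    (hb' : IsConvexBody K') (h : K' ⊆ K) : mm K' ≤ mm K := by
  have := mm_le_scale hd hb hb' one_pos (fun x hx => by
    rw [inv_one, one_smul]; exact h hx)
  rwa [one_mul] at this

theorem mem_spheroid {u x : EuclideanSpace ℝ (Fin d)} {h R : ℝ} :
    x ∈ spheroid 0 u h R ↔ (inner ℝ x u) ^ 2 + (‖x‖ ^ 2 - (inner ℝ x u) ^ 2) / R ^ 2 ≤ h ^ 2 := by
  unfold spheroid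
  rw [mem_ofPred_eq, sub_zero]

theorem inner_sq_le {u : EuclideanSpace ℝ (Fin d)} (hu : ‖u‖ = 1) (x : EuclideanSpace ℝ (Fin d)) :
    (inner ℝ x u : ℝ) ^ 2 ≤ ‖x‖ ^ 2 := by
  have := abs_real_inner_le_norm x u
  rw [hu, mul_one] at this
  rw [← sq_abs]
  exact pow_le_pow_left₀ (abs_nonneg _) this 2

/-- the linear map which carries the spheroid to the ball -/
noncomputable def AA (u : EuclideanSpace ℝ (Fin d)) (R : ℝ) :
    EuclideanSpace ℝ (Fin d) →ₗ[ℝ] EuclideanSpace ℝ (Fin d) where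
  toFun x := (inner ℝ x u : ℝ) • u + R⁻¹ • pr u x
  map_add' x y := by
    simp only [pr, inner_add_left, add_smul, smul_sub, smul_add]
    abel
  map_smul' c x := by
    simp only [pr, inner_smul_left, conj_trivial, RingHom.id_apply, smul_sub, smul_add, smul_smul]
    rw [mul_comm c R⁻¹, mul_left_comm]

theorem norm_AA_sq {u : EuclideanSpace ℝ (Fin d)} (hu : ‖u‖ = 1) (R : ℝ)
    (x : EuclideanSpace ℝ (Fin d)) :
    ‖AA u R x‖ ^ 2 = (inner ℝ x u) ^ 2 + (‖x‖ ^ 2 - (inner ℝ x u) ^ 2) / R ^ 2 := by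
  change ‖(inner ℝ x u : ℝ) • u + R⁻¹ • pr u x‖ ^ 2 = _
  have h0 : (inner ℝ u (pr u x) : ℝ) = 0 := by rw [real_inner_comm]; exact inner_pr_self hu x
  rw [norm_add_sq_real, inner_smul_left, inner_smul_right, h0, norm_smul, norm_smul, hu, mul_pow,
    mul_pow, norm_pr_sq hu, Real.norm_eq_abs, Real.norm_eq_abs, sq_abs, sq_abs, inv_pow]
  ring

theorem spheroid_eq {u : EuclideanSpace ℝ (Fin d)} (hu : ‖u‖ = 1) {h : ℝ} (hh : 0 ≤ h) (R : ℝ) :
    spheroid 0 u h R = AA u R ⁻¹' closedBall 0 h := by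
  ext x
  rw [mem_spheroid, mem_preimage, mem_closedBall, dist_zero_right, ← norm_AA_sq hu,
    pow_le_pow_iff_left₀ (norm_nonneg _) hh two_ne_zero]

theorem norm_le_of_spheroid {u : EuclideanSpace ℝ (Fin d)} (hu : ‖u‖ = 1) {R : ℝ} (hR : 1 ≤ R)
    {x : EuclideanSpace ℝ (Fin d)} (hx : x ∈ spheroid 0 u 1 R) : ‖x‖ ≤ R := by
  rw [mem_spheroid, one_pow] at hx
  have hR2 : 1 ≤ R ^ 2 := one_le_pow₀ hR
  have h1 := inner_sq_le hu x
  have h2 : ‖x‖ ^ 2 ≤ R ^ 2 := by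
    have h3 := mul_le_mul_of_nonneg_right hx (by positivity : (0 : ℝ) ≤ R ^ 2)
    rw [add_mul, div_mul_cancel₀ _ (by positivity)] at h3
    nlinarith [sq_nonneg (inner ℝ x u : ℝ)]
  exact le_of_sq_le_sq h2 (by linarith)

theorem ball_sub_spheroid {u : EuclideanSpace ℝ (Fin d)} (hu : ‖u‖ = 1) {R : ℝ} (hR : 1 ≤ R) :
    closedBall (0 : EuclideanSpace ℝ (Fin d)) 1 ⊆ spheroid 0 u 1 R := by
  intro x hx
  rw [mem_closedBall, dist_zero_right] at hx
  rw [mem_spheroid, one_pow]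
  have hR2 : 1 ≤ R ^ 2 := one_le_pow₀ hR
  have h1 := inner_sq_le hu x
  have h2 : ‖x‖ ^ 2 ≤ 1 := pow_le_one₀ (norm_nonneg _) hx
  have h5 : (‖x‖ ^ 2 - (inner ℝ x u : ℝ) ^ 2) / R ^ 2 ≤ ‖x‖ ^ 2 - (inner ℝ x u : ℝ) ^ 2 :=
    div_le_self (by linarith) hR2
  linarith

theorem body_spheroid {u : EuclideanSpace ℝ (Fin d)} (hu : ‖u‖ = 1) {R : ℝ} (hR : 1 ≤ R) :
    IsConvexBody (spheroid 0 u 1 R) := by
  refine ⟨?_, ?_, 0, ?_⟩
  · refine Metric.isCompact_of_isClosed_isBounded ?_ ?_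
    · rw [spheroid_eq hu zero_le_one]
      exact isClosed_closedBall.preimage (AA u R).continuous_of_finiteDimensional
    · rw [isBounded_iff_forall_norm_le]
      exact ⟨R, fun x hx => norm_le_of_spheroid hu hR hx⟩
  · rw [spheroid_eq hu zero_le_one]
    exact (convex_closedBall _ _).linear_preimage _
  · rw [mem_interior]
    exact ⟨ball 0 1, ball_subset_closedBall.trans (ball_sub_spheroid hu hR), isOpen_ball,
      mem_ball_self one_pos⟩

theorem spheroid_slab {u : EuclideanSpace ℝ (Fin d)} (hu : ‖u‖ = 1) (R : ℝ) :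
    spheroid 0 u 1 R ⊆ {x | |(inner ℝ (x - 0) u : ℝ)| ≤ 1} := by
  intro x hx
  rw [mem_spheroid, one_pow] at hx
  have h1 := inner_sq_le hu x
  have h2 : 0 ≤ (‖x‖ ^ 2 - (inner ℝ x u : ℝ) ^ 2) / R ^ 2 :=
    div_nonneg (by linarith) (sq_nonneg _)
  have h3 : (inner ℝ x u : ℝ) ^ 2 ≤ 1 := by linarith
  rw [mem_ofPred_eq, sub_zero]
  exact (sq_le_one_iff_abs_le_one _).1 h3

theorem spheroid_one {u : EuclideanSpace ℝ (Fin d)} :
    spheroid 0 u 1 1 = closedBall (0 : EuclideanSpace ℝ (Fin d)) 1 := by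
  ext x
  rw [mem_spheroid, mem_closedBall, dist_zero_right]
  have e : (inner ℝ x u : ℝ) ^ 2 + (‖x‖ ^ 2 - (inner ℝ x u : ℝ) ^ 2) / 1 ^ 2 = ‖x‖ ^ 2 := by ring
  rw [e, pow_le_pow_iff_left₀ (norm_nonneg _) zero_le_one two_ne_zero]

theorem symm_spheroid {u : EuclideanSpace ℝ (Fin d)} (R : ℝ) :
    ∀ x ∈ spheroid 0 u 1 R, (2 : ℝ) • (0 : EuclideanSpace ℝ (Fin d)) - x ∈ spheroid 0 u 1 R := by
  intro x hx
  rw [mem_spheroid] at hx ⊢
  rw [smul_zero, zero_sub, norm_neg, inner_neg_left, neg_sq]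
  exact hx

theorem width_spheroid (hd : 1 ≤ d) {u : EuclideanSpace ℝ (Fin d)} (hu : ‖u‖ = 1) {R : ℝ}
    (hR : 1 ≤ R) : minWidth (spheroid 0 u 1 R) = 2 := by
  have hb := body_spheroid hu hR
  have hne : (spheroid 0 u 1 R).Nonempty := hb.2.2.mono interior_subset
  apply le_antisymm
  · have h3 := minWidth_le hb.1 hne u hu
    rw [widthIn_eq hb.1 hne] at h3
    have h4 : supp (spheroid 0 u 1 R) u ≤ 1 := supp_le hne fun x hx => by
      have := spheroid_slab hu R hx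
      rw [mem_ofPred_eq, sub_zero] at this
      exact (abs_le.1 this).2
    have h5 : supp (spheroid 0 u 1 R) (-u) ≤ 1 := supp_le hne fun x hx => by
      have := spheroid_slab hu R hx
      rw [mem_ofPred_eq, sub_zero] at this
      rw [inner_neg_right]
      linarith [(abs_le.1 this).1]
    linarith
  · rw [symm_width hd hb 0 (symm_spheroid R)]
    have : (1 : ℝ) ≤ inradius (spheroid 0 u 1 R) :=
      le_csSup (bddAbove_radii hd hb.1) ⟨zero_le_one, 0, ball_sub_spheroid hu hR⟩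
    linarith

theorem spheroid_mono {u : EuclideanSpace ℝ (Fin d)} (hu : ‖u‖ = 1) {R R' : ℝ} (hR : 1 ≤ R)
    (h : R ≤ R') : spheroid 0 u 1 R ⊆ spheroid 0 u 1 R' := by
  intro x hx
  rw [mem_spheroid] at hx ⊢
  have h1 := inner_sq_le hu x
  have h2 : R ^ 2 ≤ R' ^ 2 := pow_le_pow_left₀ (by linarith) h 2
  have hR0 : 0 < R := by linarith
  have h3 : (‖x‖ ^ 2 - (inner ℝ x u : ℝ) ^ 2) / R' ^ 2 ≤
      (‖x‖ ^ 2 - (inner ℝ x u : ℝ) ^ 2) / R ^ 2 :=
    div_le_div_of_nonneg_left (by linarith) (pow_pos hR0 2) h2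
  linarith

theorem spheroid_scale {u : EuclideanSpace ℝ (Fin d)} (hu : ‖u‖ = 1) {R R' : ℝ} (hR : 1 ≤ R)
    (h : R ≤ R') : ∀ x ∈ spheroid 0 u 1 R', (R' / R)⁻¹ • x ∈ spheroid 0 u 1 R := by
  intro x hx
  have hR0 : 0 < R := by linarith
  have hR'0 : 0 < R' := by linarith
  rw [mem_spheroid] at hx ⊢
  have h1 := inner_sq_le hu x
  rw [inner_smul_left, conj_trivial, norm_smul, Real.norm_eq_abs, mul_pow, mul_pow, sq_abs,
    inv_div, div_pow]
  have e : R ^ 2 / R' ^ 2 * (inner ℝ x u : ℝ) ^ 2 +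
      (R ^ 2 / R' ^ 2 * ‖x‖ ^ 2 - R ^ 2 / R' ^ 2 * (inner ℝ x u : ℝ) ^ 2) / R ^ 2 =
      R ^ 2 / R' ^ 2 * (inner ℝ x u : ℝ) ^ 2 + (‖x‖ ^ 2 - (inner ℝ x u : ℝ) ^ 2) / R' ^ 2 := by
    field_simp
  rw [e]
  have h2 : R ^ 2 / R' ^ 2 ≤ 1 := by
    rw [div_le_one (by positivity)]
    exact pow_le_pow_left₀ hR0.le h 2
  have h3 : R ^ 2 / R' ^ 2 * (inner ℝ x u : ℝ) ^ 2 ≤ 1 * (inner ℝ x u : ℝ) ^ 2 :=
    mul_le_mul_of_nonneg_right h2 (sq_nonneg _)
  linarith

theorem mm_le_two (hd : 1 ≤ d) {u : EuclideanSpace ℝ (Fin d)} (hu : ‖u‖ = 1) {R : ℝ}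
    (hR : 1 ≤ R) : mm (spheroid 0 u 1 R) ≤ 2 := by
  have hb := body_spheroid hu hR
  have h1 := limConst_le_radius hd hb
  have hw := minWidth_pos hd hb
  rw [← symm_width hd hb 0 (symm_spheroid R), div_self hw.ne'] at h1
  rw [mm, width_spheroid hd hu hR]
  linarith

theorem continuousOn_mm (hd : 1 ≤ d) {u : EuclideanSpace ℝ (Fin d)} (hu : ‖u‖ = 1) :
    ContinuousOn (fun R : ℝ => mm (spheroid 0 u 1 R)) (Ici 1) := by
  have key : ∀ R R' : ℝ, 1 ≤ R → R ≤ R' →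
      |mm (spheroid 0 u 1 R') - mm (spheroid 0 u 1 R)| ≤ 2 * (R' - R) := by
    intro R R' hR hRR
    have hb := body_spheroid hu hR
    have hb' := body_spheroid hu (hR.trans hRR)
    have h1 := mm_mono hd hb' hb (spheroid_mono hu hR hRR)
    have hR0 : 0 < R := by linarith
    have hR'0 : 0 < R' := by linarith
    have h2 := mm_le_scale hd hb hb' (div_pos hR'0 hR0) (spheroid_scale hu hR hRR)
    have h3 := mm_le_two hd hu hR
    have h4 : mm (spheroid 0 u 1 R') - mm (spheroid 0 u 1 R) ≤ 2 * (R' - R) := by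
      have e : R' / R * mm (spheroid 0 u 1 R) - mm (spheroid 0 u 1 R) =
          (R' - R) / R * mm (spheroid 0 u 1 R) := by field_simp
      have h5 : (R' - R) / R ≤ R' - R := div_le_self (by linarith) hR
      have h6 : (R' - R) / R * mm (spheroid 0 u 1 R) ≤ (R' - R) * 2 :=
        mul_le_mul h5 h3 (mm_nonneg hd hb) (by linarith)
      linarith
    rw [abs_of_nonneg (by linarith)]
    exact h4
  have hlip : LipschitzOnWith 2 (fun R : ℝ => mm (spheroid 0 u 1 R)) (Ici 1) := by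
    refine LipschitzOnWith.of_dist_le_mul fun R hR R' hR' => ?_
    rw [Real.dist_eq, Real.dist_eq]
    rcases le_total R R' with h | h
    · rw [abs_sub_comm, abs_sub_comm R, abs_of_nonneg (sub_nonneg.2 h)]
      exact key R R' hR h
    · rw [abs_of_nonneg (sub_nonneg.2 h)]
      exact key R' R hR' h
  exact hlip.continuousOn

/-- every value between the one of the ball and 1 occurs -/
theorem exists_value (hd : 3 ≤ d) {l : ℝ} (h1 : bet d ≤ l) (h2 : l ≤ 1) :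
    ∃ (u : EuclideanSpace ℝ (Fin d)) (R : ℝ), ‖u‖ = 1 ∧ 1 ≤ R ∧
      limConst (spheroid 0 u 1 R) = l := by
  have hd1 : 1 ≤ d := by omega
  have hd3 : (3 : ℝ) ≤ d := by exact_mod_cast hd
  obtain ⟨u, hu⟩ := exists_unit hd1
  have hpi := Real.pi_pos
  set R₁ : ℝ := 16 * ((d : ℝ) - 1) / Real.pi + 1 with hR₁
  have hq : 0 ≤ 16 * ((d : ℝ) - 1) / Real.pi := div_nonneg (by linarith) hpi.le
  have hR1 : 1 ≤ R₁ := by linarith
  have hR2 : 16 * ((d : ℝ) - 1) / Real.pi ≤ R₁ ^ 2 := by nlinarith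
  have hm1 : mm (spheroid 0 u 1 1) = 2 * bet d := by
    rw [mm, width_spheroid hd1 hu le_rfl, spheroid_one, limConst_ball hd 0 one_pos]
    ring
  have hm2 : 2 ≤ mm (spheroid 0 u 1 R₁) := by
    have := flat_mass hd (body_spheroid hu hR1) hu one_pos (by linarith) hR2 Subset.rfl
    rw [mm]; linarith
  have hivt := intermediate_value_Icc hR1
    ((continuousOn_mm hd1 hu).mono (fun x hx => hx.1 : Icc 1 R₁ ⊆ Ici 1))
  have hmem : 2 * l ∈ Icc (mm (spheroid 0 u 1 1)) (mm (spheroid 0 u 1 R₁)) :=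
    ⟨by rw [hm1]; linarith, by linarith⟩
  obtain ⟨R, hR, hRl⟩ := hivt hmem
  refine ⟨u, R, hu, hR.1, ?_⟩
  have hRl' : limConst (spheroid 0 u 1 R) * minWidth (spheroid 0 u 1 R) = 2 * l := hRl
  rw [width_spheroid hd1 hu hR.1] at hRl'
  linarith

end Pool.Agent.V5helper78.PK
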