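import Mathlib
import Pool.Agent.V5helper78.PK.HG
import Pool.Agent.V5helper78.PK.SP

/-!
# The sharp measure on a spheroid
-/

set_option autoImplicit false

open MeasureTheory Metric Set Filter Topology
open scoped ENNReal NNReal

namespace Pool.Agent.V5helper78.PK

open Pool.Agent.Helper934.PlankDefs Pool.Agent.Helper934.PlankSupp Pool.Agent.Helper934.PlankMain
  Pool.Agent.Helper934.PlankCore
open Pool.Agent.H703R2.LP (GG act haarG exists_act continuous_act act_mul)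

variable {n : ℕ}

/-- the embedding of `ℝ^n` as the orthogonal complement of the first basis vector -/
noncomputable def JJ (B : OrthonormalBasis (Fin (n + 1)) ℝ (EuclideanSpace ℝ (Fin (n + 1))))
    (z : EuclideanSpace ℝ (Fin n)) : EuclideanSpace ℝ (Fin (n + 1)) := ∑ i, z i • B i.succ

/-- its adjoint -/
noncomputable def js (B : OrthonormalBasis (Fin (n + 1)) ℝ (EuclideanSpace ℝ (Fin (n + 1))))
    (θ : EuclideanSpace ℝ (Fin (n + 1))) : EuclideanSpace ℝ (Fin n) :=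
  WithLp.toLp 2 (fun i => inner ℝ (B i.succ) θ)

theorem inner_JJ (B : OrthonormalBasis (Fin (n + 1)) ℝ (EuclideanSpace ℝ (Fin (n + 1))))
    (z : EuclideanSpace ℝ (Fin n)) (θ : EuclideanSpace ℝ (Fin (n + 1))) :
    (inner ℝ (JJ B z) θ : ℝ) = inner ℝ z (js B θ) := by
  unfold JJ js
  rw [sum_inner, PiLp.inner_apply]
  refine Finset.sum_congr rfl fun j _ => ?_
  rw [inner_smul_left]
  simp [mul_comm]

theorem norm_js_sq (B : OrthonormalBasis (Fin (n + 1)) ℝ (EuclideanSpace ℝ (Fin (n + 1))))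
    (θ : EuclideanSpace ℝ (Fin (n + 1))) :
    ‖js B θ‖ ^ 2 = ‖θ‖ ^ 2 - (inner ℝ (B 0) θ) ^ 2 := by
  have h := B.sum_sq_inner_right θ
  rw [Fin.sum_univ_succ] at h
  rw [EuclideanSpace.norm_sq_eq]
  simp only [js, Real.norm_eq_abs, sq_abs]
  linarith

theorem js_basis (B : OrthonormalBasis (Fin (n + 1)) ℝ (EuclideanSpace ℝ (Fin (n + 1)))) :
    js B (B 0) = 0 := by
  ext i
  simp only [js]
  rw [B.inner_eq_ite]
  simp

theorem inner_JJ_zero (B : OrthonormalBasis (Fin (n + 1)) ℝ (EuclideanSpace ℝ (Fin (n + 1))))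
    (z : EuclideanSpace ℝ (Fin n)) : (inner ℝ (JJ B z) (B 0) : ℝ) = 0 := by
  rw [inner_JJ, js_basis, inner_zero_right]

theorem js_JJ (B : OrthonormalBasis (Fin (n + 1)) ℝ (EuclideanSpace ℝ (Fin (n + 1))))
    (z : EuclideanSpace ℝ (Fin n)) : js B (JJ B z) = z := by
  ext i
  simp only [js, JJ]
  rw [inner_sum, Finset.sum_eq_single i]
  · rw [inner_smul_right, B.inner_eq_ite]; simp
  · intro j _ hj
    rw [inner_smul_right, B.inner_eq_ite]
    simp [Ne.symm hj]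
  · simp

theorem norm_JJ_sq (B : OrthonormalBasis (Fin (n + 1)) ℝ (EuclideanSpace ℝ (Fin (n + 1))))
    (z : EuclideanSpace ℝ (Fin n)) : ‖JJ B z‖ ^ 2 = ‖z‖ ^ 2 := by
  rw [← real_inner_self_eq_norm_sq, inner_JJ, js_JJ, real_inner_self_eq_norm_sq]

theorem act_act_inv (g : GG n) (z : EuclideanSpace ℝ (Fin n)) : act g (act g⁻¹ z) = z := by
  rw [← act_mul, mul_inv_cancel]
  rfl

theorem inner_act (g : GG n) (x z : EuclideanSpace ℝ (Fin n)) :
    (inner ℝ (act g x) z : ℝ) = inner ℝ x (act g⁻¹ z) := by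
  conv_lhs => rw [← act_act_inv g z]
  exact (act g).inner_map_map x _

/-- the map which carries the product measure to the spheroid -/
noncomputable def FG (c : EuclideanSpace ℝ (Fin (n + 1)))
    (B : OrthonormalBasis (Fin (n + 1)) ℝ (EuclideanSpace ℝ (Fin (n + 1))))
    (b : Fin 2 → EuclideanSpace ℝ (Fin n)) (h r : ℝ)
    (p : EuclideanSpace ℝ (Fin 3) × GG n) : EuclideanSpace ℝ (Fin (n + 1)) :=
  c + h • (p.1 0 • B 0 + r • JJ B (p.1 1 • act p.2 (b 0) + p.1 2 • act p.2 (b 1)))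

theorem measurable_FG (c : EuclideanSpace ℝ (Fin (n + 1)))
    (B : OrthonormalBasis (Fin (n + 1)) ℝ (EuclideanSpace ℝ (Fin (n + 1))))
    (b : Fin 2 → EuclideanSpace ℝ (Fin n)) (h r : ℝ) : Measurable (FG c B b h r) := by
  refine Continuous.measurable ?_
  have h1 : ∀ i, Continuous fun p : EuclideanSpace ℝ (Fin 3) × GG n => act p.2 (b i) := fun i =>
    continuous_act.comp (continuous_snd.prodMk continuous_const)
  have h2 : Continuous (JJ B) := by unfold JJ; fun_prop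
  have h3 : Continuous fun p : EuclideanSpace ℝ (Fin 3) × GG n =>
      p.1 1 • act p.2 (b 0) + p.1 2 • act p.2 (b 1) :=
    ((by fun_prop : Continuous fun p : EuclideanSpace ℝ (Fin 3) × GG n => p.1 1).smul (h1 0)).add
      ((by fun_prop : Continuous fun p : EuclideanSpace ℝ (Fin 3) × GG n => p.1 2).smul (h1 1))
  have h4 := h2.comp h3
  unfold FG
  exact continuous_const.add ((((by fun_prop : Continuous fun p : EuclideanSpace ℝ (Fin 3) × GG n =>
    p.1 0).smul continuous_const).add (h4.const_smul r)).const_smul h)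

/-- the pull back of a linear form -/
noncomputable def tg (B : OrthonormalBasis (Fin (n + 1)) ℝ (EuclideanSpace ℝ (Fin (n + 1))))
    (b : Fin 2 → EuclideanSpace ℝ (Fin n)) (θ : EuclideanSpace ℝ (Fin (n + 1))) (r : ℝ) (g : GG n) :
    EuclideanSpace ℝ (Fin 3) :=
  !₂[inner ℝ (B 0) θ, r * inner ℝ (b 0) (act g⁻¹ (js B θ)), r * inner ℝ (b 1) (act g⁻¹ (js B θ))]

theorem inner_FG (c θ : EuclideanSpace ℝ (Fin (n + 1)))
    (B : OrthonormalBasis (Fin (n + 1)) ℝ (EuclideanSpace ℝ (Fin (n + 1))))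
    (b : Fin 2 → EuclideanSpace ℝ (Fin n)) (h r : ℝ) (p : EuclideanSpace ℝ (Fin 3) × GG n) :
    (inner ℝ (FG c B b h r p) θ : ℝ) = inner ℝ c θ + h * inner ℝ p.1 (tg B b θ r p.2) := by
  have e : (inner ℝ p.1 (tg B b θ r p.2) : ℝ) = p.1 0 * inner ℝ (B 0) θ +
      r * (p.1 1 * inner ℝ (b 0) (act p.2⁻¹ (js B θ)) +
        p.1 2 * inner ℝ (b 1) (act p.2⁻¹ (js B θ))) := by
    rw [PiLp.inner_apply, Fin.sum_univ_three]
    simp only [tg, RCLike.inner_apply]
    simp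
    ring
  rw [e]
  unfold FG
  rw [inner_add_left, inner_smul_left, inner_add_left, inner_smul_left, inner_smul_left, inner_JJ,
    inner_add_left, inner_smul_left, inner_smul_left, inner_act, inner_act]
  simp only [conj_trivial]

theorem norm_pj_sq {m : ℕ} (b : Fin 2 → EuclideanSpace ℝ (Fin m)) (x : EuclideanSpace ℝ (Fin m)) :
    ‖pj b x‖ ^ 2 = (inner ℝ (b 0) x) ^ 2 + (inner ℝ (b 1) x) ^ 2 := by
  rw [EuclideanSpace.norm_sq_eq, Fin.sum_univ_two]
  simp only [pj, Real.norm_eq_abs, sq_abs]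

theorem norm_tg_sq (B : OrthonormalBasis (Fin (n + 1)) ℝ (EuclideanSpace ℝ (Fin (n + 1))))
    (b : Fin 2 → EuclideanSpace ℝ (Fin n)) (θ : EuclideanSpace ℝ (Fin (n + 1))) (r : ℝ) (g : GG n) :
    ‖tg B b θ r g‖ ^ 2 = (inner ℝ (B 0) θ) ^ 2 + r ^ 2 * ‖pj b (act g⁻¹ (js B θ))‖ ^ 2 := by
  rw [EuclideanSpace.norm_sq_eq, Fin.sum_univ_three, norm_pj_sq]
  simp only [tg, Real.norm_eq_abs, sq_abs]
  simp
  ring

theorem FG_mem {c : EuclideanSpace ℝ (Fin (n + 1))}
    (B : OrthonormalBasis (Fin (n + 1)) ℝ (EuclideanSpace ℝ (Fin (n + 1))))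
    {b : Fin 2 → EuclideanSpace ℝ (Fin n)} (hb : Orthonormal ℝ b) {h r : ℝ} (hr : 0 < r)
    {ω : EuclideanSpace ℝ (Fin 3)} (hω : ‖ω‖ ≤ 1) (g : GG n) :
    FG c B b h r (ω, g) ∈ spheroid c (B 0) h r := by
  set z := ω 1 • act g (b 0) + ω 2 • act g (b 1) with hz
  have hzn : ‖z‖ ^ 2 = (ω 1) ^ 2 + (ω 2) ^ 2 := by
    have h0 : ‖b 0‖ = 1 := hb.1 0
    have h1 : ‖b 1‖ = 1 := hb.1 1
    have h01 : (inner ℝ (b 0) (b 1) : ℝ) = 0 := hb.2 (by decide)
    rw [hz, norm_add_sq_real, inner_smul_left, inner_smul_right, (act g).inner_map_map, h01,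
      norm_smul, norm_smul, (act g).norm_map, (act g).norm_map, h0, h1, Real.norm_eq_abs,
      Real.norm_eq_abs, mul_one, mul_one, sq_abs, sq_abs]
    ring
  have hu : ‖B 0‖ = 1 := B.norm_eq_one 0
  have hzu : (inner ℝ (JJ B z) (B 0) : ℝ) = 0 := inner_JJ_zero B z
  have huz : (inner ℝ (B 0) (JJ B z) : ℝ) = 0 := by rw [real_inner_comm]; exact hzu
  have e1 : FG c B b h r (ω, g) - c = h • (ω 0 • B 0 + r • JJ B z) := by
    unfold FG
    rw [add_sub_cancel_left]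
  have e2 : (inner ℝ (FG c B b h r (ω, g) - c) (B 0) : ℝ) = h * ω 0 := by
    rw [e1, inner_smul_left, inner_add_left, inner_smul_left, inner_smul_left, hzu,
      real_inner_self_eq_norm_sq, hu]
    simp
  have e3 : ‖FG c B b h r (ω, g) - c‖ ^ 2 = h ^ 2 * ((ω 0) ^ 2 + r ^ 2 * ‖z‖ ^ 2) := by
    rw [e1, norm_smul, mul_pow, Real.norm_eq_abs, sq_abs, norm_add_sq_real, inner_smul_left,
      inner_smul_right, huz, norm_smul, norm_smul, hu, mul_pow, mul_pow, norm_JJ_sq,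
      Real.norm_eq_abs, Real.norm_eq_abs, sq_abs, sq_abs]
    ring
  have hωn : (ω 0) ^ 2 + (ω 1) ^ 2 + (ω 2) ^ 2 ≤ 1 := by
    have h1 : ‖ω‖ ^ 2 ≤ 1 := pow_le_one₀ (norm_nonneg _) hω
    rw [EuclideanSpace.norm_sq_eq, Fin.sum_univ_three] at h1
    simpa only [Real.norm_eq_abs, sq_abs] using h1
  change (inner ℝ (FG c B b h r (ω, g) - c) (B 0) : ℝ) ^ 2 +
    (‖FG c B b h r (ω, g) - c‖ ^ 2 - (inner ℝ (FG c B b h r (ω, g) - c) (B 0) : ℝ) ^ 2) / r ^ 2 ≤ h ^ 2
  rw [e2, e3, hzn]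
  have e4 : (h * ω 0) ^ 2 + (h ^ 2 * ((ω 0) ^ 2 + r ^ 2 * ((ω 1) ^ 2 + (ω 2) ^ 2)) -
      (h * ω 0) ^ 2) / r ^ 2 = h ^ 2 * ((ω 0) ^ 2 + (ω 1) ^ 2 + (ω 2) ^ 2) := by
    field_simp
    ring
  rw [e4]
  calc h ^ 2 * ((ω 0) ^ 2 + (ω 1) ^ 2 + (ω 2) ^ 2) ≤ h ^ 2 * 1 :=
        mul_le_mul_of_nonneg_left hωn (sq_nonneg h)
    _ = h ^ 2 := mul_one _

/-- the plank bound for the measure on the spheroid -/
theorem sharp_PB (hn : 2 ≤ n) {μ : Measure (EuclideanSpace ℝ (Fin 3))} [IsFiniteMeasure μ]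
    (hμ : PB μ) (c : EuclideanSpace ℝ (Fin (n + 1)))
    (B : OrthonormalBasis (Fin (n + 1)) ℝ (EuclideanSpace ℝ (Fin (n + 1))))
    {b : Fin 2 → EuclideanSpace ℝ (Fin n)} (hb : Orthonormal ℝ b) {h r : ℝ} (hh : 0 < h)
    (hr : bet 2 / bet n ≤ r) :
    PB (ENNReal.ofReal (h / (haarG n univ).toReal) • (μ.prod (haarG n)).map (FG c B b h r)) := by
  intro θ a e hθ hae
  have hH : 0 < (haarG n univ).toReal :=
    ENNReal.toReal_pos (isOpen_univ.measure_pos _ univ_nonempty).ne' (measure_ne_top _ _)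
  set H : ℝ := (haarG n univ).toReal with hHdef
  have hHe : haarG n univ = ENNReal.ofReal H := by
    rw [hHdef, ENNReal.ofReal_toReal (measure_ne_top _ _)]
  have hbn := bet_pos hn
  have hr0 : 0 < r := (div_pos (bet_pos le_rfl) hbn).trans_le hr
  obtain ⟨v, hv, hpv⟩ := exists_unit_smul (d := n) (by omega) (js B θ)
  set S : ℝ := ‖js B θ‖ with hS
  have hS0 : 0 ≤ S := norm_nonneg _
  have hCS : (inner ℝ (B 0) θ : ℝ) ^ 2 = 1 - S ^ 2 := by
    have := norm_js_sq B θ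
    rw [← hS, hθ] at this
    linarith
  have hp1 : S ^ 2 ≤ 1 := by have := sq_nonneg (inner ℝ (B 0) θ : ℝ); linarith
  have havg := avg_inv le_rfl hn hb hv
  have hfin : ∀ᵐ g ∂(haarG n), (ENNReal.ofReal ‖pj b (act g⁻¹ v)‖)⁻¹ < ⊤ := by
    have hcont : Continuous fun g : GG n => act g⁻¹ v :=
      continuous_act.comp (continuous_inv.prodMk continuous_const)
    refine ae_lt_top ?_ ?_
    · exact (((continuous_pj b).comp hcont).measurable.norm.ennreal_ofReal).inv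
    · rw [havg]
      exact ENNReal.mul_ne_top (measure_ne_top _ _) ENNReal.ofReal_ne_top
  have htau : ∀ᵐ g ∂(haarG n), 0 < ‖tg B b θ r g‖ ∧ 0 < ‖pj b (act g⁻¹ v)‖ ∧
      1 / ‖tg B b θ r g‖ ≤ (1 - S ^ 2) + S ^ 2 / r * (‖pj b (act g⁻¹ v)‖⁻¹) := by
    filter_upwards [hfin] with g hg
    have hq : 0 < ‖pj b (act g⁻¹ v)‖ := by
      rcases (norm_nonneg (pj b (act g⁻¹ v))).lt_or_eq with h0 | h0
      · exact h0
      · exfalso
        rw [← h0, ENNReal.ofReal_zero, ENNReal.inv_zero] at hg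
        exact lt_irrefl _ hg
    set q := ‖pj b (act g⁻¹ v)‖ with hqdef
    have e1 : ‖pj b (act g⁻¹ (js B θ))‖ = S * q := by
      have e0 : pj b (act g⁻¹ (js B θ)) = S • pj b (act g⁻¹ v) := by
        conv_lhs => rw [hpv]
        rw [map_smul]
        ext i
        simp [pj, inner_smul_right]
      rw [e0, norm_smul, Real.norm_eq_abs, abs_of_nonneg hS0]
    have e2 : ‖tg B b θ r g‖ ^ 2 = 1 - S ^ 2 + S ^ 2 * (r * q) ^ 2 := by
      rw [norm_tg_sq, hCS, e1]; ring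
    have e3 : ‖tg B b θ r g‖ = Real.sqrt (1 - S ^ 2 + S ^ 2 * (r * q) ^ 2) := by
      rw [← e2, Real.sqrt_sq (norm_nonneg _)]
    have ha : 0 < r * q := mul_pos hr0 hq
    have h1 := inv_convex (p := S ^ 2) (a := r * q) (sq_nonneg S) hp1 ha
    have hpos : 0 < 1 - S ^ 2 + S ^ 2 * (r * q) ^ 2 := by
      rcases hp1.lt_or_eq with h | h
      · have : 0 ≤ S ^ 2 * (r * q) ^ 2 := by positivity
        linarith
      · rw [h]; nlinarith [sq_pos_of_pos ha]
    refine ⟨by rw [e3]; exact Real.sqrt_pos.2 hpos, hq, ?_⟩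
    rw [e3]
    refine h1.trans (le_of_eq ?_)
    congr 1
    rw [div_mul_eq_div_div, div_eq_mul_inv (S ^ 2 / r)]
  have hF := measurable_FG c B b h r
  rw [Measure.smul_apply, smul_eq_mul, Measure.map_apply hF (measurableSet_plank θ a e),
    Measure.prod_apply_symm (hF (measurableSet_plank θ a e))]
  have h1 : ∫⁻ g, μ ((fun ω => (ω, g)) ⁻¹' (FG c B b h r ⁻¹' plank θ a e)) ∂(haarG n) ≤
      ∫⁻ g, ENNReal.ofReal ((e - a) / h) * (ENNReal.ofReal (1 - S ^ 2) +
        ENNReal.ofReal (S ^ 2 / r) * (ENNReal.ofReal ‖pj b (act g⁻¹ v)‖)⁻¹) ∂(haarG n) := by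
    refine lintegral_mono_ae ?_
    filter_upwards [htau] with g hq
    have hsl := hμ.slab hq.1 (a := (a - inner ℝ c θ) / h) (b := (e - inner ℝ c θ) / h)
      (div_le_div_of_nonneg_right (by linarith) hh.le)
    have e4 : (fun ω => (ω, g)) ⁻¹' (FG c B b h r ⁻¹' plank θ a e) =
        {ω | (a - inner ℝ c θ) / h ≤ inner ℝ ω (tg B b θ r g) ∧
          inner ℝ ω (tg B b θ r g) ≤ (e - inner ℝ c θ) / h} := by
      ext ω
      simp only [plank, mem_preimage, mem_ofPred_eq, inner_FG]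
      rw [div_le_iff₀' hh, le_div_iff₀' hh]
      constructor
      · rintro ⟨h1, h2⟩; constructor <;> linarith
      · rintro ⟨h1, h2⟩; constructor <;> linarith
    rw [e4]
    refine hsl.trans ?_
    have hqn : 0 ≤ ‖pj b (act g⁻¹ v)‖⁻¹ := inv_nonneg.2 (norm_nonneg _)
    rw [← ENNReal.ofReal_inv_of_pos hq.2.1, ← ENNReal.ofReal_mul (by positivity),
      ← ENNReal.ofReal_add (by linarith) (mul_nonneg (by positivity) hqn),
      ← ENNReal.ofReal_mul (div_nonneg (by linarith) hh.le)]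
    refine ENNReal.ofReal_le_ofReal ?_
    have e3 : ((e - inner ℝ c θ) / h - (a - inner ℝ c θ) / h) / ‖tg B b θ r g‖ =
        (e - a) / h * (1 / ‖tg B b θ r g‖) := by
      rw [← sub_div]; ring
    rw [e3]
    exact mul_le_mul_of_nonneg_left hq.2.2 (div_nonneg (by linarith) hh.le)
  have hmq : Measurable fun g : GG n => (ENNReal.ofReal ‖pj b (act g⁻¹ v)‖)⁻¹ := by
    have hcont : Continuous fun g : GG n => act g⁻¹ v :=
      continuous_act.comp (continuous_inv.prodMk continuous_const)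
    exact (((continuous_pj b).comp hcont).measurable.norm.ennreal_ofReal).inv
  have h2 : ∫⁻ g, ENNReal.ofReal ((e - a) / h) * (ENNReal.ofReal (1 - S ^ 2) +
        ENNReal.ofReal (S ^ 2 / r) * (ENNReal.ofReal ‖pj b (act g⁻¹ v)‖)⁻¹) ∂(haarG n) ≤
      ENNReal.ofReal ((e - a) / h * H) := by
    rw [lintegral_const_mul _ (by fun_prop), lintegral_add_left measurable_const,
      lintegral_const, lintegral_const_mul _ hmq, havg, hHe]
    have hq0 : 0 ≤ bet 2 / bet n := (div_pos (bet_pos le_rfl) hbn).le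
    rw [← ENNReal.ofReal_mul (by linarith), ← ENNReal.ofReal_mul hH.le,
      ← ENNReal.ofReal_mul (by positivity),
      ← ENNReal.ofReal_add (mul_nonneg (by linarith) hH.le) (by positivity),
      ← ENNReal.ofReal_mul (div_nonneg (by linarith) hh.le)]
    refine ENNReal.ofReal_le_ofReal (mul_le_mul_of_nonneg_left ?_ (div_nonneg (by linarith) hh.le))
    have h5 : S ^ 2 / r * (H * (bet 2 / bet n)) ≤ S ^ 2 * H := by
      calc S ^ 2 / r * (H * (bet 2 / bet n)) ≤ S ^ 2 / r * (H * r) := by gcongr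
        _ = S ^ 2 * H := by field_simp
    linarith
  calc ENNReal.ofReal (h / H) * _ ≤ ENNReal.ofReal (h / H) *
        ENNReal.ofReal ((e - a) / h * H) := mul_le_mul_right (h1.trans h2) _
    _ = ENNReal.ofReal (e - a) := by
        rw [← ENNReal.ofReal_mul (by positivity)]
        congr 1
        field_simp

end Pool.Agent.V5helper78.PK
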