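import Mathlib
import Pool.Agent.V5helper78.PK.HF

/-!
# Flat bodies, sharp form
-/

set_option autoImplicit false

open MeasureTheory Metric Set Filter Topology
open scoped ENNReal NNReal

namespace Pool.Agent.V5helper78.PK

open Pool.Agent.Helper934.PlankDefs Pool.Agent.Helper934.PlankSupp Pool.Agent.Helper934.PlankMain
  Pool.Agent.Helper934.PlankCore
open Pool.Agent.H703R2.LP (GG act haarG exists_act continuous_act act_mul)

variable {n : ℕ}

theorem exists_basis_zero {u : EuclideanSpace ℝ (Fin (n + 1))} (hu : ‖u‖ = 1) :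
    ∃ B : OrthonormalBasis (Fin (n + 1)) ℝ (EuclideanSpace ℝ (Fin (n + 1))), B 0 = u := by
  have hcard : Module.finrank ℝ (EuclideanSpace ℝ (Fin (n + 1))) = Fintype.card (Fin (n + 1)) := by
    simp
  have horth : Orthonormal ℝ (({0} : Set (Fin (n + 1))).domRestrict (fun _ => u)) := by
    rw [orthonormal_iff_ite]
    rintro ⟨i, hi⟩ ⟨j, hj⟩
    simp only [mem_singleton_iff] at hi hj
    subst hi; subst hj
    simp [Set.domRestrict, hu]
  obtain ⟨B, hB⟩ := horth.exists_orthonormalBasis_extension_of_card_eq hcard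
  exact ⟨B, hB 0 rfl⟩

theorem exists_pair (hn : 2 ≤ n) : ∃ b : Fin 2 → EuclideanSpace ℝ (Fin n), Orthonormal ℝ b := by
  refine ⟨fun i => EuclideanSpace.basisFun (Fin n) ℝ (Fin.castLE hn i), ?_⟩
  exact (EuclideanSpace.basisFun (Fin n) ℝ).orthonormal.comp _ (Fin.castLE_injective hn)

theorem sharp_mass (hn : 2 ≤ n) {K : Set (EuclideanSpace ℝ (Fin (n + 1)))} (hb : IsConvexBody K)
    {c u : EuclideanSpace ℝ (Fin (n + 1))} (hu : ‖u‖ = 1) {h R : ℝ} (hh : 0 < h)
    (hR : bet 2 / bet n ≤ R) (hK : spheroid c u h R ⊆ K) :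
    2 * h ≤ limConst K * minWidth K := by
  have hd1 : 1 ≤ n + 1 := by omega
  obtain ⟨B, rfl⟩ := exists_basis_zero hu
  obtain ⟨b, hbo⟩ := exists_pair hn
  obtain ⟨μ, hμ, -, hμp, hμm⟩ := exists_measure (d := 3) (by norm_num)
    (body_closedBall (0 : EuclideanSpace ℝ (Fin 3)) one_pos)
  rw [limConst_ball le_rfl 0 one_pos, bet_three, one_mul] at hμm
  have hR0 : 0 < R := (div_pos (bet_pos le_rfl) (bet_pos hn)).trans_le hR
  have hPB := sharp_PB hn hμp c B hbo hh hR
  have hH : 0 < (haarG n univ).toReal :=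
    ENNReal.toReal_pos (isOpen_univ.measure_pos _ univ_nonempty).ne' (measure_ne_top _ _)
  have hHe : haarG n univ = ENNReal.ofReal (haarG n univ).toReal := by
    rw [ENNReal.ofReal_toReal (measure_ne_top _ _)]
  set H : ℝ := (haarG n univ).toReal with hHdef
  have hcov := measure_le_cover hd1 hb hPB
  have hmass : ENNReal.ofReal (2 * h) ≤
      (ENNReal.ofReal (h / H) • (μ.prod (haarG n)).map (FG c B b h R)) K := by
    rw [Measure.smul_apply, smul_eq_mul,
      Measure.map_apply (measurable_FG c B b h R) hb.1.measurableSet]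
    have hsub : closedBall (0 : EuclideanSpace ℝ (Fin 3)) 1 ×ˢ (univ : Set (GG n)) ⊆
        FG c B b h R ⁻¹' K := by
      rintro ⟨ω, g⟩ ⟨h1, -⟩
      rw [mem_closedBall, dist_zero_right] at h1
      exact hK (FG_mem B hbo hR0 h1 g)
    have h1 := measure_mono (μ := μ.prod (haarG n)) hsub
    rw [Measure.prod_prod, hHe] at h1
    have hμB : ENNReal.ofReal 2 ≤ μ (closedBall 0 1) := by
      rw [← ENNReal.ofReal_toReal (measure_ne_top μ (closedBall 0 1)), hμm]
      exact ENNReal.ofReal_le_ofReal (two_le_width (by norm_num))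
    calc ENNReal.ofReal (2 * h) = ENNReal.ofReal (h / H) *
          (ENNReal.ofReal 2 * ENNReal.ofReal H) := by
          rw [← ENNReal.ofReal_mul (by norm_num), ← ENNReal.ofReal_mul (by positivity)]
          congr 1
          field_simp
      _ ≤ ENNReal.ofReal (h / H) * (μ (closedBall 0 1) * ENNReal.ofReal H) := by gcongr
      _ ≤ _ := mul_le_mul_right h1 _
  have h2 := hmass.trans hcov
  rwa [ENNReal.ofReal_le_ofReal_iff (mul_nonneg (limConst_nonneg hd1 hb) (minWidth_pos hd1 hb).le)] at h2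

/-- flat bodies, sharp form -/
theorem sharp_coverConst (hn : 2 ≤ n) {K : Set (EuclideanSpace ℝ (Fin (n + 1)))}
    (hb : IsConvexBody K) {c u : EuclideanSpace ℝ (Fin (n + 1))} (hu : ‖u‖ = 1) {h R : ℝ}
    (hh : 0 < h) (hR : bet 2 / bet n ≤ R) (hK : spheroid c u h R ⊆ K)
    (hK2 : K ⊆ {x | |(inner ℝ (x - c) u : ℝ)| ≤ h}) (k : ℕ) : coverConst K k = k := by
  have hd1 : 1 ≤ n + 1 := by omega
  have hw := minWidth_pos hd1 hb
  have hne : K.Nonempty := hb.2.2.mono interior_subset
  have h1 := sharp_mass hn hb hu hh hR hK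
  have h2 : minWidth K ≤ 2 * h := by
    have h3 := minWidth_le hb.1 hne u hu
    rw [widthIn_eq hb.1 hne] at h3
    have h4 : supp K u ≤ inner ℝ c u + h := supp_le hne fun x hx => by
      have := hK2 hx
      simp only [mem_ofPred_eq] at this
      rw [inner_sub_left] at this
      linarith [(abs_le.1 this).2]
    have h5 : supp K (-u) ≤ -inner ℝ c u + h := supp_le hne fun x hx => by
      have := hK2 hx
      simp only [mem_ofPred_eq] at this
      rw [inner_sub_left] at this
      rw [inner_neg_right]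
      linarith [(abs_le.1 this).1]
    linarith
  have h6 : 1 ≤ limConst K := by
    have : 1 * minWidth K ≤ limConst K * minWidth K := by linarith
    exact le_of_mul_le_mul_right this hw
  refine le_antisymm (coverConst_le_self hd1 hb k) ?_
  refine le_trans ?_ (limConst_mul_le hd1 hb k)
  have : (0 : ℝ) ≤ k := Nat.cast_nonneg k
  nlinarith

end Pool.Agent.V5helper78.PK
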