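import Mathlib
import Pool.Agent.V5helper78.PK.HS

/-!
# Spheroids: necessity of the condition on the half-axis
-/

set_option autoImplicit false

open MeasureTheory Metric Set Filter Topology
open scoped ENNReal NNReal

namespace Pool.Agent.V5helper78.PK

open Pool.Agent.Helper934.PlankDefs Pool.Agent.Helper934.PlankSupp Pool.Agent.Helper934.PlankMain
  Pool.Agent.Helper934.PlankCore

theorem final_limit {m : ℕ} (hm : 1 ≤ m) {M ρ : ℝ} (hM0 : 0 ≤ M) (hρ : 0 ≤ ρ)
    (key2 : ∀ s : ℝ, 0 < s → s < 1 → M * s * (kap m * (1 - s ^ m)) ≤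
      ρ * (kap (m + 1) * (1 - s ^ (m + 1)))) :
    M * (m * kap m) ≤ ρ * (((m : ℝ) + 1) * kap (m + 1)) := by
  have hk := kap_pos m
  have hk1 := kap_pos (m + 1)
  have hnp : (0 : ℝ) < m := by exact_mod_cast hm
  have key3 : ∀ s : ℝ, 0 < s → s < 1 → M * (kap m * (m * s ^ m)) ≤
      ρ * (kap (m + 1) * (m + 1)) := by
    intro s hs hs1
    have hδ : 0 < 1 - s := sub_pos.mpr hs1
    have h1 := geo_ge hs hs1.le m
    rw [one_pow] at h1
    have h2 : 1 - s ^ (m + 1) ≤ (m + 1) * (1 - s) := by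
      have := one_add_mul_le_pow (a := s - 1) (by linarith) (m + 1)
      push_cast at this
      have e : 1 + (s - 1) = s := by ring
      rw [e] at this
      linarith
    have h3 : M * (kap m * (m * s ^ m)) * (1 - s) ≤ ρ * (kap (m + 1) * (m + 1)) * (1 - s) := by
      calc M * (kap m * (m * s ^ m)) * (1 - s) = M * kap m * (m * s ^ m * (1 - s)) := by ring
        _ ≤ M * kap m * (s * (1 - s ^ m)) := mul_le_mul_of_nonneg_left h1 (by positivity)
        _ = M * s * (kap m * (1 - s ^ m)) := by ring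
        _ ≤ ρ * (kap (m + 1) * (1 - s ^ (m + 1))) := key2 s hs hs1
        _ ≤ ρ * (kap (m + 1) * ((m + 1) * (1 - s))) := by gcongr
        _ = _ := by ring
    exact le_of_mul_le_mul_right h3 hδ
  have hcont : Continuous fun s : ℝ => M * (kap m * (m * s ^ m)) := by fun_prop
  have ht := (hcont.tendsto 1).mono_left (nhdsWithin_le_nhds (s := Iio 1))
  have h5 : M * (kap m * (m * 1 ^ m)) ≤ ρ * (kap (m + 1) * (m + 1)) := by
    refine le_of_tendsto ht ?_
    filter_upwards [Ioo_mem_nhdsLT (zero_lt_one (α := ℝ))] with s hs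
    exact key3 s hs.1 hs.2
  rw [one_pow, mul_one] at h5
  linarith

theorem arc_int {a : ℝ} (ha0 : 0 < a) (ha1 : a < 1) :
    ∫⁻ t in Icc (-a) a, ENNReal.ofReal (1 / Real.sqrt (1 - t ^ 2)) =
      ENNReal.ofReal (2 * Real.arcsin a) := by
  have hpos : ∀ t ∈ Icc (-a) a, 0 < 1 - t ^ 2 := by
    intro t ht
    have h1 : t ^ 2 ≤ a ^ 2 := by
      rw [← sq_abs t]; exact pow_le_pow_left₀ (abs_nonneg _) (abs_le.2 ht) 2
    nlinarith
  have hcont : ContinuousOn (fun t : ℝ => 1 / Real.sqrt (1 - t ^ 2)) (Icc (-a) a) := by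
    refine ContinuousOn.div continuousOn_const (by fun_prop) fun t ht => ?_
    exact (Real.sqrt_pos.2 (hpos t ht)).ne'
  have hle : -a ≤ a := by linarith
  rw [← ofReal_integral_eq_lintegral_ofReal (hcont.integrableOn_Icc)
    (Filter.Eventually.of_forall fun t => by positivity)]
  congr 1
  rw [integral_Icc_eq_integral_Ioc, ← intervalIntegral.integral_of_le hle,
    intervalIntegral.integral_eq_sub_of_hasDerivAt (f := Real.arcsin)]
  · rw [Real.arcsin_neg]; ring
  · intro t ht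
    rw [uIcc_of_le hle] at ht
    exact Real.hasDerivAt_arcsin (by linarith [ht.1]) (by linarith [ht.2])
  · rw [intervalIntegrable_iff_integrableOn_Icc_of_le hle]
    exact hcont.integrableOn_Icc

/-- the law of the short coordinate -/
theorem law_short {d : ℕ} {μ : Measure (EuclideanSpace ℝ (Fin d))} [IsFiniteMeasure μ]
    (hμ : PB μ) {u : EuclideanSpace ℝ (Fin d)} (hu : ‖u‖ = 1)
    (h0 : μ {x | |(inner ℝ x u : ℝ)| ≤ 1}ᶜ = 0) (h2 : ENNReal.ofReal 2 ≤ μ univ) :
    μ.map (fun x => (inner ℝ x u : ℝ)) = volume.restrict (Icc (-1 : ℝ) 1) := by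
  have hm : Measurable fun x : EuclideanSpace ℝ (Fin d) => (inner ℝ x u : ℝ) := by fun_prop
  have hsl : ∀ a b : ℝ, a ≤ b → μ {x | a ≤ (inner ℝ x u : ℝ) ∧ (inner ℝ x u : ℝ) ≤ b} ≤
      ENNReal.ofReal (b - a) := fun a b hab => hμ u a b hu hab
  refine Measure.ext_of_Iic _ _ fun a => ?_
  rw [Measure.map_apply hm measurableSet_Iic, Measure.restrict_apply measurableSet_Iic]
  have hcompl : ∀ A : Set (EuclideanSpace ℝ (Fin d)),
      μ A = μ (A ∩ {x | |(inner ℝ x u : ℝ)| ≤ 1}) := by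
    intro A
    refine (measure_inter_conull' ?_).symm
    exact measure_mono_null (fun x hx => hx.2) h0
  rcases lt_or_ge a (-1) with ha | ha
  · have e1 : (fun x : EuclideanSpace ℝ (Fin d) => (inner ℝ x u : ℝ)) ⁻¹' Iic a ∩
        {x | |(inner ℝ x u : ℝ)| ≤ 1} = ∅ := by
      ext x
      simp only [mem_inter_iff, mem_preimage, mem_Iic, mem_ofPred_eq, mem_empty_iff_false,
        iff_false, not_and]
      intro h1 h3
      linarith [(abs_le.1 h3).1]
    have e2 : Iic a ∩ Icc (-1 : ℝ) 1 = ∅ := by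
      ext t
      simp only [mem_inter_iff, mem_Iic, mem_Icc, mem_empty_iff_false, iff_false, not_and]
      intro h1 h3
      linarith
    rw [hcompl, e1, e2, measure_empty, measure_empty]
  rcases le_or_gt a 1 with ha1 | ha1
  · have e2 : Iic a ∩ Icc (-1 : ℝ) 1 = Icc (-1) a := by
      ext t
      simp only [mem_inter_iff, mem_Iic, mem_Icc]
      constructor
      · rintro ⟨h1, h3, h4⟩; exact ⟨h3, h1⟩
      · rintro ⟨h1, h3⟩; exact ⟨h3, h1, h3.trans ha1⟩
    rw [e2, Real.volume_Icc]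
    have hup : μ ((fun x : EuclideanSpace ℝ (Fin d) => (inner ℝ x u : ℝ)) ⁻¹' Iic a) ≤
        ENNReal.ofReal (a - -1) := by
      rw [hcompl]
      refine (measure_mono ?_).trans (hsl (-1) a ha)
      rintro x ⟨h1, h3⟩
      exact ⟨(abs_le.1 h3).1, h1⟩
    have hup2 : μ ((fun x : EuclideanSpace ℝ (Fin d) => (inner ℝ x u : ℝ)) ⁻¹' Iic a)ᶜ ≤
        ENNReal.ofReal (1 - a) := by
      rw [hcompl]
      refine (measure_mono ?_).trans (hsl a 1 ha1)
      rintro x ⟨h1, h3⟩
      have h4 : ¬ (inner ℝ x u : ℝ) ≤ a := h1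
      exact ⟨(not_le.1 h4).le, (abs_le.1 h3).2⟩
    refine le_antisymm hup ?_
    have htot := measure_add_measure_compl (μ := μ) (hm measurableSet_Iic : MeasurableSet
      ((fun x : EuclideanSpace ℝ (Fin d) => (inner ℝ x u : ℝ)) ⁻¹' Iic a))
    have h5 : ENNReal.ofReal (a - -1) + ENNReal.ofReal (1 - a) ≤
        μ ((fun x : EuclideanSpace ℝ (Fin d) => (inner ℝ x u : ℝ)) ⁻¹' Iic a) +
          ENNReal.ofReal (1 - a) := by
      rw [← ENNReal.ofReal_add (by linarith) (by linarith)]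
      have e : a - -1 + (1 - a) = 2 := by ring
      rw [e]
      refine h2.trans ?_
      rw [← htot]
      exact add_le_add le_rfl hup2
    exact (ENNReal.add_le_add_iff_right ENNReal.ofReal_ne_top).1 h5
  · have e2 : Iic a ∩ Icc (-1 : ℝ) 1 = Icc (-1) 1 := by
      ext t
      simp only [mem_inter_iff, mem_Iic, mem_Icc]
      constructor
      · rintro ⟨h1, h3⟩; exact h3
      · rintro h1; exact ⟨h1.2.trans ha1.le, h1⟩
    have e1 : (fun x : EuclideanSpace ℝ (Fin d) => (inner ℝ x u : ℝ)) ⁻¹' Iic a ∩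
        {x | |(inner ℝ x u : ℝ)| ≤ 1} = univ ∩ {x | |(inner ℝ x u : ℝ)| ≤ 1} := by
      ext x
      simp only [mem_inter_iff, mem_preimage, mem_Iic, mem_ofPred_eq, mem_univ, true_and,
        and_iff_right_iff_imp]
      intro h3
      linarith [(abs_le.1 h3).2]
    rw [e2, Real.volume_Icc, hcompl, e1, ← hcompl]
    refine le_antisymm ?_ ?_
    · rw [hcompl, univ_inter]
      refine (measure_mono fun x hx => ?_).trans (hsl (-1) 1 (by norm_num))
      exact ⟨(abs_le.1 hx).1, (abs_le.1 hx).2⟩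
    · have e : (1 : ℝ) - -1 = 2 := by norm_num
      rw [e]; exact h2

end Pool.Agent.V5helper78.PK
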