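import Mathlib
import Pool.Agent.V5helper78.PK.HN

/-!
# Spheroids: the threshold
-/

set_option autoImplicit false

open MeasureTheory Metric Set Filter Topology
open scoped ENNReal NNReal

namespace Pool.Agent.V5helper78.PK

open Pool.Agent.Helper934.PlankDefs Pool.Agent.Helper934.PlankSupp Pool.Agent.Helper934.PlankMain
  Pool.Agent.Helper934.PlankCore

theorem need {m : ℕ} (hm : 1 ≤ m) {u : EuclideanSpace ℝ (Fin (m + 1 + 1))} (hu : ‖u‖ = 1) {R : ℝ}
    (hR : 1 ≤ R) (hl : 1 ≤ limConst (spheroid 0 u 1 R)) : bet 2 / bet (m + 1) ≤ R := by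
  have hd1 : 1 ≤ m + 1 + 1 := by omega
  have hR0 : 0 < R := by linarith
  have hb := body_spheroid hu hR
  obtain ⟨B, rfl⟩ := exists_basis_zero hu
  set u := B 0 with hudef
  set K := spheroid 0 u 1 R with hKdef
  obtain ⟨μ, hμ, hμ0, hμp, hμK⟩ := exists_measure hd1 hb
  rw [width_spheroid hd1 hu hR] at hμK
  have h2 : ENNReal.ofReal 2 ≤ μ univ := by
    refine le_trans ?_ (measure_mono (subset_univ K))
    rw [← ENNReal.ofReal_toReal (measure_ne_top μ K), hμK]
    exact ENNReal.ofReal_le_ofReal (by linarith)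
  have h0 : μ {x | |(inner ℝ x u : ℝ)| ≤ 1}ᶜ = 0 := by
    refine measure_mono_null ?_ hμ0
    intro x hx hxK
    have := spheroid_slab hu R hxK
    rw [mem_ofPred_eq, sub_zero] at this
    exact hx this
  have hlaw := law_short hμp hu h0 h2
  have hKae : ∀ᵐ x ∂μ, x ∈ K := hμ0
  have hmu : Measurable fun x : EuclideanSpace ℝ (Fin (m + 1 + 1)) => (inner ℝ x u : ℝ) := by fun_prop
  have key : ∀ a s ε : ℝ, 0 < a → a < 1 → 0 < s → s < 1 → 0 < ε →
      ε * s ≤ R * Real.sqrt (1 - a ^ 2) →
      2 * Real.arcsin a / R * s *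
        (kap m * (Real.sqrt (1 ^ 2 - (ε * s / (R * Real.sqrt (1 - a ^ 2))) ^ 2) ^ m - s ^ m)) ≤
        kap (m + 1) * (1 ^ (m + 1) - s ^ (m + 1)) := by
    intro a s ε ha0 ha1 hs hs1 hε hεs
    have hasin : 0 ≤ Real.arcsin a := Real.arcsin_nonneg.2 ha0.le
    have ha2 : 0 < 1 - a ^ 2 := by nlinarith
    have hρ : 0 < R * Real.sqrt (1 - a ^ 2) := mul_pos hR0 (Real.sqrt_pos.2 ha2)
    set r0 : ℝ := ε * s / (R * Real.sqrt (1 - a ^ 2)) with hr0
    have hr00 : 0 ≤ r0 := by positivity
    have hr01 : r0 ≤ 1 := by rw [hr0, div_le_one hρ]; exact hεs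
    set v : ℝ := kap m * (Real.sqrt (1 ^ 2 - r0 ^ 2) ^ m - s ^ m) with hv
    set V : ℝ := kap (m + 1) * (1 ^ (m + 1) - s ^ (m + 1)) with hV
    have hV0 : 0 ≤ V := by
      have : s ^ (m + 1) ≤ 1 ^ (m + 1) := pow_le_pow_left₀ hs.le hs1.le _
      exact mul_nonneg (kap_pos _).le (by linarith)
    rcases le_total v 0 with hv0 | hv0
    · exact (mul_nonpos_of_nonneg_of_nonpos (by positivity) hv0).trans hV0
    have hcjs : Continuous (js B) := by unfold js; fun_prop
    let A : Set (EuclideanSpace ℝ (Fin (m + 1 + 1)) × EuclideanSpace ℝ (Fin (m + 1))) :=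
      {p | |(inner ℝ (js B p.1) p.2 : ℝ)| ≤ ε * ‖p.2‖} ∩ {p | p.2 ∈ shell (m + 1) s 1}
    have hA : MeasurableSet A := by
      refine MeasurableSet.inter (measurableSet_le ?_ (by fun_prop)) ?_
      · have : Continuous fun p : EuclideanSpace ℝ (Fin (m + 1 + 1)) × EuclideanSpace ℝ (Fin (m + 1)) =>
            |(inner ℝ (js B p.1) p.2 : ℝ)| :=
          ((hcjs.comp continuous_fst).inner continuous_snd).abs
        exact this.measurable
      · exact measurable_snd (measurableSet_shell s 1)
    have h1 : (μ.prod volume) A ≤ ENNReal.ofReal (2 * ε) * ENNReal.ofReal V := by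
      rw [Measure.prod_apply_symm hA]
      calc ∫⁻ y, μ ((fun x => (x, y)) ⁻¹' A)
          ≤ ∫⁻ y, (shell (m + 1) s 1).indicator (fun _ => ENNReal.ofReal (2 * ε)) y := by
            refine lintegral_mono fun y => ?_
            by_cases hy : y ∈ shell (m + 1) s 1
            · rw [indicator_of_mem hy]
              have hyn : 0 < ‖y‖ := by
                have := hy.1
                have h2 : 0 < s ^ 2 := by positivity
                rcases (norm_nonneg y).lt_or_eq with h | h
                · exact h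
                · exfalso; rw [← h] at this; nlinarith
              have hun : ‖JJ B (‖y‖⁻¹ • y)‖ = 1 := by
                have h3 := norm_JJ_sq B (‖y‖⁻¹ • y)
                rw [norm_smul, norm_inv, norm_norm, inv_mul_cancel₀ hyn.ne', one_pow] at h3
                exact (pow_eq_one_iff_of_nonneg (norm_nonneg _) two_ne_zero).1 h3
              refine (measure_mono ?_).trans ((hμp (JJ B (‖y‖⁻¹ • y)) (-ε) ε hun
                (by linarith)).trans (le_of_eq ?_))
              · intro x hx
                have hx1 : |(inner ℝ (js B x) y : ℝ)| ≤ ε * ‖y‖ := hx.1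
                have hx2 : |(inner ℝ x (JJ B (‖y‖⁻¹ • y)) : ℝ)| ≤ ε := by
                  rw [real_inner_comm, inner_JJ, real_inner_comm, inner_smul_right, abs_mul,
                    abs_of_pos (inv_pos.2 hyn), inv_mul_le_iff₀ hyn]
                  linarith
                exact abs_le.1 hx2
              · congr 1; ring
            · rw [indicator_of_notMem hy]
              have : (fun x => (x, y)) ⁻¹' A = ∅ := by
                ext x
                simp only [mem_preimage, mem_empty_iff_false, iff_false]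
                exact fun hx => hy hx.2
              rw [this, measure_empty]
        _ = ENNReal.ofReal (2 * ε) * ENNReal.ofReal V := by
            rw [lintegral_indicator (measurableSet_shell s 1), setLIntegral_const,
              vol_shell (by omega) hs.le hs1.le]
    have h3 : ENNReal.ofReal v * (ENNReal.ofReal (2 * (ε * s) / R) * ENNReal.ofReal (2 * Real.arcsin a)) ≤
        (μ.prod volume) A := by
      rw [Measure.prod_apply hA]
      have hX : MeasurableSet ((fun x : EuclideanSpace ℝ (Fin (m + 1 + 1)) => (inner ℝ x u : ℝ)) ⁻¹'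
        Icc (-a) a) := hmu measurableSet_Icc
      refine le_trans ?_ (setLIntegral_le_lintegral
        ((fun x : EuclideanSpace ℝ (Fin (m + 1 + 1)) => (inner ℝ x u : ℝ)) ⁻¹' Icc (-a) a) _)
      have hgm : Measurable fun t : ℝ => ENNReal.ofReal (1 / Real.sqrt (1 - t ^ 2)) := by fun_prop
      have e1 : ENNReal.ofReal v *
          (ENNReal.ofReal (2 * (ε * s) / R) * ENNReal.ofReal (2 * Real.arcsin a)) =
          ∫⁻ x in ((fun x : EuclideanSpace ℝ (Fin (m + 1 + 1)) => (inner ℝ x u : ℝ)) ⁻¹' Icc (-a) a),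
            ENNReal.ofReal v * (ENNReal.ofReal (2 * (ε * s) / R) *
              ENNReal.ofReal (1 / Real.sqrt (1 - (inner ℝ x u : ℝ) ^ 2))) ∂μ := by
        have hgm2 : Measurable fun x : EuclideanSpace ℝ (Fin (m + 1 + 1)) =>
            ENNReal.ofReal (1 / Real.sqrt (1 - (inner ℝ x u : ℝ) ^ 2)) := hgm.comp hmu
        rw [lintegral_const_mul _ (by fun_prop), lintegral_const_mul _ hgm2]
        congr 2
        rw [← setLIntegral_map measurableSet_Icc hgm hmu, hlaw, Measure.restrict_restrict
          measurableSet_Icc, Icc_inter_Icc, ← arc_int ha0 ha1]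
        congr 2
        rw [sup_eq_left.2 (by linarith : (-1 : ℝ) ≤ -a), inf_eq_left.2 ha1.le]
      rw [e1]
      refine setLIntegral_mono_ae' hX ?_
      filter_upwards [hKae] with x hxK hxa
      have hτ : (inner ℝ x u : ℝ) ^ 2 ≤ a ^ 2 := by
        rw [← sq_abs]; exact pow_le_pow_left₀ (abs_nonneg _) (abs_le.2 hxa) 2
      have hτ1 : 0 < 1 - (inner ℝ x u : ℝ) ^ 2 := by linarith
      set τ := Real.sqrt (1 - (inner ℝ x u : ℝ) ^ 2) with hτdef
      have hτ0 : 0 < τ := Real.sqrt_pos.2 hτ1
      have hτ2 : τ ^ 2 = 1 - (inner ℝ x u : ℝ) ^ 2 := Real.sq_sqrt hτ1.le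
      have haτ : Real.sqrt (1 - a ^ 2) ≤ τ := Real.sqrt_le_sqrt (by linarith)
      set r : ℝ := ε * s / (R * τ) with hr
      have hr_nonneg : 0 ≤ r := by positivity
      have hrr0 : r ≤ r0 := by
        rw [hr, hr0]
        exact div_le_div_of_nonneg_left (by positivity) hρ (mul_le_mul_of_nonneg_left haτ hR0.le)
      have hxn : ‖js B x‖ ≤ R * τ := by
        have h4 := norm_js_sq B x
        have h5 := hxK
        rw [hKdef, mem_spheroid, one_pow] at h5
        have h6 : ‖x‖ ^ 2 - (inner ℝ x u : ℝ) ^ 2 ≤ R ^ 2 * (1 - (inner ℝ x u : ℝ) ^ 2) := by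
          have h7 := (div_le_iff₀ (by positivity : (0 : ℝ) < R ^ 2)).1
            (by linarith : (‖x‖ ^ 2 - (inner ℝ x u : ℝ) ^ 2) / R ^ 2 ≤ 1 - (inner ℝ x u : ℝ) ^ 2)
          linarith
        refine le_of_sq_le_sq ?_ (by positivity)
        rw [h4, mul_pow, hτ2, real_inner_comm]
        exact h6
      obtain ⟨w, hw, hxw⟩ := exists_unit_smul (d := m + 1) (by omega) (js B x)
      have h4 : plank w (-r) r ∩ shell (m + 1) s 1 ⊆ Prod.mk x ⁻¹' A := by
        rintro y ⟨hy1, hy2⟩
        refine ⟨?_, hy2⟩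
        have h5 : |(inner ℝ y w : ℝ)| ≤ r := abs_le.2 hy1
        have h6 : s ≤ ‖y‖ := by
          rw [shell_eq hs.le zero_le_one] at hy2
          simpa using hy2.2
        change |(inner ℝ (js B x) y : ℝ)| ≤ ε * ‖y‖
        rw [hxw, inner_smul_left, conj_trivial, abs_mul, abs_of_nonneg (norm_nonneg _),
          real_inner_comm]
        calc ‖js B x‖ * |(inner ℝ y w : ℝ)| ≤ (R * τ) * r :=
              mul_le_mul hxn h5 (abs_nonneg _) (by positivity)
          _ = ε * s := by rw [hr]; field_simp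
          _ ≤ ε * ‖y‖ := mul_le_mul_of_nonneg_left h6 hε.le
      refine le_trans ?_ (measure_mono h4)
      refine le_trans ?_ (shell_plank_ge (n := m) hm hw (r := r) (s := s) (ρ := 1) hs.le hr_nonneg
        (hrr0.trans hr01))
      have h5 : ENNReal.ofReal (2 * (ε * s) / R) * ENNReal.ofReal (1 / τ) = ENNReal.ofReal (2 * r) := by
        rw [← ENNReal.ofReal_mul (by positivity)]
        congr 1
        rw [hr]; field_simp
      rw [h5]
      refine mul_le_mul' (ENNReal.ofReal_le_ofReal ?_) le_rfl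
      rw [hv]
      refine mul_le_mul_of_nonneg_left (sub_le_sub_right ?_ _) (kap_pos m).le
      refine pow_le_pow_left₀ (Real.sqrt_nonneg _) (Real.sqrt_le_sqrt ?_) _
      have : r ^ 2 ≤ r0 ^ 2 := pow_le_pow_left₀ hr_nonneg hrr0 2
      linarith
    have h4 := h3.trans h1
    rw [← ENNReal.ofReal_mul (by positivity), ← ENNReal.ofReal_mul hv0,
      ← ENNReal.ofReal_mul (by positivity),
      ENNReal.ofReal_le_ofReal_iff (by positivity)] at h4
    have h5 : (2 * Real.arcsin a / R * s * v) * (2 * ε) ≤ V * (2 * ε) := by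
      have e : v * (2 * (ε * s) / R * (2 * Real.arcsin a)) =
          (2 * Real.arcsin a / R * s * v) * (2 * ε) := by ring
      rw [e] at h4
      linarith
    exact le_of_mul_le_mul_right h5 (by positivity)
  have key2 : ∀ a : ℝ, 0 < a → a < 1 → ∀ s : ℝ, 0 < s → s < 1 →
      2 * Real.arcsin a / R * s * (kap m * (1 - s ^ m)) ≤
        1 * (kap (m + 1) * (1 - s ^ (m + 1))) := by
    intro a ha0 ha1 s hs hs1
    have ha2 : 0 < 1 - a ^ 2 := by nlinarith
    have hρ : 0 < R * Real.sqrt (1 - a ^ 2) := mul_pos hR0 (Real.sqrt_pos.2 ha2)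
    have hcont : Continuous fun ε : ℝ => 2 * Real.arcsin a / R * s *
        (kap m * (Real.sqrt (1 ^ 2 - (ε * s / (R * Real.sqrt (1 - a ^ 2))) ^ 2) ^ m - s ^ m)) := by
      fun_prop
    have ht := (hcont.tendsto 0).mono_left (nhdsWithin_le_nhds (s := Ioi 0))
    have e : 2 * Real.arcsin a / R * s *
        (kap m * (Real.sqrt (1 ^ 2 - (0 * s / (R * Real.sqrt (1 - a ^ 2))) ^ 2) ^ m - s ^ m)) =
        2 * Real.arcsin a / R * s * (kap m * (1 - s ^ m)) := by simp
    rw [e] at ht
    refine le_of_tendsto ht ?_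
    filter_upwards [Ioo_mem_nhdsGT (div_pos hρ hs)] with ε hε
    have h := key a s ε ha0 ha1 hs hs1 hε.1 ((lt_div_iff₀ hs).1 hε.2).le
    have e2 : (1 : ℝ) ^ (m + 1) = 1 := one_pow _
    rw [e2] at h
    rw [one_mul]
    exact h
  have hβ := bet_pos (d := m + 1) (by omega)
  have hk := kap_pos m
  have hmp : (0 : ℝ) < m := by exact_mod_cast hm
  have key3 : ∀ a : ℝ, 0 < a → a < 1 → Real.arcsin a ≤ R * bet (m + 1) := by
    intro a ha0 ha1
    have hasin : 0 ≤ Real.arcsin a := Real.arcsin_nonneg.2 ha0.le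
    have h := final_limit hm (M := 2 * Real.arcsin a / R) (ρ := 1) (by positivity) zero_le_one
      (key2 a ha0 ha1)
    rw [kap_ratio hm, one_mul] at h
    have h5 := le_of_mul_le_mul_right h (by positivity)
    rw [div_le_iff₀ hR0] at h5
    linarith
  have h6 : Real.arcsin 1 ≤ R * bet (m + 1) := by
    have ht := (Real.continuous_arcsin.tendsto 1).mono_left (nhdsWithin_le_nhds (s := Iio 1))
    refine le_of_tendsto ht ?_
    filter_upwards [Ioo_mem_nhdsLT (zero_lt_one (α := ℝ))] with a ha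
    exact key3 a ha.1 ha.2
  rw [Real.arcsin_one] at h6
  rw [bet_two, div_le_iff₀ hβ]
  exact h6

end Pool.Agent.V5helper78.PK
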