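import Mathlib
import Pool.Agent.V5helper78.PK.GB

/-!
# The mean norm of a Gaussian linear map
-/

set_option autoImplicit false

open MeasureTheory ProbabilityTheory Set Metric
open scoped ENNReal NNReal

namespace Pool.Agent.V5helper78.PK

theorem integrable_sq_inner {d : ℕ} (b : EuclideanSpace ℝ (Fin d)) :
    Integrable (fun x => (inner ℝ x b) ^ 2) (stdGaussian (EuclideanSpace ℝ (Fin d))) := by
  have h1 : Integrable (fun x : EuclideanSpace ℝ (Fin d) => ‖x‖ ^ 2 * ‖b‖ ^ 2)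
      (stdGaussian (EuclideanSpace ℝ (Fin d))) := by
    have := (IsGaussian.memLp_two_id (μ := stdGaussian (EuclideanSpace ℝ (Fin d)))).norm.integrable_sq
    exact this.mul_const _
  refine h1.mono' (by fun_prop) (Filter.Eventually.of_forall fun x => ?_)
  rw [Real.norm_eq_abs, abs_of_nonneg (sq_nonneg _), ← mul_pow]
  exact sq_le_sq' (by linarith [neg_abs_le (inner ℝ x b : ℝ), abs_real_inner_le_norm x b])
    (real_inner_le_norm x b)

theorem lint_sq_inner {d : ℕ} (b : EuclideanSpace ℝ (Fin d)) :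
    ∫⁻ x, ENNReal.ofReal ((inner ℝ x b) ^ 2) ∂(stdGaussian (EuclideanSpace ℝ (Fin d))) =
      ENNReal.ofReal (‖b‖ ^ 2) := by
  rw [← ofReal_integral_eq_lintegral_ofReal (integrable_sq_inner b)
    (Filter.Eventually.of_forall fun x => sq_nonneg _), sq_inner]

theorem lint_tp {d : ℕ} (θ : EuclideanSpace ℝ (Fin d)) (hθ : ‖θ‖ = 1)
    (f : EuclideanSpace ℝ (Fin 3) → ℝ≥0∞) (hf : Measurable f) :
    ∫⁻ c, f (tp c θ) ∂(gam d) = ∫⁻ x, f x ∂g3 := by
  rw [← law_tp θ hθ, lintegral_map hf (measurable_tp θ)]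

theorem measurable_ap {d : ℕ} : Measurable (fun p : (Fin 3 → EuclideanSpace ℝ (Fin d)) ×
    EuclideanSpace ℝ (Fin 3) => ap p.1 p.2) := by
  unfold ap
  refine Finset.measurable_sum _ fun j _ => ?_
  have h1 : Measurable (fun p : (Fin 3 → EuclideanSpace ℝ (Fin d)) × EuclideanSpace ℝ (Fin 3) =>
      p.2 j) := by fun_prop
  have h2 : Measurable (fun p : (Fin 3 → EuclideanSpace ℝ (Fin d)) × EuclideanSpace ℝ (Fin 3) =>
      p.1 j) := by fun_prop
  exact h1.smul h2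

theorem norm_ap_sq {d : ℕ} (c : Fin 3 → EuclideanSpace ℝ (Fin d)) (x : EuclideanSpace ℝ (Fin 3)) :
    ‖ap c x‖ ^ 2 = ∑ m : Fin d, (inner ℝ (tp c (EuclideanSpace.single m (1 : ℝ))) x) ^ 2 := by
  rw [EuclideanSpace.real_norm_sq_eq]
  refine Finset.sum_congr rfl fun m _ => ?_
  rw [real_inner_comm, ← ap_tp, EuclideanSpace.inner_single_right]
  simp

theorem lint_ap_sq {d : ℕ} (x : EuclideanSpace ℝ (Fin 3)) :
    ∫⁻ c, ENNReal.ofReal (‖ap c x‖ ^ 2) ∂(gam d) = ENNReal.ofReal (d * ‖x‖ ^ 2) := by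
  simp_rw [norm_ap_sq]
  have e : ∀ c : Fin 3 → EuclideanSpace ℝ (Fin d),
      ENNReal.ofReal (∑ m : Fin d, (inner ℝ (tp c (EuclideanSpace.single m (1 : ℝ))) x) ^ 2) =
      ∑ m : Fin d, ENNReal.ofReal ((inner ℝ (tp c (EuclideanSpace.single m (1 : ℝ))) x) ^ 2) :=
    fun c => ENNReal.ofReal_sum_of_nonneg fun m _ => sq_nonneg _
  simp_rw [e]
  rw [lintegral_finsetSum]
  · have e2 : ∀ m : Fin d, ∫⁻ c, ENNReal.ofReal
        ((inner ℝ (tp c (EuclideanSpace.single m (1 : ℝ))) x) ^ 2) ∂(gam d) =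
        ENNReal.ofReal (‖x‖ ^ 2) := by
      intro m
      rw [lint_tp (EuclideanSpace.single m (1 : ℝ)) (by simp)
        (fun y => ENNReal.ofReal ((inner ℝ y x) ^ 2)) (by fun_prop)]
      exact lint_sq_inner x
    simp_rw [e2]
    rw [Finset.sum_const, Finset.card_univ, Fintype.card_fin, nsmul_eq_mul,
      ENNReal.ofReal_mul (Nat.cast_nonneg d), ENNReal.ofReal_natCast]
  · intro m _
    exact ((by fun_prop : Measurable fun y : EuclideanSpace ℝ (Fin 3) =>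
      ENNReal.ofReal ((inner ℝ y x) ^ 2))).comp (measurable_tp _)

theorem lint_ap {d : ℕ} (hd : 1 ≤ d) (x : EuclideanSpace ℝ (Fin 3)) :
    ∫⁻ c, ENNReal.ofReal ‖ap c x‖ ∂(gam d) ≤ ENNReal.ofReal (Real.sqrt d * ‖x‖) := by
  by_cases hx : x = 0
  · subst hx
    simp [ap]
  have hxp : 0 < ‖x‖ := norm_pos_iff.mpr hx
  have hdp : (0 : ℝ) < d := by exact_mod_cast hd
  set s : ℝ := Real.sqrt d * ‖x‖ with hs
  have hsp : 0 < s := mul_pos (Real.sqrt_pos.2 hdp) hxp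
  have hs2 : s ^ 2 = d * ‖x‖ ^ 2 := by rw [hs, mul_pow, Real.sq_sqrt hdp.le]
  have hm : Measurable (fun c : Fin 3 → EuclideanSpace ℝ (Fin d) => ap c x) :=
    measurable_ap.comp (by fun_prop : Measurable fun c : Fin 3 → EuclideanSpace ℝ (Fin d) => (c, x))
  have h1 : ∀ c : Fin 3 → EuclideanSpace ℝ (Fin d), ENNReal.ofReal ‖ap c x‖ ≤
      ENNReal.ofReal (‖ap c x‖ ^ 2) * ENNReal.ofReal (1 / (2 * s)) + ENNReal.ofReal (s / 2) := by
    intro c
    rw [← ENNReal.ofReal_mul (by positivity), ← ENNReal.ofReal_add (by positivity) (by positivity)]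
    apply ENNReal.ofReal_le_ofReal
    have : 0 ≤ (‖ap c x‖ - s) ^ 2 := sq_nonneg _
    have e : ‖ap c x‖ ^ 2 * (1 / (2 * s)) + s / 2 = (‖ap c x‖ ^ 2 + s ^ 2) / (2 * s) := by
      field_simp
    rw [e, le_div_iff₀ (by positivity)]
    nlinarith
  calc ∫⁻ c, ENNReal.ofReal ‖ap c x‖ ∂(gam d)
      ≤ ∫⁻ c, (ENNReal.ofReal (‖ap c x‖ ^ 2) * ENNReal.ofReal (1 / (2 * s)) +
          ENNReal.ofReal (s / 2)) ∂(gam d) := lintegral_mono h1
    _ = ENNReal.ofReal (d * ‖x‖ ^ 2) * ENNReal.ofReal (1 / (2 * s)) + ENNReal.ofReal (s / 2) := by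
        rw [lintegral_add_right _ measurable_const, lintegral_mul_const _ (by fun_prop), lint_ap_sq,
          lintegral_const, measure_univ, mul_one]
    _ = ENNReal.ofReal s := by
        rw [← ENNReal.ofReal_mul (by positivity), ← ENNReal.ofReal_add (by positivity) (by positivity),
          ← hs2]
        congr 1
        field_simp
        ring

/-- the mean of `E_x |A x|` over the Gaussian maps -/
theorem lint_mean {d : ℕ} (hd : 1 ≤ d) :
    ∫⁻ c, ∫⁻ x, ENNReal.ofReal ‖ap c x‖ ∂g3 ∂(gam d) ≤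
      ENNReal.ofReal (2 * Real.sqrt (2 / Real.pi) * Real.sqrt d) := by
  have hm : Measurable (fun p : (Fin 3 → EuclideanSpace ℝ (Fin d)) × EuclideanSpace ℝ (Fin 3) =>
      ENNReal.ofReal ‖ap p.1 p.2‖) := (measurable_ap.norm).ennreal_ofReal
  rw [lintegral_lintegral_swap hm.aemeasurable]
  calc ∫⁻ x, ∫⁻ c, ENNReal.ofReal ‖ap c x‖ ∂(gam d) ∂g3
      ≤ ∫⁻ x, ENNReal.ofReal (Real.sqrt d * ‖x‖) ∂g3 := lintegral_mono fun x => lint_ap hd x
    _ = ENNReal.ofReal (2 * Real.sqrt (2 / Real.pi) * Real.sqrt d) := by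
        simp_rw [ENNReal.ofReal_mul (Real.sqrt_nonneg (d : ℝ))]
        rw [lintegral_const_mul _ (by fun_prop), lint_norm,
          ← ENNReal.ofReal_mul (Real.sqrt_nonneg _)]
        congr 1
        ring

end Pool.Agent.V5helper78.PK
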