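import Mathlib
import Pool.Agent.Helper934.PlankMain

/-!
# Translates contained in a convex body
-/

set_option autoImplicit false

open Set Metric

namespace Pool.Agent.V5helper78.PK

open Pool.Agent.Helper934.PlankDefs Pool.Agent.Helper934.PlankSupp

/-- If `∑ ⟨y_j, u_j⟩ ≤ ∑ h_K(u_j)` for all finite families with `∑ u_j = 0`, `y_j ∈ L`, then a translate of
`L` is contained in `K`: the case of finitely many points. -/
theorem translate_fin {d : ℕ} {K : Set (EuclideanSpace ℝ (Fin d))} (hK : IsCompact K)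
    (hc : Convex ℝ K) (hne : K.Nonempty) {ι : Type} [Fintype ι]
    (y : ι → EuclideanSpace ℝ (Fin d))
    (h : ∀ u : ι → EuclideanSpace ℝ (Fin d), ∑ j, u j = 0 →
      ∑ j, inner ℝ (y j) (u j) ≤ ∑ j, supp K (u j)) :
    ∃ x : EuclideanSpace ℝ (Fin d), ∀ j, x + y j ∈ K := by
  classical
  by_contra hno
  push Not at hno
  -- the compact convex set of the families `z` with `z j + y j ∈ K`
  let C : Set (ι → EuclideanSpace ℝ (Fin d)) := {z | ∀ j, z j + y j ∈ K}
  let D : Set (ι → EuclideanSpace ℝ (Fin d)) := range (fun x => fun _ : ι => x)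
  have hCpi : C = Set.pi univ (fun j => (fun z => z + y j) ⁻¹' K) := by
    ext z; simp [C, Set.mem_pi]
  have hCc : IsCompact C := by
    rw [hCpi]
    refine isCompact_univ_pi fun j => ?_
    have : (fun z => z + y j) ⁻¹' K = (fun z => z - y j) '' K := by
      ext z
      constructor
      · intro hz
        exact ⟨z + y j, hz, by simp⟩
      · rintro ⟨v, hv, rfl⟩
        simpa using hv
    rw [this]
    exact hK.image (by fun_prop)
  have hCconv : Convex ℝ C := by
    intro z hz z' hz' a b ha hb hab j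
    have := hc (hz j) (hz' j) ha hb hab
    have e : (a • z + b • z') j + y j = a • (z j + y j) + b • (z' j + y j) := by
      simp only [Pi.add_apply, Pi.smul_apply]
      rw [smul_add, smul_add]
      have : y j = a • y j + b • y j := by rw [← add_smul, hab, one_smul]
      nth_rewrite 1 [this]
      abel
    rw [e]; exact this
  have hDconv : Convex ℝ D := by
    rintro _ ⟨x, rfl⟩ _ ⟨x', rfl⟩ a b _ _ _
    exact ⟨a • x + b • x', rfl⟩
  have hDcl : IsClosed D := by
    have : D = (LinearMap.range (LinearMap.pi (fun _ : ι => (LinearMap.id :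
        EuclideanSpace ℝ (Fin d) →ₗ[ℝ] EuclideanSpace ℝ (Fin d)))) : Set (ι → _)) := by
      ext z; simp [D, LinearMap.mem_range, funext_iff]
    rw [this]
    exact Submodule.closed_of_finiteDimensional _
  have hdisj : Disjoint C D := by
    rw [Set.disjoint_left]
    rintro _ hz ⟨x, rfl⟩
    obtain ⟨j, hj⟩ := hno x
    exact hj (hz j)
  obtain ⟨f, u, v, hfu, huv, hfv⟩ := geometric_hahn_banach_compact_closed hCconv hCc hDconv hDcl hdisj
  -- `f` vanishes on constants
  have hf0 : ∀ x : EuclideanSpace ℝ (Fin d), f (fun _ => x) = 0 := by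
    intro x
    by_contra hx
    have key : ∀ t : ℝ, v < t * f (fun _ => x) := by
      intro t
      have := hfv (fun _ => t • x) ⟨t • x, rfl⟩
      have e : (fun _ : ι => t • x) = t • (fun _ : ι => x) := rfl
      rwa [e, map_smul, smul_eq_mul] at this
    have := key ((v - 1) / f (fun _ => x))
    rw [div_mul_cancel₀ _ hx] at this
    linarith
  have hv0 : v < 0 := by
    have := hfv (fun _ => 0) ⟨0, rfl⟩
    rwa [hf0] at this
  -- the vectors representing `f`
  let w : ι → EuclideanSpace ℝ (Fin d) := fun j =>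
    (InnerProductSpace.toDual ℝ _).symm (f.comp (ContinuousLinearMap.single ℝ (fun _ => EuclideanSpace ℝ (Fin d)) j))
  have hw : ∀ z : ι → EuclideanSpace ℝ (Fin d), f z = ∑ j, inner ℝ (z j) (w j) := by
    intro z
    have h1 : z = ∑ j, Pi.single j (z j) := (Finset.univ_sum_single z).symm
    conv_lhs => rw [h1, map_sum]
    refine Finset.sum_congr rfl fun j _ => ?_
    rw [real_inner_comm, InnerProductSpace.toDual_symm_apply]
    rfl
  have hsum : ∑ j, w j = 0 := by
    have : ∀ x : EuclideanSpace ℝ (Fin d), inner ℝ x (∑ j, w j) = 0 := by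
      intro x
      rw [inner_sum, ← hw (fun _ => x)]
      exact hf0 x
    exact inner_self_eq_zero.1 (this _)
  have h1 := h w hsum
  -- a family in `C` where the inner products are the support values
  choose z hzK hz using fun j => exists_supp hK hne (w j)
  have h2 := hfu (fun j => z j - y j) (fun j => by simpa using hzK j)
  rw [hw] at h2
  simp only [inner_sub_left, Finset.sum_sub_distrib, hz] at h2
  linarith

/-- If `∑ ⟨y_j, u_j⟩ ≤ ∑ h_K(u_j)` for all finite families with `∑ u_j = 0`, `y_j ∈ L`, then a translate of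
`L` is contained in `K`. -/
theorem translate_mem {d : ℕ} {K : Set (EuclideanSpace ℝ (Fin d))} (hK : IsCompact K)
    (hc : Convex ℝ K) (hne : K.Nonempty) (L : Set (EuclideanSpace ℝ (Fin d)))
    (h : ∀ (s : Finset (EuclideanSpace ℝ (Fin d))), (∀ y ∈ s, y ∈ L) →
      ∀ u : s → EuclideanSpace ℝ (Fin d), ∑ j, u j = 0 →
      ∑ j : s, inner ℝ (j : EuclideanSpace ℝ (Fin d)) (u j) ≤ ∑ j, supp K (u j)) :
    ∃ x : EuclideanSpace ℝ (Fin d), ∀ y ∈ L, x + y ∈ K := by
  classical
  by_contra hno
  push Not at hno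
  by_cases hL : L.Nonempty
  · obtain ⟨y₀, hy₀⟩ := hL
    -- the compact sets `K - y`
    have hcomp : IsCompact ((fun z => z - y₀) '' K) := hK.image (by fun_prop)
    have hclosed : ∀ y : L, IsClosed ((fun z => z + (y : EuclideanSpace ℝ (Fin d))) ⁻¹' K) :=
      fun y => hK.isClosed.preimage (by fun_prop)
    have hempty : ((fun z => z - y₀) '' K) ∩ ⋂ y : L,
        ((fun z => z + (y : EuclideanSpace ℝ (Fin d))) ⁻¹' K) = ∅ := by
      rw [Set.eq_empty_iff_forall_notMem]
      rintro x ⟨-, hx⟩
      obtain ⟨y, hy, hxy⟩ := hno x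
      rw [mem_iInter] at hx
      exact hxy (hx ⟨y, hy⟩)
    obtain ⟨t, ht⟩ := hcomp.elim_finite_subfamily_closed _ hclosed hempty
    let s : Finset (EuclideanSpace ℝ (Fin d)) := insert y₀ (t.image (fun y : L => (y : EuclideanSpace ℝ (Fin d))))
    have hs : ∀ y ∈ s, y ∈ L := by
      intro y hy
      rcases Finset.mem_insert.1 hy with rfl | hy
      · exact hy₀
      · obtain ⟨z, _, rfl⟩ := Finset.mem_image.1 hy
        exact z.2
    obtain ⟨x, hx⟩ := translate_fin hK hc hne (fun j : s => (j : EuclideanSpace ℝ (Fin d))) (h s hs)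
    have : x ∈ ((fun z => z - y₀) '' K) ∩ ⋂ y ∈ t,
        ((fun z => z + (y : EuclideanSpace ℝ (Fin d))) ⁻¹' K) := by
      refine ⟨⟨x + y₀, hx ⟨y₀, Finset.mem_insert_self _ _⟩, by simp⟩, ?_⟩
      simp only [mem_iInter]
      intro y hy
      exact hx ⟨y, Finset.mem_insert_of_mem (Finset.mem_image_of_mem _ hy)⟩
    rw [ht] at this
    exact this
  · obtain ⟨y, hy, _⟩ := hno 0
    exact hL ⟨y, hy⟩

end Pool.Agent.V5helper78.PK
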