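import Mathlib
import Pool.Agent.V5helper78.PK.ZL
import Pool.Agent.V5helper78.PK.GC

/-!
# Ellipsoids in a convex body, and the covering inequality for one linear map
-/

set_option autoImplicit false

open MeasureTheory ProbabilityTheory Set Metric
open scoped ENNReal NNReal

namespace Pool.Agent.V5helper78.PK

open Pool.Agent.Helper934.PlankDefs Pool.Agent.Helper934.PlankSupp Pool.Agent.Helper934.PlankMain
  Pool.Agent.Helper934.PlankCore

variable {d : ℕ}

/-- the pointwise inequality -/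
theorem sum_abs_le {K : Set (EuclideanSpace ℝ (Fin d))} (hK : IsCompact K) (hne : K.Nonempty)
    (hw : 0 ≤ minWidth K) {ι : Type} [Fintype ι] (u : ι → EuclideanSpace ℝ (Fin d))
    (hu : ∑ j, u j = 0) (v : EuclideanSpace ℝ (Fin d)) :
    minWidth K * ∑ j, |inner ℝ v (u j)| ≤ 2 * ‖v‖ * ∑ j, supp K (u j) := by
  classical
  set S : Finset ι := Finset.univ.filter (fun j => 0 ≤ (inner ℝ v (u j) : ℝ)) with hS
  set U := ∑ j ∈ S, u j with hU
  have h0 : ∑ j ∈ S, u j + ∑ j ∈ Sᶜ, u j = 0 := by rw [Finset.sum_add_sum_compl, hu]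
  have hUc : -U = ∑ j ∈ Sᶜ, u j := by
    rw [hU]; exact neg_eq_of_add_eq_zero_right h0
  have h1 : ∑ j, |inner ℝ v (u j)| = 2 * inner ℝ v U := by
    rw [← Finset.sum_add_sum_compl S]
    have a1 : ∑ j ∈ S, |(inner ℝ v (u j) : ℝ)| = inner ℝ v U := by
      rw [hU, inner_sum]
      exact Finset.sum_congr rfl fun j hj => abs_of_nonneg (Finset.mem_filter.1 hj).2
    have a2 : ∑ j ∈ Sᶜ, |(inner ℝ v (u j) : ℝ)| = inner ℝ v U := by
      have : inner ℝ v U = -∑ j ∈ Sᶜ, (inner ℝ v (u j) : ℝ) := by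
        rw [← inner_sum, ← hUc, inner_neg_right, neg_neg]
      rw [this, ← Finset.sum_neg_distrib]
      refine Finset.sum_congr rfl fun j hj => abs_of_nonpos ?_
      rw [Finset.mem_compl, hS, Finset.mem_filter] at hj
      push Not at hj
      exact (hj (Finset.mem_univ _)).le
    rw [a1, a2]; ring
  have h2 : minWidth K * ‖U‖ ≤ ∑ j, supp K (u j) := by
    have b1 := minWidth_mul_le hK hne U
    have b2 := supp_sum hK hne S u
    have b3 := supp_sum hK hne Sᶜ u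
    rw [← hUc] at b3
    rw [← Finset.sum_add_sum_compl S (fun j => supp K (u j))]
    rw [← hU] at b2
    linarith
  rw [h1]
  have h3 : (inner ℝ v U : ℝ) ≤ ‖v‖ * ‖U‖ := real_inner_le_norm _ _
  have h4 := norm_nonneg v
  nlinarith [mul_le_mul_of_nonneg_left h3 hw, mul_le_mul_of_nonneg_left h2 h4]

theorem norm_tp_eq (c : Fin 3 → EuclideanSpace ℝ (Fin d)) (u : EuclideanSpace ℝ (Fin d)) :
    Real.sqrt (2 / Real.pi) * ‖tp c u‖ = ∫ x, |inner ℝ (ap c x) u| ∂g3 := by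
  rw [← abs_inner (tp c u)]
  simp_rw [ap_tp]

theorem measurable_ap1 (c : Fin 3 → EuclideanSpace ℝ (Fin d)) : Measurable (fun x => ap c x) :=
  measurable_ap.comp (by fun_prop : Measurable fun x : EuclideanSpace ℝ (Fin 3) => (c, x))

theorem integrable_ap (c : Fin 3 → EuclideanSpace ℝ (Fin d)) :
    Integrable (fun x => ‖ap c x‖) g3 := by
  have h1 : Integrable (fun x : EuclideanSpace ℝ (Fin 3) => ‖x‖ * ∑ j, ‖c j‖) g3 :=
    integrable_norm_std.mul_const _
  refine h1.mono' (measurable_ap1 c).norm.aestronglyMeasurable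
    (Filter.Eventually.of_forall fun x => ?_)
  rw [norm_norm]
  unfold ap
  refine (norm_sum_le _ _).trans ?_
  rw [Finset.mul_sum]
  refine Finset.sum_le_sum fun j _ => ?_
  rw [norm_smul]
  exact mul_le_mul_of_nonneg_right (PiLp.norm_apply_le x j) (norm_nonneg _)

/-- the mean norm of `c` -/
noncomputable def mn (c : Fin 3 → EuclideanSpace ℝ (Fin d)) : ℝ := ∫ x, ‖ap c x‖ ∂g3

theorem mn_nonneg (c : Fin 3 → EuclideanSpace ℝ (Fin d)) : 0 ≤ mn c :=
  integral_nonneg fun _ => norm_nonneg _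

theorem sqrt_consts : 2 * Real.sqrt (2 / Real.pi)⁻¹ = Real.sqrt (2 * Real.pi) := by
  have hpi := Real.pi_pos
  have h : (2 * Real.pi) = (2 * Real.sqrt (2 / Real.pi)⁻¹) ^ 2 := by
    rw [mul_pow, Real.sq_sqrt (by positivity)]
    field_simp
  rw [h, Real.sqrt_sq (by positivity)]

/-- an ellipsoid in `K` -/
theorem ball_in {K : Set (EuclideanSpace ℝ (Fin d))} (hK : IsCompact K) (hc : Convex ℝ K)
    (hne : K.Nonempty) (hw : 0 < minWidth K) (c : Fin 3 → EuclideanSpace ℝ (Fin d)) (ρ : ℝ)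
    (hρ : 0 ≤ ρ) (h : ρ * Real.sqrt (2 * Real.pi) * mn c ≤ minWidth K) :
    ∃ x₀ : EuclideanSpace ℝ (Fin d), ∀ ω : EuclideanSpace ℝ (Fin 3), ‖ω‖ ≤ 1 →
      x₀ + ρ • ap c ω ∈ K := by
  obtain ⟨x₀, hx⟩ := translate_mem hK hc hne {y | ∃ ω : EuclideanSpace ℝ (Fin 3), ‖ω‖ ≤ 1 ∧
    y = ρ • ap c ω} (by
    intro s hs u hu
    have hH : 0 ≤ ∑ j, supp K (u j) := by
      have := supp_sum hK hne Finset.univ u
      rwa [hu, supp_zero hK hne] at this
    set H := ∑ j, supp K (u j) with hHdef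
    set κ := Real.sqrt (2 / Real.pi)⁻¹ with hκ
    have hκ0 : 0 ≤ κ := Real.sqrt_nonneg _
    have hκ1 : κ * Real.sqrt (2 / Real.pi) = 1 := by
      rw [hκ, Real.sqrt_inv]
      have : Real.sqrt (2 / Real.pi) ≠ 0 := (Real.sqrt_pos.2 (by positivity)).ne'
      exact inv_mul_cancel₀ this
    -- each term
    have h1 : ∀ j : s, inner ℝ (j : EuclideanSpace ℝ (Fin d)) (u j) ≤
        ρ * κ * ∫ x, |inner ℝ (ap c x) (u j)| ∂g3 := by
      intro j
      obtain ⟨ω, hω, hj⟩ := hs j j.2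
      rw [hj, inner_smul_left, ap_tp, ← norm_tp_eq]
      have e : ρ * κ * (Real.sqrt (2 / Real.pi) * ‖tp c (u j)‖) = ρ * ‖tp c (u j)‖ := by
        rw [show ρ * κ * (Real.sqrt (2 / Real.pi) * ‖tp c (u j)‖) =
          (κ * Real.sqrt (2 / Real.pi)) * (ρ * ‖tp c (u j)‖) by ring, hκ1, one_mul]
      rw [e]
      simp only [conj_trivial]
      refine mul_le_mul_of_nonneg_left ?_ hρ
      refine (real_inner_le_norm _ _).trans ?_
      nlinarith [norm_nonneg (tp c (u j))]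
    have hint : ∀ j : s, Integrable (fun x => |(inner ℝ (ap c x) (u j) : ℝ)|) g3 := by
      intro j
      refine ((integrable_ap c).mul_const ‖u j‖).mono' ?_ (Filter.Eventually.of_forall fun x => ?_)
      · have := (measurable_ap1 c).inner (measurable_const (a := u j)) (𝕜 := ℝ)
        exact this.abs.aestronglyMeasurable
      · rw [Real.norm_eq_abs, abs_abs]
        exact abs_real_inner_le_norm _ _
    have h2 : ∑ j : s, inner ℝ (j : EuclideanSpace ℝ (Fin d)) (u j) ≤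
        ρ * κ * ∫ x, ∑ j : s, |inner ℝ (ap c x) (u j)| ∂g3 := by
      rw [integral_finsetSum _ (fun j _ => hint j), Finset.mul_sum]
      exact Finset.sum_le_sum fun j _ => h1 j
    have h3 : minWidth K * ∫ x, ∑ j : s, |inner ℝ (ap c x) (u j)| ∂g3 ≤ 2 * mn c * H := by
      rw [← integral_const_mul]
      have e : 2 * mn c * H = ∫ x, 2 * ‖ap c x‖ * H ∂g3 := by
        rw [integral_mul_const, integral_const_mul]
        rfl
      rw [e]
      refine integral_mono ((integrable_finsetSum _ fun j _ => hint j).const_mul _)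
        (((integrable_ap c).const_mul 2).mul_const H) fun x => ?_
      exact sum_abs_le hK hne hw.le u hu (ap c x)
    have h4 : minWidth K * ∑ j : s, inner ℝ (j : EuclideanSpace ℝ (Fin d)) (u j) ≤
        minWidth K * H := by
      calc minWidth K * ∑ j : s, inner ℝ (j : EuclideanSpace ℝ (Fin d)) (u j)
          ≤ minWidth K * (ρ * κ * ∫ x, ∑ j : s, |inner ℝ (ap c x) (u j)| ∂g3) :=
            mul_le_mul_of_nonneg_left h2 hw.le
        _ = ρ * κ * (minWidth K * ∫ x, ∑ j : s, |inner ℝ (ap c x) (u j)| ∂g3) := by ring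
        _ ≤ ρ * κ * (2 * mn c * H) := mul_le_mul_of_nonneg_left h3 (by positivity)
        _ = (ρ * (2 * κ) * mn c) * H := by ring
        _ = (ρ * Real.sqrt (2 * Real.pi) * mn c) * H := by rw [hκ, sqrt_consts]
        _ ≤ minWidth K * H := mul_le_mul_of_nonneg_right h hH
    exact le_of_mul_le_mul_left h4 hw)
  exact ⟨x₀, fun ω hω => hx _ ⟨ω, hω, rfl⟩⟩

/-- the covering inequality for one linear map -/
theorem cover_one {K : Set (EuclideanSpace ℝ (Fin d))} (hK : IsCompact K) (hc : Convex ℝ K)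
    (hne : K.Nonempty) (hw : 0 < minWidth K) (c : Fin 3 → EuclideanSpace ℝ (Fin d)) (ρ : ℝ)
    (hρ : 0 < ρ) (h : ρ * Real.sqrt (2 * Real.pi) * mn c ≤ minWidth K)
    {k m : ℕ} (θ : Fin m → EuclideanSpace ℝ (Fin d)) (a b : Fin m → ℝ)
    (hcov : IsFoldCover K k θ a b) (hθ : ∀ i, tp c (θ i) ≠ 0) :
    2 * (k : ℝ) * ρ ≤ ∑ i, (b i - a i) * ‖tp c (θ i)‖⁻¹ := by
  obtain ⟨x₀, hx⟩ := ball_in hK hc hne hw c ρ hρ.le h
  have hpos : ∀ i, 0 < ‖tp c (θ i)‖ := fun i => norm_pos_iff.mpr (hθ i)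
  have hb := ball3 (0 : EuclideanSpace ℝ (Fin 3)) 1 one_pos k
    (fun i => ‖tp c (θ i)‖⁻¹ • tp c (θ i))
    (fun i => (a i - inner ℝ x₀ (θ i)) * (ρ * ‖tp c (θ i)‖)⁻¹)
    (fun i => (b i - inner ℝ x₀ (θ i)) * (ρ * ‖tp c (θ i)‖)⁻¹)
    (fun i => by
      rw [norm_smul, norm_inv, norm_norm]
      exact inv_mul_cancel₀ (hpos i).ne')
    (fun i => by
      have := hcov.2.1 i
      exact mul_le_mul_of_nonneg_right (by linarith) (by positivity))
    (fun ω hω => by
      have hω1 : ‖ω‖ ≤ 1 := by simpa [mem_closedBall, dist_zero_right] using hω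
      have h1 := hcov.2.2 _ (hx ω hω1)
      refine h1.trans (le_of_eq ?_)
      refine Nat.card_congr (Equiv.subtypeEquivRight fun i => ?_)
      have hi := hpos i
      have e1 : (inner ℝ (x₀ + ρ • ap c ω) (θ i) : ℝ) =
          inner ℝ x₀ (θ i) + ρ * inner ℝ ω (tp c (θ i)) := by
        rw [inner_add_left, inner_smul_left, ap_tp]
        simp
      have e2 : (inner ℝ ω (‖tp c (θ i)‖⁻¹ • tp c (θ i)) : ℝ) =
          (ρ * inner ℝ ω (tp c (θ i))) * (ρ * ‖tp c (θ i)‖)⁻¹ := by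
        rw [inner_smul_right]
        field_simp
      have hq : 0 < (ρ * ‖tp c (θ i)‖)⁻¹ := by positivity
      simp only [plank, mem_ofPred_eq]
      rw [e1, e2, mul_le_mul_iff_left₀ hq, mul_le_mul_iff_left₀ hq]
      constructor
      · rintro ⟨h1, h2⟩
        constructor <;> linarith
      · rintro ⟨h1, h2⟩
        constructor <;> linarith)
  rw [mul_one] at hb
  have e : ∀ i, (b i - inner ℝ x₀ (θ i)) * (ρ * ‖tp c (θ i)‖)⁻¹ -
      (a i - inner ℝ x₀ (θ i)) * (ρ * ‖tp c (θ i)‖)⁻¹ = ρ⁻¹ * ((b i - a i) * ‖tp c (θ i)‖⁻¹) := by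
    intro i
    rw [mul_inv]
    ring
  simp_rw [e] at hb
  rw [← Finset.mul_sum] at hb
  calc 2 * (k : ℝ) * ρ ≤ (ρ⁻¹ * ∑ i, (b i - a i) * ‖tp c (θ i)‖⁻¹) * ρ :=
        mul_le_mul_of_nonneg_right hb hρ.le
    _ = ∑ i, (b i - a i) * ‖tp c (θ i)‖⁻¹ := by field_simp

end Pool.Agent.V5helper78.PK
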