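import Mathlib
import Pool.Agent.V5helper78.PK.GD

/-!
# The lower bound for the total width in all dimensions
-/

set_option autoImplicit false

open MeasureTheory ProbabilityTheory Set Metric
open scoped ENNReal NNReal

namespace Pool.Agent.V5helper78.PK

open Pool.Agent.Helper934.PlankDefs Pool.Agent.Helper934.PlankSupp Pool.Agent.Helper934.PlankMain
  Pool.Agent.Helper934.PlankCore

variable {d : ℕ}

theorem ae_tp_ne (θ : EuclideanSpace ℝ (Fin d)) (hθ : ‖θ‖ = 1) : ∀ᵐ c ∂(gam d), tp c θ ≠ 0 := by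
  rw [ae_iff]
  simp only [not_not]
  have h : {c : Fin 3 → EuclideanSpace ℝ (Fin d) | tp c θ = 0} = (fun c => tp c θ) ⁻¹' {0} := rfl
  rw [h, ← Measure.map_apply (measurable_tp θ) (measurableSet_singleton _), law_tp θ hθ, g3_zero]

theorem tangent {κ s M R : ℝ} (hκ : 0 ≤ κ) (hs : 0 < s) (hM : 0 < M) (h : κ ≤ M * R) :
    κ * 2 / s ≤ κ / s ^ 2 * M + R := by
  have h1 : κ / M ≤ R := by rw [div_le_iff₀ hM]; linarith
  have h2 : κ * 2 / s - κ / s ^ 2 * M ≤ κ / M := by
    have e : κ / M - (κ * 2 / s - κ / s ^ 2 * M) = κ * (s - M) ^ 2 / (s ^ 2 * M) := by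
      field_simp
      ring
    have : 0 ≤ κ * (s - M) ^ 2 / (s ^ 2 * M) := by positivity
    linarith
  linarith

theorem total_ge_dim (hd : 1 ≤ d) {K : Set (EuclideanSpace ℝ (Fin d))} (hb : IsConvexBody K)
    (k m : ℕ) (θ : Fin m → EuclideanSpace ℝ (Fin d)) (a b : Fin m → ℝ)
    (hcov : IsFoldCover K k θ a b) :
    Real.sqrt (Real.pi / (8 * d)) * minWidth K * k ≤ ∑ i, (b i - a i) := by
  have hP : 0 ≤ ∑ i, (b i - a i) := Finset.sum_nonneg fun i _ => sub_nonneg.mpr (hcov.2.1 i)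
  rcases Nat.eq_zero_or_pos k with rfl | hk
  · simpa using hP
  have hw := minWidth_pos hd hb
  have hne : K.Nonempty := hb.2.2.mono interior_subset
  have hkp : (0 : ℝ) < k := by exact_mod_cast hk
  have hdp : (0 : ℝ) < d := by exact_mod_cast hd
  have hpi := Real.pi_pos
  set w := minWidth K with hwdef
  set q : ℝ := Real.sqrt (2 * Real.pi) with hq
  have hqp : 0 < q := Real.sqrt_pos.2 (by positivity)
  set t : ℝ := Real.sqrt (2 / Real.pi) with ht
  have htp : 0 < t := Real.sqrt_pos.2 (by positivity)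
  set s : ℝ := 2 * t * Real.sqrt d with hs
  have hsp : 0 < s := by have := Real.sqrt_pos.2 hdp; positivity
  set κ : ℝ := 2 * k * w / q with hκ
  have hκp : 0 < κ := by positivity
  -- pointwise inequality
  have hpt : ∀ᵐ c ∂(gam d), ENNReal.ofReal (κ * 2 / s) ≤
      ENNReal.ofReal (κ / s ^ 2) * ∫⁻ x, ENNReal.ofReal ‖ap c x‖ ∂g3 +
        ∑ i, ENNReal.ofReal (b i - a i) * ENNReal.ofReal (‖tp c (θ i)‖⁻¹) := by
    have hall : ∀ᵐ c ∂(gam d), ∀ i, tp c (θ i) ≠ 0 :=
      ae_all_iff.2 fun i => ae_tp_ne (θ i) (hcov.1 i)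
    filter_upwards [hall] with c hc
    set R : ℝ := ∑ i, (b i - a i) * ‖tp c (θ i)‖⁻¹ with hR
    have hR0 : 0 ≤ R := Finset.sum_nonneg fun i _ =>
      mul_nonneg (sub_nonneg.mpr (hcov.2.1 i)) (inv_nonneg.2 (norm_nonneg _))
    have hM : 0 < mn c := by
      rcases (mn_nonneg c).lt_or_eq with h | h
      · exact h
      · exfalso
        have h1 := cover_one hb.1 hb.2.1 hne hw c (R + 1) (by linarith) (by
          rw [← h, mul_zero]; exact hw.le) θ a b hcov hc
        rw [← hR] at h1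
        have : (1 : ℝ) ≤ k := by exact_mod_cast hk
        nlinarith
    have h1 := cover_one hb.1 hb.2.1 hne hw c (w / (q * mn c)) (by positivity) (by
      rw [← hq]
      have : w / (q * mn c) * q * mn c = w := by field_simp
      rw [this]) θ a b hcov hc
    rw [← hR] at h1
    have h2 : κ ≤ mn c * R := by
      have e : κ = mn c * (2 * k * (w / (q * mn c))) := by
        rw [hκ]; field_simp
      rw [e]
      exact mul_le_mul_of_nonneg_left h1 hM.le
    have h3 := tangent hκp.le hsp hM h2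
    have h4 : ENNReal.ofReal (mn c) = ∫⁻ x, ENNReal.ofReal ‖ap c x‖ ∂g3 :=
      ofReal_integral_eq_lintegral_ofReal (integrable_ap c)
        (Filter.Eventually.of_forall fun x => norm_nonneg _)
    have h5 : ENNReal.ofReal R =
        ∑ i, ENNReal.ofReal (b i - a i) * ENNReal.ofReal (‖tp c (θ i)‖⁻¹) := by
      rw [hR, ENNReal.ofReal_sum_of_nonneg fun i _ =>
        mul_nonneg (sub_nonneg.mpr (hcov.2.1 i)) (inv_nonneg.2 (norm_nonneg _))]
      exact Finset.sum_congr rfl fun i _ => ENNReal.ofReal_mul (sub_nonneg.mpr (hcov.2.1 i))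
    rw [← h4, ← h5, ← ENNReal.ofReal_mul (by positivity),
      ← ENNReal.ofReal_add (by positivity) hR0]
    exact ENNReal.ofReal_le_ofReal h3
  -- integrate
  have hmeas1 : Measurable (fun c : Fin 3 → EuclideanSpace ℝ (Fin d) =>
      ∫⁻ x, ENNReal.ofReal ‖ap c x‖ ∂g3) := by
    have : Measurable (fun p : (Fin 3 → EuclideanSpace ℝ (Fin d)) × EuclideanSpace ℝ (Fin 3) =>
      ENNReal.ofReal ‖ap p.1 p.2‖) := (measurable_ap.norm).ennreal_ofReal
    exact this.lintegral_prod_right'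
  have hmeas2 : ∀ i, Measurable (fun c : Fin 3 → EuclideanSpace ℝ (Fin d) =>
      ENNReal.ofReal (b i - a i) * ENNReal.ofReal (‖tp c (θ i)‖⁻¹)) := fun i =>
    ((measurable_tp (θ i)).norm.inv.ennreal_ofReal).const_mul _
  have hint := lintegral_mono_ae hpt
  rw [lintegral_const, measure_univ, mul_one, lintegral_add_left (hmeas1.const_mul _),
    lintegral_const_mul _ hmeas1, lintegral_finsetSum _ (fun i _ => hmeas2 i)] at hint
  have hterm : ∀ i, ∫⁻ c, ENNReal.ofReal (b i - a i) * ENNReal.ofReal (‖tp c (θ i)‖⁻¹) ∂(gam d) =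
      ENNReal.ofReal ((b i - a i) * t) := by
    intro i
    have hmi : Measurable (fun c : Fin 3 → EuclideanSpace ℝ (Fin d) =>
        ENNReal.ofReal (‖tp c (θ i)‖⁻¹)) := (measurable_tp (θ i)).norm.inv.ennreal_ofReal
    rw [lintegral_const_mul _ hmi,
      lint_tp (θ i) (hcov.1 i) (fun x => ENNReal.ofReal (‖x‖⁻¹)) (by fun_prop), lint_inv_norm,
      ← ENNReal.ofReal_mul (sub_nonneg.mpr (hcov.2.1 i))]
  simp_rw [hterm] at hint
  rw [← ENNReal.ofReal_sum_of_nonneg fun i _ =>
    mul_nonneg (sub_nonneg.mpr (hcov.2.1 i)) htp.le, ← Finset.sum_mul] at hint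
  have hmean : ENNReal.ofReal (κ / s ^ 2) * ∫⁻ c, ∫⁻ x, ENNReal.ofReal ‖ap c x‖ ∂g3 ∂(gam d) ≤
      ENNReal.ofReal (κ / s) := by
    refine (mul_le_mul_right (lint_mean hd) _).trans (le_of_eq ?_)
    rw [← ENNReal.ofReal_mul (by positivity)]
    congr 1
    rw [← ht, ← hs]
    field_simp
  have h6 : ENNReal.ofReal (κ * 2 / s) ≤
      ENNReal.ofReal (κ / s) + ENNReal.ofReal ((∑ i, (b i - a i)) * t) :=
    hint.trans (add_le_add_left hmean _)
  rw [← ENNReal.ofReal_add (by positivity) (by positivity)] at h6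
  have h7 : κ * 2 / s ≤ κ / s + (∑ i, (b i - a i)) * t :=
    (ENNReal.ofReal_le_ofReal_iff (by positivity)).1 h6
  have h8 : κ / s ≤ (∑ i, (b i - a i)) * t := by
    have e : κ * 2 / s = κ / s + κ / s := by ring
    linarith
  -- constants
  have hqt : q * t = 2 := by
    rw [hq, ht, ← Real.sqrt_mul (by positivity)]
    have : 2 * Real.pi * (2 / Real.pi) = 2 ^ 2 := by field_simp
    rw [this, Real.sqrt_sq (by norm_num)]
  have e1 : κ / s = k * w / (2 * Real.sqrt d) := by
    have hsd := Real.sqrt_pos.2 hdp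
    have : κ / s = 2 * k * w / (q * t * (2 * Real.sqrt d)) := by
      rw [hκ, hs]; field_simp
    rw [this, hqt]
    field_simp
  have e2 : Real.sqrt (Real.pi / (8 * d)) * t = 1 / (2 * Real.sqrt d) := by
    rw [ht, ← Real.sqrt_mul (by positivity)]
    have : Real.pi / (8 * d) * (2 / Real.pi) = 1 / (2 ^ 2 * d) := by field_simp; norm_num
    rw [this, Real.sqrt_div zero_le_one, Real.sqrt_one, Real.sqrt_mul (by positivity),
      Real.sqrt_sq (by norm_num)]
  have h9 : Real.sqrt (Real.pi / (8 * d)) * w * k * t ≤ (∑ i, (b i - a i)) * t := by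
    refine le_trans (le_of_eq ?_) h8
    rw [e1]
    calc Real.sqrt (Real.pi / (8 * d)) * w * k * t
        = (Real.sqrt (Real.pi / (8 * d)) * t) * (w * k) := by ring
      _ = k * w / (2 * Real.sqrt d) := by rw [e2]; ring
  exact le_of_mul_le_mul_right h9 htp

end Pool.Agent.V5helper78.PK
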