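import Mathlib
import Pool.Agent.V5helper78.PK.GE
import Pool.Agent.V5helper78.PK.HG
import Pool.Agent.V5helper78.PK.HS

/-!
# The lower bound for the total width by orthonormal frames
-/

set_option autoImplicit false

open MeasureTheory ProbabilityTheory Set Metric
open scoped ENNReal NNReal

namespace Pool.Agent.V5helper78.PK

open Pool.Agent.Helper934.PlankDefs Pool.Agent.Helper934.PlankSupp Pool.Agent.Helper934.PlankMain
  Pool.Agent.Helper934.PlankCore
open Pool.Agent.H703R2.LP (GG act haarG exists_act continuous_act act_mul)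

variable {d : ℕ}

theorem exists_triple (hd : 3 ≤ d) : ∃ b : Fin 3 → EuclideanSpace ℝ (Fin d), Orthonormal ℝ b := by
  refine ⟨fun i => EuclideanSpace.basisFun (Fin d) ℝ (Fin.castLE hd i), ?_⟩
  exact (EuclideanSpace.basisFun (Fin d) ℝ).orthonormal.comp _ (Fin.castLE_injective hd)

theorem norm_ap {c : Fin 3 → EuclideanSpace ℝ (Fin d)} (hc : Orthonormal ℝ c)
    (x : EuclideanSpace ℝ (Fin 3)) : ‖ap c x‖ = ‖x‖ := by
  have hnorm : ‖ap c x‖ ^ 2 = ‖x‖ ^ 2 := by
    unfold ap
    rw [← real_inner_self_eq_norm_sq, hc.inner_sum, EuclideanSpace.norm_sq_eq]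
    refine Finset.sum_congr rfl fun i _ => ?_
    rw [Real.norm_eq_abs, sq_abs, conj_trivial, sq]
  have := congrArg Real.sqrt hnorm
  rwa [Real.sqrt_sq (norm_nonneg _), Real.sqrt_sq (norm_nonneg _)] at this

theorem mn_eq {c : Fin 3 → EuclideanSpace ℝ (Fin d)} (hc : Orthonormal ℝ c) :
    mn c = 2 * Real.sqrt (2 / Real.pi) := by
  unfold mn
  simp_rw [norm_ap hc]
  have h := ofReal_integral_eq_lintegral_ofReal (μ := g3)
    (f := fun x : EuclideanSpace ℝ (Fin 3) => ‖x‖) integrable_norm_std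
    (Filter.Eventually.of_forall fun x => norm_nonneg x)
  rw [lint_norm] at h
  exact (ENNReal.ofReal_eq_ofReal_iff (integral_nonneg fun _ => norm_nonneg _) (by positivity)).1 h

theorem four_eq {c : Fin 3 → EuclideanSpace ℝ (Fin d)} (hc : Orthonormal ℝ c) {w : ℝ} :
    w / 4 * Real.sqrt (2 * Real.pi) * mn c = w := by
  have hpi := Real.pi_pos
  rw [mn_eq hc]
  have h : Real.sqrt (2 * Real.pi) * Real.sqrt (2 / Real.pi) = 2 := by
    rw [← Real.sqrt_mul (by positivity)]
    have : 2 * Real.pi * (2 / Real.pi) = 2 ^ 2 := by field_simp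
    rw [this, Real.sqrt_sq (by norm_num)]
  calc w / 4 * Real.sqrt (2 * Real.pi) * (2 * Real.sqrt (2 / Real.pi))
      = w / 2 * (Real.sqrt (2 * Real.pi) * Real.sqrt (2 / Real.pi)) := by ring
    _ = w := by rw [h]; ring

/-- every `k`-fold covering has total width at least `(β_d / 2) w k` -/
theorem total_ge_frame (hd : 3 ≤ d) {K : Set (EuclideanSpace ℝ (Fin d))} (hb : IsConvexBody K)
    (k m : ℕ) (θ : Fin m → EuclideanSpace ℝ (Fin d)) (a b : Fin m → ℝ)
    (hcov : IsFoldCover K k θ a b) :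
    bet d / 2 * minWidth K * k ≤ ∑ i, (b i - a i) := by
  have hd1 : 1 ≤ d := by omega
  have hd2 : 2 ≤ d := by omega
  have hw := minWidth_pos hd1 hb
  have hne : K.Nonempty := hb.2.2.mono interior_subset
  have hβ := bet_pos hd2
  obtain ⟨e, he⟩ := exists_triple hd
  set c : GG d → Fin 3 → EuclideanSpace ℝ (Fin d) := fun g j => act g (e j) with hc
  have hco : ∀ g, Orthonormal ℝ (c g) := fun g => he.comp_linearIsometryEquiv (act g)
  have htp : ∀ g x, tp (c g) x = pj e (act g⁻¹ x) := by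
    intro g x
    unfold tp pj
    congr 1
    funext j
    exact inner_act g (e j) x
  have hmeas : ∀ i, Measurable fun g : GG d => (ENNReal.ofReal ‖pj e (act g⁻¹ (θ i))‖)⁻¹ := by
    intro i
    have hcont : Continuous fun g : GG d => act g⁻¹ (θ i) :=
      continuous_act.comp (continuous_inv.prodMk continuous_const)
    exact (((continuous_pj e).comp hcont).measurable.norm.ennreal_ofReal).inv
  have havg : ∀ i, ∫⁻ g, (ENNReal.ofReal ‖pj e (act g⁻¹ (θ i))‖)⁻¹ ∂(haarG d) =
      haarG d univ * ENNReal.ofReal (1 / bet d) := by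
    intro i
    have := avg_inv (m := 3) (by norm_num) hd2 he (hcov.1 i)
    rwa [bet_three] at this
  have hH0 : haarG d univ ≠ 0 := (isOpen_univ.measure_pos _ univ_nonempty).ne'
  have hfin : ∀ᵐ g ∂(haarG d), ∀ i, (ENNReal.ofReal ‖pj e (act g⁻¹ (θ i))‖)⁻¹ < ⊤ := by
    rw [ae_all_iff]
    intro i
    refine ae_lt_top (hmeas i) ?_
    rw [havg i]
    exact ENNReal.mul_ne_top (measure_ne_top _ _) ENNReal.ofReal_ne_top
  have hpt : ∀ᵐ g ∂(haarG d), ENNReal.ofReal (2 * k * (minWidth K / 4)) ≤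
      ∑ i, ENNReal.ofReal (b i - a i) * (ENNReal.ofReal ‖pj e (act g⁻¹ (θ i))‖)⁻¹ := by
    filter_upwards [hfin] with g hg
    have hpos : ∀ i, 0 < ‖pj e (act g⁻¹ (θ i))‖ := by
      intro i
      rcases (norm_nonneg (pj e (act g⁻¹ (θ i)))).lt_or_eq with h0 | h0
      · exact h0
      · exfalso
        have := hg i
        rw [← h0, ENNReal.ofReal_zero, ENNReal.inv_zero] at this
        exact lt_irrefl _ this
    have h1 := cover_one hb.1 hb.2.1 hne hw (c g) (minWidth K / 4) (by positivity)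
      (four_eq (hco g)).le θ a b hcov (fun i => by
        rw [htp, ← norm_pos_iff]; exact hpos i)
    refine (ENNReal.ofReal_le_ofReal h1).trans (le_of_eq ?_)
    rw [ENNReal.ofReal_sum_of_nonneg fun i _ =>
      mul_nonneg (sub_nonneg.mpr (hcov.2.1 i)) (inv_nonneg.2 (norm_nonneg _))]
    refine Finset.sum_congr rfl fun i _ => ?_
    rw [ENNReal.ofReal_mul (sub_nonneg.mpr (hcov.2.1 i)), htp, ENNReal.ofReal_inv_of_pos (hpos i)]
  have hint := lintegral_mono_ae hpt
  rw [lintegral_const, lintegral_finsetSum _ (fun i _ => (hmeas i).const_mul _)] at hint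
  have hterm : ∀ i, ∫⁻ g, ENNReal.ofReal (b i - a i) *
      (ENNReal.ofReal ‖pj e (act g⁻¹ (θ i))‖)⁻¹ ∂(haarG d) =
      ENNReal.ofReal ((b i - a i) * (1 / bet d)) * haarG d univ := by
    intro i
    rw [lintegral_const_mul _ (hmeas i), havg i, ENNReal.ofReal_mul (sub_nonneg.mpr (hcov.2.1 i))]
    ring
  simp_rw [hterm] at hint
  rw [← Finset.sum_mul] at hint
  have h2 := (ENNReal.mul_le_mul_iff_left hH0 (measure_ne_top _ _)).1 hint
  have hP : ∀ i, 0 ≤ (b i - a i) * (1 / bet d) := fun i =>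
    mul_nonneg (sub_nonneg.mpr (hcov.2.1 i)) (by positivity)
  rw [← ENNReal.ofReal_sum_of_nonneg fun i _ => hP i,
    ENNReal.ofReal_le_ofReal_iff (Finset.sum_nonneg fun i _ => hP i), ← Finset.sum_mul,
    mul_one_div, le_div_iff₀ hβ] at h2
  linarith

end Pool.Agent.V5helper78.PK
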