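import Mathlib
import Pool.Agent.V5helper78.PK.LIM

/-!
# The regular simplex in `ℝ^d`
-/

set_option autoImplicit false

open Set Metric Filter Topology

namespace Pool.Agent.V5helper78.PK

open Pool.Agent.Helper934.PlankDefs Pool.Agent.Helper934.PlankSupp Pool.Agent.Helper934.PlankMain

variable {d : ℕ}

/-- the parameter of the simplex -/
noncomputable def qq (d : ℕ) : ℝ := 1 / (Real.sqrt (d + 1) * (Real.sqrt (d + 1) + 1))

/-- a regular simplex with the vertices `e_i` and a multiple of `(1, …, 1)` -/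
def simplex (d : ℕ) : Set (EuclideanSpace ℝ (Fin d)) :=
  {x | ∑ j, x j ≤ 1 ∧ ∀ i, 0 ≤ x i + qq d * (1 - ∑ j, x j)}

section
variable (d)

theorem s_facts : 1 ≤ Real.sqrt ((d : ℝ) + 1) ∧ Real.sqrt ((d : ℝ) + 1) ^ 2 = d + 1 := by
  constructor
  · rw [Real.one_le_sqrt]
    have : (0 : ℝ) ≤ d := Nat.cast_nonneg d
    linarith
  · exact Real.sq_sqrt (by positivity)

theorem qq_pos : 0 < qq d := by
  obtain ⟨h1, -⟩ := s_facts d
  unfold qq
  positivity

theorem d_qq : (d : ℝ) * qq d = (Real.sqrt ((d : ℝ) + 1) - 1) / Real.sqrt ((d : ℝ) + 1) := by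
  obtain ⟨h1, h2⟩ := s_facts d
  unfold qq
  have e : (d : ℝ) = Real.sqrt ((d : ℝ) + 1) ^ 2 - 1 := by rw [h2]; ring
  generalize Real.sqrt ((d : ℝ) + 1) = s at *
  rw [e]
  field_simp
  ring

end

theorem continuous_coord (i : Fin d) : Continuous fun x : EuclideanSpace ℝ (Fin d) => x i := by
  fun_prop

theorem continuous_sum : Continuous fun x : EuclideanSpace ℝ (Fin d) => ∑ j, x j := by
  fun_prop

theorem simplex_closed : IsClosed (simplex d) := by
  have e : simplex d = {x : EuclideanSpace ℝ (Fin d) | ∑ j, x j ≤ 1} ∩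
      ⋂ i, {x | 0 ≤ x i + qq d * (1 - ∑ j, x j)} := by
    ext x; simp [simplex]
  rw [e]
  refine (isClosed_le continuous_sum continuous_const).inter (isClosed_iInter fun i => ?_)
  exact isClosed_le continuous_const (by fun_prop)

theorem simplex_coord {x : EuclideanSpace ℝ (Fin d)} (hx : x ∈ simplex d) (i : Fin d) :
    |x i| ≤ 1 := by
  obtain ⟨h1, h2⟩ := hx
  obtain ⟨s1, s2⟩ := s_facts d
  have hq := qq_pos d
  have hdq := d_qq d
  set y := 1 - ∑ j, x j with hy
  have hy0 : 0 ≤ y := by linarith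
  have hsum : ∑ j, (x j + qq d * y) = 1 - y + d * qq d * y := by
    rw [Finset.sum_add_distrib, Finset.sum_const, Finset.card_univ, Fintype.card_fin, nsmul_eq_mul]
    rw [hy]; ring
  have hle : x i + qq d * y ≤ ∑ j, (x j + qq d * y) :=
    Finset.single_le_sum (f := fun j => x j + qq d * y) (fun j _ => h2 j) (Finset.mem_univ i)
  rw [hsum, hdq] at hle
  have hqs : qq d * Real.sqrt ((d : ℝ) + 1) = 1 / (Real.sqrt ((d : ℝ) + 1) + 1) := by
    unfold qq
    have : Real.sqrt ((d : ℝ) + 1) ≠ 0 := by positivity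
    field_simp
  have hpos : (0 : ℝ) ≤ x i + qq d * y := h2 i
  generalize Real.sqrt ((d : ℝ) + 1) = s at *
  have hsp : 0 < s := by linarith
  have e1 : 1 - y + (s - 1) / s * y = 1 - y / s := by field_simp; ring
  rw [e1] at hle
  have hys : y ≤ s := by
    have : 0 ≤ 1 - y / s := hpos.trans hle
    have : y / s ≤ 1 := by linarith
    rwa [div_le_one hsp] at this
  have hyd : 0 ≤ y / s := by positivity
  rw [abs_le]
  constructor
  · have h3 : qq d * y ≤ qq d * s := mul_le_mul_of_nonneg_left hys hq.le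
    have h4 : 1 / (s + 1) ≤ 1 := by
      rw [div_le_one (by linarith)]; linarith
    linarith
  · have : 0 ≤ qq d * y := by positivity
    linarith

theorem simplex_compact : IsCompact (simplex d) := by
  refine Metric.isCompact_of_isClosed_isBounded simplex_closed ?_
  rw [isBounded_iff_forall_norm_le]
  refine ⟨Real.sqrt d, fun x hx => ?_⟩
  rw [EuclideanSpace.norm_eq]
  apply Real.sqrt_le_sqrt
  calc ∑ i, ‖x i‖ ^ 2 ≤ ∑ _i : Fin d, (1 : ℝ) := by
        refine Finset.sum_le_sum fun i _ => ?_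
        rw [Real.norm_eq_abs]
        have := simplex_coord hx i
        have h0 := abs_nonneg (x i)
        nlinarith
    _ = d := by simp

theorem simplex_convex : Convex ℝ (simplex d) := by
  intro x hx y hy a b ha hb hab
  obtain ⟨x1, x2⟩ := hx
  obtain ⟨y1, y2⟩ := hy
  have e : ∑ j, (a • x + b • y) j = a * ∑ j, x j + b * ∑ j, y j := by
    simp [Finset.sum_add_distrib, Finset.mul_sum]
  refine ⟨?_, fun i => ?_⟩
  · rw [e]
    calc a * ∑ j, x j + b * ∑ j, y j ≤ a * 1 + b * 1 :=
          add_le_add (mul_le_mul_of_nonneg_left x1 ha) (mul_le_mul_of_nonneg_left y1 hb)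
      _ = 1 := by linarith
  · rw [e]
    have e2 : (a • x + b • y) i + qq d * (1 - (a * ∑ j, x j + b * ∑ j, y j)) =
        a * (x i + qq d * (1 - ∑ j, x j)) + b * (y i + qq d * (1 - ∑ j, y j)) := by
      simp only [PiLp.add_apply, PiLp.smul_apply, smul_eq_mul]
      linear_combination (-qq d) * hab
    rw [e2]
    exact add_nonneg (mul_nonneg ha (x2 i)) (mul_nonneg hb (y2 i))

theorem simplex_body : IsConvexBody (simplex d) := by
  refine ⟨simplex_compact, simplex_convex, 0, ?_⟩
  rw [mem_interior]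
  refine ⟨{x : EuclideanSpace ℝ (Fin d) | ∑ j, x j < 1} ∩
      ⋂ i, {x | 0 < x i + qq d * (1 - ∑ j, x j)}, ?_, ?_, ?_⟩
  · rintro x ⟨h1, h2⟩
    rw [mem_iInter] at h2
    exact ⟨le_of_lt h1, fun i => le_of_lt (h2 i)⟩
  · refine (isOpen_lt continuous_sum continuous_const).inter (isOpen_iInter_of_finite fun i => ?_)
    exact isOpen_lt continuous_const (by fun_prop)
  · constructor
    · simp
    · rw [mem_iInter]
      intro i
      simpa using qq_pos d

theorem single_mem (i : Fin d) : (EuclideanSpace.single i (1 : ℝ)) ∈ simplex d := by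
  have e : ∑ j, (EuclideanSpace.single i (1 : ℝ) : EuclideanSpace ℝ (Fin d)) j = 1 := by
    simp
  refine ⟨e.le, fun j => ?_⟩
  rw [e, sub_self, mul_zero, add_zero]
  by_cases h : j = i
  · subst h; simp
  · simp [h]

/-- the last vertex -/
noncomputable def vtx (d : ℕ) : EuclideanSpace ℝ (Fin d) :=
  WithLp.toLp 2 (fun _ => -1 / (Real.sqrt (d + 1) + 1))

theorem sum_vtx : ∑ j, (vtx d) j = 1 - Real.sqrt (d + 1) := by
  obtain ⟨s1, s2⟩ := s_facts d
  have e : (d : ℝ) = Real.sqrt ((d : ℝ) + 1) ^ 2 - 1 := by rw [s2]; ring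
  have e1 : ∑ j, (vtx d) j = (d : ℝ) * (-1 / (Real.sqrt (d + 1) + 1)) := by
    simp [vtx]
  rw [e1]
  generalize Real.sqrt ((d : ℝ) + 1) = s at *
  rw [e]
  field_simp
  ring

theorem vtx_mem : vtx d ∈ simplex d := by
  obtain ⟨s1, s2⟩ := s_facts d
  refine ⟨by rw [sum_vtx]; linarith, fun i => ?_⟩
  rw [sum_vtx]
  have e : (vtx d) i = -1 / (Real.sqrt (d + 1) + 1) := rfl
  rw [e]
  unfold qq
  have : (0 : ℝ) < Real.sqrt (d + 1) := by linarith
  apply le_of_eq
  field_simp
  ring

theorem simplex_width (hd : 1 ≤ d) : 2 / Real.sqrt (d + 1) ≤ minWidth (simplex d) := by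
  have hne : (simplex d).Nonempty := simplex_body.2.2.mono interior_subset
  obtain ⟨e, he⟩ := exists_unit hd
  refine le_csInf (show Set.Nonempty {w : ℝ | ∃ u : EuclideanSpace ℝ (Fin d), ‖u‖ = 1 ∧
    w = widthIn (simplex d) u} from ⟨_, e, he, rfl⟩) ?_
  rintro _ ⟨u, hu, rfl⟩
  rw [widthIn_eq simplex_compact hne]
  set M := supp (simplex d) u with hM
  set m := -supp (simplex d) (-u) with hm
  have hup : ∀ x ∈ simplex d, (inner ℝ x u : ℝ) ≤ M := fun x hx => le_supp simplex_compact hx u
  have hlo : ∀ x ∈ simplex d, m ≤ (inner ℝ x u : ℝ) := fun x hx => by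
    have := le_supp simplex_compact hx (-u)
    rw [inner_neg_right] at this
    rw [hm]; linarith
  set σ := ∑ j, u j with hσ
  obtain ⟨s1, s2⟩ := s_facts d
  -- the values at the vertices
  have f1 : ∀ i, (inner ℝ (EuclideanSpace.single i (1 : ℝ)) u : ℝ) = u i := by
    intro i
    rw [EuclideanSpace.inner_single_left]; simp
  have f0 : (inner ℝ (vtx d) u : ℝ) = -σ / (Real.sqrt (d + 1) + 1) := by
    rw [PiLp.inner_apply, hσ, ← Finset.sum_neg_distrib, Finset.sum_div]
    refine Finset.sum_congr rfl fun j _ => ?_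
    simp [vtx]
    ring
  have g1 : ∀ i, 0 ≤ (M - u i) * (u i - m) := fun i => by
    have a1 := hup _ (single_mem i)
    have a2 := hlo _ (single_mem i)
    rw [f1] at a1 a2
    exact mul_nonneg (by linarith) (by linarith)
  have g0 : 0 ≤ (M - -σ / (Real.sqrt (d + 1) + 1)) * (-σ / (Real.sqrt (d + 1) + 1) - m) := by
    have a1 := hup _ vtx_mem
    have a2 := hlo _ vtx_mem
    rw [f0] at a1 a2
    exact mul_nonneg (by linarith) (by linarith)
  have hu2 : ∑ i, u i ^ 2 = 1 := by
    have := EuclideanSpace.real_norm_sq_eq u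
    rw [hu] at this
    linarith
  have hsum : 0 ≤ ∑ i, (M - u i) * (u i - m) := Finset.sum_nonneg fun i _ => g1 i
  have esum : ∑ i, (M - u i) * (u i - m) = (M + m) * σ - 1 - d * (M * m) := by
    have : ∀ i, (M - u i) * (u i - m) = (M + m) * u i - u i ^ 2 - M * m := fun i => by ring
    simp_rw [this]
    rw [Finset.sum_sub_distrib, Finset.sum_sub_distrib, ← Finset.mul_sum, hu2, Finset.sum_const,
      Finset.card_univ, Fintype.card_fin, nsmul_eq_mul]
  rw [esum] at hsum
  have hMm : 0 ≤ M - m := by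
    have a1 := hup _ vtx_mem
    have a2 := hlo _ vtx_mem
    linarith
  have hgoal : M + supp (simplex d) (-u) = M - m := by rw [hm]; ring
  rw [hgoal]
  have ed : (d : ℝ) = Real.sqrt ((d : ℝ) + 1) ^ 2 - 1 := by rw [s2]; ring
  generalize Real.sqrt ((d : ℝ) + 1) = s at *
  rw [ed] at hsum
  have hsp : 0 < s := by linarith
  rw [div_le_iff₀ hsp]
  -- `s² (M - m)² ≥ 4`
  set τ := σ / (s + 1) with hτ
  have e2 : -σ / (s + 1) = -τ := by rw [hτ]; ring
  have e3 : σ = τ * (s + 1) := by rw [hτ]; field_simp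
  rw [e2] at g0
  rw [e3] at hsum
  have key : 4 ≤ ((M - m) * s) ^ 2 := by
    have h4 : 0 ≤ (τ - s * (M + m) / 2) ^ 2 := sq_nonneg _
    nlinarith
  by_contra hlt
  push Not at hlt
  have h5 : 0 ≤ (M - m) * s := mul_nonneg hMm hsp.le
  nlinarith

theorem simplex_inradius (hd : 1 ≤ d) :
    inradius (simplex d) ≤ 1 / (Real.sqrt (d + 1) * Real.sqrt d) := by
  apply Real.sSup_le _ (by positivity)
  rintro r ⟨hr, p, hp⟩
  have hdp : (0 : ℝ) < d := by exact_mod_cast hd
  obtain ⟨s1, s2⟩ := s_facts d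
  set D := Real.sqrt (d : ℝ) with hD
  have hDp : 0 < D := Real.sqrt_pos.2 hdp
  have hD2 : D ^ 2 = d := Real.sq_sqrt hdp.le
  -- the facet opposite to the last vertex
  let n0 : EuclideanSpace ℝ (Fin d) := WithLp.toLp 2 (fun _ => 1)
  have hn0 : ‖n0‖ = D := by
    rw [EuclideanSpace.norm_eq]; simp [n0, hD]
  have h0 := (hp (show p + (r / D) • n0 ∈ closedBall p r by
    rw [mem_closedBall, dist_eq_norm, add_sub_cancel_left, norm_smul, hn0, Real.norm_eq_abs,
      abs_of_nonneg (by positivity)]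
    apply le_of_eq; field_simp)).1
  have e0 : ∑ j, (p + (r / D) • n0) j = ∑ j, p j + r * D := by
    simp only [PiLp.add_apply, PiLp.smul_apply, smul_eq_mul, Finset.sum_add_distrib]
    have : ∑ j : Fin d, r / D * n0 j = (r / D) * d := by
      simp [n0]
      ring
    rw [this, ← hD2]
    field_simp
  rw [e0] at h0
  -- the other facets
  have hi : ∀ i, r * (D / Real.sqrt (d + 1)) ≤ p i + qq d * (1 - ∑ j, p j) := by
    intro i
    let n1 : EuclideanSpace ℝ (Fin d) := WithLp.toLp 2 (fun j => (if j = i then 1 else 0) - qq d)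
    have hsum1 : ∑ j, n1 j = 1 - d * qq d := by
      simp [n1, Finset.sum_sub_distrib]
    have hn1 : ‖n1‖ ^ 2 = (D / Real.sqrt (d + 1)) ^ 2 := by
      rw [EuclideanSpace.real_norm_sq_eq]
      have e1 : ∀ j, n1 j ^ 2 = (if j = i then 1 - 2 * qq d else 0) + qq d ^ 2 := by
        intro j
        simp only [n1]
        split_ifs <;> ring
      simp_rw [e1]
      rw [Finset.sum_add_distrib, Finset.sum_ite_eq' Finset.univ i, if_pos (Finset.mem_univ _),
        Finset.sum_const, Finset.card_univ, Fintype.card_fin, nsmul_eq_mul, div_pow, hD2]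
      have ed : (d : ℝ) = Real.sqrt ((d : ℝ) + 1) ^ 2 - 1 := by rw [s2]; ring
      unfold qq
      generalize Real.sqrt ((d : ℝ) + 1) = s at *
      rw [ed]
      field_simp
      ring
    have hn1p : 0 < D / Real.sqrt (d + 1) := by positivity
    have hn1' : ‖n1‖ = D / Real.sqrt (d + 1) := by
      rw [← Real.sqrt_sq (norm_nonneg n1), hn1, Real.sqrt_sq hn1p.le]
    set N := D / Real.sqrt (d + 1) with hN
    have h1 := (hp (show p - (r / N) • n1 ∈ closedBall p r by
      rw [mem_closedBall, dist_eq_norm]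
      have : p - (r / N) • n1 - p = -((r / N) • n1) := by abel
      rw [this, norm_neg, norm_smul, hn1', Real.norm_eq_abs, abs_of_nonneg (by positivity)]
      apply le_of_eq; field_simp)).2 i
    have e2 : (p - (r / N) • n1) i + qq d * (1 - ∑ j, (p - (r / N) • n1) j) =
        p i + qq d * (1 - ∑ j, p j) - (r / N) * (n1 i - qq d * ∑ j, n1 j) := by
      simp only [PiLp.sub_apply, PiLp.smul_apply, smul_eq_mul, Finset.sum_sub_distrib,
        ← Finset.mul_sum]
      ring
    rw [e2] at h1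
    have e3 : n1 i - qq d * ∑ j, n1 j = N ^ 2 := by
      rw [← hn1, EuclideanSpace.real_norm_sq_eq]
      have e1 : ∀ j, n1 j ^ 2 = (if j = i then n1 j else 0) - qq d * n1 j := by
        intro j
        simp only [n1]
        split_ifs <;> ring
      have e7 : ∑ j, n1 j ^ 2 = n1 i - qq d * ∑ j, n1 j := by
        calc ∑ j, n1 j ^ 2 = ∑ j, ((if j = i then n1 j else 0) - qq d * n1 j) :=
              Finset.sum_congr rfl (fun j _ => e1 j)
          _ = (∑ j, if j = i then n1 j else 0) - ∑ j, qq d * n1 j :=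
              Finset.sum_sub_distrib _ _
          _ = n1 i - qq d * ∑ j, n1 j := by
              rw [Finset.sum_ite_eq' Finset.univ i (fun j => n1 j), if_pos (Finset.mem_univ _),
                ← Finset.mul_sum]
      rw [e7]
    rw [e3] at h1
    have e4 : r / N * N ^ 2 = r * N := by field_simp
    rw [e4] at h1
    linarith
  -- sum up
  have hs := Finset.sum_le_sum fun i (_ : i ∈ Finset.univ) => hi i
  rw [Finset.sum_const, Finset.card_univ, Fintype.card_fin, nsmul_eq_mul, Finset.sum_add_distrib,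
    Finset.sum_const, Finset.card_univ, Fintype.card_fin, nsmul_eq_mul] at hs
  have hdq := d_qq d
  set y := 1 - ∑ j, p j with hy
  have hy1 : r * D ≤ y := by rw [hy]; linarith
  have hpy : ∑ j, p j = 1 - y := by rw [hy]; ring
  have e8 : (d : ℝ) * (qq d * y) = (Real.sqrt ((d : ℝ) + 1) - 1) / Real.sqrt ((d : ℝ) + 1) * y := by
    rw [← mul_assoc, hdq]
  rw [hpy, e8] at hs
  have ed : (d : ℝ) = Real.sqrt ((d : ℝ) + 1) ^ 2 - 1 := by rw [s2]; ring
  rw [le_div_iff₀ (by positivity)]
  generalize Real.sqrt ((d : ℝ) + 1) = s at *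
  rw [ed] at hs
  have hsp : 0 < s := by linarith
  have e5 : 1 - y + (s - 1) / s * y = 1 - y / s := by field_simp; ring
  rw [e5] at hs
  have h6 : r * D / s ≤ y / s := div_le_div_of_nonneg_right hy1 hsp.le
  have e6 : (s ^ 2 - 1) * (r * (D / s)) = s * r * D - r * D / s := by field_simp
  rw [e6] at hs
  nlinarith

theorem limDim_le_sqrt (hd : 1 ≤ d) : limDim d ≤ 1 / Real.sqrt d := by
  have h1 := limDim_le hd (simplex_body (d := d))
  have h2 := limConst_le_radius hd (simplex_body (d := d))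
  have hw := minWidth_pos hd (simplex_body (d := d))
  have hdp : (0 : ℝ) < d := by exact_mod_cast hd
  have hD := Real.sqrt_pos.2 hdp
  have hs : 0 < Real.sqrt ((d : ℝ) + 1) := Real.sqrt_pos.2 (by linarith)
  refine (h1.trans h2).trans ?_
  rw [div_le_div_iff₀ hw hD]
  have h3 := simplex_inradius hd
  have h4 := simplex_width hd
  have h0 : 0 ≤ inradius (simplex d) := (inradius_pos hd simplex_body).le
  calc 2 * inradius (simplex d) * Real.sqrt d
      ≤ 2 * (1 / (Real.sqrt (d + 1) * Real.sqrt d)) * Real.sqrt d := by gcongr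
    _ = 2 / Real.sqrt (d + 1) := by field_simp
    _ ≤ 1 * minWidth (simplex d) := by rw [one_mul]; exact h4

end Pool.Agent.V5helper78.PK
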