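import Mathlib
import Pool.Agent.V5helper78.PK.DU

/-!
# Tools for the improved upper bound: measures with `μ(P) ≤ width(P)` and a quadratic inequality
-/

set_option autoImplicit false

open Set MeasureTheory Filter Topology
open scoped ENNReal

namespace Pool.Agent.V5helper78.PK.S2

open Pool.Agent.Helper934.PlankDefs Pool.Agent.Helper934.PlankSupp Pool.Agent.Helper934.PlankMain

variable {d : ℕ}

/-- `μ(P) ≤ width(P)` for all planks -/
def PB (μ : Measure (EuclideanSpace ℝ (Fin d))) : Prop :=
  ∀ (θ : EuclideanSpace ℝ (Fin d)) (a b : ℝ), ‖θ‖ = 1 → a ≤ b →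
    μ (plank θ a b) ≤ ENNReal.ofReal (b - a)

theorem map_le_volume {μ : Measure (EuclideanSpace ℝ (Fin d))} (hμ : PB μ)
    {θ : EuclideanSpace ℝ (Fin d)} (hθ : ‖θ‖ = 1) :
    μ.map (fun x => (inner ℝ x θ : ℝ)) ≤ volume := by
  have hm : Measurable fun x : EuclideanSpace ℝ (Fin d) => (inner ℝ x θ : ℝ) := by fun_prop
  have key : (μ.map (fun x => (inner ℝ x θ : ℝ))).toOuterMeasure ≤ StieltjesFunction.id.outer := by
    unfold StieltjesFunction.outer
    rw [OuterMeasure.le_ofFunction]
    intro s
    rw [StieltjesFunction.length_eq]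
    refine le_iInf₂ fun a b => le_iInf fun h => ?_
    have h' : s ⊆ Icc a b := by
      intro x hx
      have : x ∈ Ioc a b := by
        apply h
        exact ⟨hx, notMem_botSet_of_lt (show x - 1 < x by linarith)⟩
      exact ⟨this.1.le, this.2⟩
    rcases le_or_gt a b with hab | hab
    · calc (μ.map (fun x => (inner ℝ x θ : ℝ))) s
          ≤ (μ.map (fun x => (inner ℝ x θ : ℝ))) (Icc a b) := measure_mono h'
        _ = μ (plank θ a b) := by
            rw [Measure.map_apply hm measurableSet_Icc]
            rfl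
        _ ≤ ENNReal.ofReal (b - a) := hμ θ a b hθ hab
    · rw [Icc_eq_empty (not_le.2 hab)] at h'
      have : s = ∅ := subset_empty_iff.1 h'
      subst this
      simp
  rw [Real.volume_eq_stieltjes_id]
  refine Measure.le_iff.2 fun s _ => ?_
  rw [StieltjesFunction.measure]
  exact key s

theorem lint_le {μ : Measure (EuclideanSpace ℝ (Fin d))} (hμ : PB μ)
    {u : EuclideanSpace ℝ (Fin d)} (hu : u ≠ 0) (c : ℝ) {φ : ℝ → ℝ≥0∞} (hφ : Measurable φ) :
    ∫⁻ x, φ ((inner ℝ x u : ℝ) + c) ∂μ ≤ ENNReal.ofReal (1 / ‖u‖) * ∫⁻ s, φ s := by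
  have hn : 0 < ‖u‖ := norm_pos_iff.2 hu
  set θ : EuclideanSpace ℝ (Fin d) := ‖u‖⁻¹ • u with hθd
  have hθ : ‖θ‖ = 1 := by
    rw [hθd, norm_smul, norm_inv, norm_norm, inv_mul_cancel₀ hn.ne']
  have hin : ∀ x : EuclideanSpace ℝ (Fin d), (inner ℝ x u : ℝ) = ‖u‖ * inner ℝ x θ := by
    intro x
    rw [hθd, real_inner_smul_right, mul_inv_cancel_left₀ hn.ne']
  have hm : Measurable fun x : EuclideanSpace ℝ (Fin d) => (inner ℝ x θ : ℝ) := by fun_prop
  have hψ : Measurable fun s : ℝ => φ (‖u‖ * s + c) := by fun_prop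
  calc ∫⁻ x, φ ((inner ℝ x u : ℝ) + c) ∂μ = ∫⁻ x, (fun s : ℝ => φ (‖u‖ * s + c)) (inner ℝ x θ) ∂μ := by
        refine lintegral_congr fun x => ?_
        rw [hin]
    _ = ∫⁻ s, φ (‖u‖ * s + c) ∂(μ.map (fun x => (inner ℝ x θ : ℝ))) := by
        rw [lintegral_map hψ hm]
    _ ≤ ∫⁻ s, φ (‖u‖ * s + c) := lintegral_mono' (map_le_volume hμ hθ) le_rfl
    _ = ∫⁻ r, φ (r + c) ∂(Measure.map (fun s => ‖u‖ * s) volume) := by
        rw [lintegral_map (by fun_prop) (by fun_prop)]
    _ = ENNReal.ofReal (1 / ‖u‖) * ∫⁻ s, φ (s + c) := by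
        rw [Real.map_volume_mul_left hn.ne', lintegral_smul_measure, smul_eq_mul,
          abs_of_pos (inv_pos.2 hn), one_div]
    _ = ENNReal.ofReal (1 / ‖u‖) * ∫⁻ s, φ s := by
        rw [lintegral_add_right_eq_self (fun s => φ s) c]

theorem lint_Icc {a b : ℝ} (hab : a ≤ b) {f : ℝ → ℝ} (hf : Continuous f)
    (h0 : ∀ x ∈ Icc a b, 0 ≤ f x) :
    ∫⁻ s in Icc a b, ENNReal.ofReal (f s) = ENNReal.ofReal (∫ s in a..b, f s) := by
  rw [intervalIntegral.integral_of_le hab, ← integral_Icc_eq_integral_Ioc,
    ofReal_integral_eq_lintegral_ofReal hf.continuousOn.integrableOn_Icc]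
  exact (ae_restrict_iff' measurableSet_Icc).2 (ae_of_all _ h0)

/-- the triangular kernel -/
noncomputable def tri (ε s : ℝ) : ℝ := max 0 (ε - |s|) / ε ^ 2

theorem tri_nonneg {ε : ℝ} (hε : 0 < ε) (s : ℝ) : 0 ≤ tri ε s := by
  unfold tri; positivity

theorem measurable_tri (ε : ℝ) : Measurable (tri ε) := by
  unfold tri; fun_prop

theorem lint_tri {ε : ℝ} (hε : 0 < ε) : ∫⁻ s, ENNReal.ofReal (tri ε s) ≤ 1 := by
  have h1 : ∫⁻ s in Icc (-ε) 0, ENNReal.ofReal ((ε + s) / ε ^ 2) = ENNReal.ofReal (1 / 2) := by
    rw [lint_Icc (by linarith) (by fun_prop)]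
    · congr 1
      rw [intervalIntegral.integral_div, intervalIntegral.integral_add (by simp) (by simp)]
      simp only [intervalIntegral.integral_const, integral_id, smul_eq_mul]
      field_simp
      ring
    · rintro x ⟨hx, -⟩
      have : 0 ≤ ε + x := by linarith
      positivity
  have h2 : ∫⁻ s in Icc 0 ε, ENNReal.ofReal ((ε - s) / ε ^ 2) = ENNReal.ofReal (1 / 2) := by
    rw [lint_Icc hε.le (by fun_prop)]
    · congr 1
      rw [intervalIntegral.integral_div, intervalIntegral.integral_sub (by simp) (by simp)]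
      simp only [intervalIntegral.integral_const, integral_id, smul_eq_mul]
      field_simp
      ring
    · rintro x ⟨-, hx⟩
      have : 0 ≤ ε - x := by linarith
      positivity
  calc ∫⁻ s, ENNReal.ofReal (tri ε s)
      ≤ ∫⁻ s, ((Icc (-ε) 0).indicator (fun s => ENNReal.ofReal ((ε + s) / ε ^ 2)) s +
          (Icc 0 ε).indicator (fun s => ENNReal.ofReal ((ε - s) / ε ^ 2)) s) := by
        refine lintegral_mono fun s => ?_
        rcases le_or_gt s 0 with hs | hs
        · by_cases h : -ε ≤ s
          · refine le_add_right ?_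
            rw [indicator_of_mem (show s ∈ Icc (-ε) 0 from ⟨h, hs⟩)]
            apply ENNReal.ofReal_le_ofReal
            unfold tri
            rw [abs_of_nonpos hs, max_eq_right (by linarith)]
            apply le_of_eq; ring
          · have : tri ε s = 0 := by
              unfold tri
              rw [abs_of_nonpos hs, max_eq_left (by linarith), zero_div]
            rw [this]; simp
        · by_cases h : s ≤ ε
          · refine le_add_left ?_
            rw [indicator_of_mem (show s ∈ Icc 0 ε from ⟨hs.le, h⟩)]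
            apply ENNReal.ofReal_le_ofReal
            unfold tri
            rw [abs_of_pos hs, max_eq_right (by linarith)]
          · have : tri ε s = 0 := by
              unfold tri
              rw [abs_of_pos hs, max_eq_left (by linarith), zero_div]
            rw [this]; simp
    _ = 1 := by
        rw [lintegral_add_left (by
          refine Measurable.indicator ?_ measurableSet_Icc
          fun_prop), lintegral_indicator measurableSet_Icc, lintegral_indicator measurableSet_Icc,
          h1, h2, ← ENNReal.ofReal_add (by norm_num) (by norm_num)]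
        norm_num

/-- the weight of the facet directions -/
noncomputable def phi (y : ℝ) : ℝ := (Icc (0 : ℝ) (1 / 5)).indicator (fun y => 9 / 20 * (1 / 5 - y)) y

theorem phi_nonneg (y : ℝ) : 0 ≤ phi y := by
  unfold phi
  refine indicator_nonneg (fun x hx => ?_) y
  have := hx.2
  linarith

theorem measurable_phi : Measurable phi := by
  unfold phi
  exact Measurable.indicator (by fun_prop) measurableSet_Icc

theorem lint_phi : ∫⁻ s, ENNReal.ofReal (phi s) = ENNReal.ofReal (9 / 1000) := by
  have e : (fun s => ENNReal.ofReal (phi s)) =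
      (Icc (0 : ℝ) (1 / 5)).indicator (fun y => ENNReal.ofReal (9 / 20 * (1 / 5 - y))) := by
    funext s
    unfold phi
    by_cases h : s ∈ Icc (0 : ℝ) (1 / 5)
    · rw [indicator_of_mem h, indicator_of_mem h]
    · rw [indicator_of_notMem h, indicator_of_notMem h]; simp
  rw [e, lintegral_indicator measurableSet_Icc, lint_Icc (by norm_num) (by fun_prop)]
  · congr 1
    rw [intervalIntegral.integral_const_mul, intervalIntegral.integral_sub (by simp) (by simp)]
    simp only [intervalIntegral.integral_const, integral_id, smul_eq_mul]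
    norm_num
  · rintro x ⟨-, hx⟩
    linarith

/-- the reference density -/
noncomputable def nu (a : ℝ) : ℝ := (Icc (0 : ℝ) 3).indicator (fun a => min (63 / 100) (9 / 40 * (3 - a))) a

theorem nu_nonneg (a : ℝ) : 0 ≤ nu a := by
  unfold nu
  refine indicator_nonneg (fun x hx => ?_) a
  have := hx.2
  exact le_min (by norm_num) (by linarith)

theorem nu_le (a : ℝ) : nu a ≤ 63 / 100 := by
  unfold nu
  refine indicator_le' (fun x _ => min_le_left _ _) (fun x _ => by norm_num) a

theorem nu_anti {a b : ℝ} (ha : 0 ≤ a) (hab : a ≤ b) : nu b ≤ nu a := by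
  by_cases h : b ≤ 3
  · unfold nu
    rw [indicator_of_mem (show b ∈ Icc (0 : ℝ) 3 from ⟨ha.trans hab, h⟩),
      indicator_of_mem (show a ∈ Icc (0 : ℝ) 3 from ⟨ha, hab.trans h⟩)]
    exact min_le_min le_rfl (by linarith)
  · have : nu b = 0 := by
      unfold nu
      rw [indicator_of_notMem]
      rintro ⟨-, h'⟩
      exact h h'
    rw [this]
    exact nu_nonneg a

theorem measurable_nu : Measurable nu := by
  unfold nu
  exact Measurable.indicator (by fun_prop) measurableSet_Icc

theorem int_nu_sq : Integrable (fun a => nu a ^ 2) ∧ ∫ a, nu a ^ 2 ≤ 44982 / 100000 := by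
  have e : (fun a => nu a ^ 2) =
      (Icc (0 : ℝ) 3).indicator (fun a => (min (63 / 100) (9 / 40 * (3 - a))) ^ 2) := by
    funext a
    unfold nu
    by_cases h : a ∈ Icc (0 : ℝ) 3
    · rw [indicator_of_mem h, indicator_of_mem h]
    · rw [indicator_of_notMem h, indicator_of_notMem h]; norm_num
  have hc : Continuous fun a : ℝ => (min (63 / 100) (9 / 40 * (3 - a))) ^ 2 := by fun_prop
  constructor
  · rw [e]
    exact (integrable_indicator_iff measurableSet_Icc).2 hc.continuousOn.integrableOn_Icc
  · rw [e, integral_indicator measurableSet_Icc, integral_Icc_eq_integral_Ioc,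
      ← intervalIntegral.integral_of_le (by norm_num),
      ← intervalIntegral.integral_add_adjacent_intervals (b := (1 / 5 : ℝ))
        (hc.intervalIntegrable _ _) (hc.intervalIntegrable _ _)]
    have h1 : ∫ a in (0 : ℝ)..(1 / 5), (min (63 / 100) (9 / 40 * (3 - a))) ^ 2 =
        ∫ a in (0 : ℝ)..(1 / 5), ((63 / 100 : ℝ)) ^ 2 := by
      refine intervalIntegral.integral_congr fun a ha => ?_
      rw [uIcc_of_le (by norm_num)] at ha
      have : (63 / 100 : ℝ) ≤ 9 / 40 * (3 - a) := by
        have := ha.2
        linarith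
      simp only [min_eq_left this]
    have h2 : ∫ a in (1 / 5 : ℝ)..3, (min (63 / 100) (9 / 40 * (3 - a))) ^ 2 =
        ∫ a in (1 / 5 : ℝ)..3, (81 / 1600 : ℝ) * (9 - 6 * a + a ^ 2) := by
      refine intervalIntegral.integral_congr fun a ha => ?_
      rw [uIcc_of_le (by norm_num)] at ha
      have : 9 / 40 * (3 - a) ≤ (63 / 100 : ℝ) := by
        have := ha.1
        linarith
      simp only [min_eq_right this]
      ring
    rw [h1, h2, intervalIntegral.integral_const_mul]
    have h3 : ∫ a in (1 / 5 : ℝ)..3, (9 - 6 * a + a ^ 2 : ℝ) = (14 / 5) ^ 3 / 3 := by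
      rw [intervalIntegral.integral_add ((by fun_prop : Continuous fun a : ℝ => 9 - 6 * a).intervalIntegrable _ _)
        ((by fun_prop : Continuous fun a : ℝ => a ^ 2).intervalIntegrable _ _),
        intervalIntegral.integral_sub (by simp)
          ((by fun_prop : Continuous fun a : ℝ => 6 * a).intervalIntegrable _ _),
        intervalIntegral.integral_const_mul]
      simp only [intervalIntegral.integral_const, integral_id, integral_pow, smul_eq_mul]
      norm_num
    rw [h3, intervalIntegral.integral_const]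
    norm_num

/-- the tangent line inequality -/
theorem phi_nu {y ε : ℝ} (hy : 0 ≤ y) (hε : 0 ≤ ε) :
    9 / 20 * (3 - ε - y) ≤ phi y + 2 * nu (y + ε) := by
  rcases le_or_gt (y + ε) (1 / 5) with h | h
  · have h1 : phi y = 9 / 20 * (1 / 5 - y) := by
      unfold phi
      rw [indicator_of_mem]
      exact ⟨hy, by linarith⟩
    have h2 : nu (y + ε) = 63 / 100 := by
      unfold nu
      rw [indicator_of_mem (show y + ε ∈ Icc (0 : ℝ) 3 from ⟨by linarith, by linarith⟩)]
      exact min_eq_left (by linarith)
    rw [h1, h2]; linarith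
  · rcases le_or_gt (y + ε) 3 with h' | h'
    · have h2 : nu (y + ε) = 9 / 40 * (3 - (y + ε)) := by
        unfold nu
        rw [indicator_of_mem (show y + ε ∈ Icc (0 : ℝ) 3 from ⟨by linarith, h'⟩)]
        exact min_eq_right (by linarith)
      have := phi_nonneg y
      rw [h2]; linarith
    · have := phi_nonneg y
      have := nu_nonneg (y + ε)
      linarith

end Pool.Agent.V5helper78.PK.S2
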