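import Mathlib
import Pool.Agent.V5helper78.PK.SY

/-!
# The quadratic inequality for nonnegative numbers of mean one
-/

set_option autoImplicit false

open Set MeasureTheory Filter Topology

namespace Pool.Agent.V5helper78.PK.S2

/-- indicator of `[y, y + ε]` -/
noncomputable def bx (ε y a : ℝ) : ℝ := (Icc y (y + ε)).indicator (fun _ => (1 : ℝ)) a

theorem bx_nonneg (ε y a : ℝ) : 0 ≤ bx ε y a := indicator_nonneg (fun _ _ => zero_le_one) a

theorem measurable_bx (ε y : ℝ) : Measurable (bx ε y) :=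
  Measurable.indicator measurable_const measurableSet_Icc

theorem integrable_bx (ε y : ℝ) : Integrable (bx ε y) := by
  unfold bx
  exact (integrable_indicator_iff measurableSet_Icc).2
    (integrableOn_const (by simp [Real.volume_Icc]))

theorem bx_le_one (ε y a : ℝ) : bx ε y a ≤ 1 := by
  unfold bx
  exact indicator_le' (fun _ _ => le_rfl) (fun _ _ => zero_le_one) a

theorem integrable_bx_mul (ε y : ℝ) {f : ℝ → ℝ} (hf : Measurable f) (h0 : ∀ a, 0 ≤ f a)
    (h1 : ∀ a, f a ≤ 1) : Integrable fun a => bx ε y a * f a := by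
  refine (integrable_bx ε y).mono' ((measurable_bx ε y).mul hf).aestronglyMeasurable
    (ae_of_all _ fun a => ?_)
  rw [Real.norm_eq_abs, abs_of_nonneg (mul_nonneg (bx_nonneg _ _ _) (h0 a))]
  exact mul_le_of_le_one_right (bx_nonneg _ _ _) (h1 a)

theorem int_bx {ε : ℝ} (hε : 0 < ε) (y : ℝ) : ∫ a, bx ε y a = ε := by
  unfold bx
  rw [integral_indicator measurableSet_Icc, integral_const, smul_eq_mul, mul_one]
  simp [measureReal_def, hε.le]

theorem int_bx_bx {ε : ℝ} (y z : ℝ) : ∫ a, bx ε y a * bx ε z a = max 0 (ε - |y - z|) := by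
  have e : (fun a => bx ε y a * bx ε z a) =
      (Icc (max y z) (min (y + ε) (z + ε))).indicator (fun _ => (1 : ℝ)) := by
    funext a
    unfold bx
    rw [← Icc_inter_Icc]
    by_cases h1 : a ∈ Icc y (y + ε) <;> by_cases h2 : a ∈ Icc z (z + ε)
    · rw [indicator_of_mem h1, indicator_of_mem h2,
        indicator_of_mem (show a ∈ Icc y (y + ε) ∩ Icc z (z + ε) from ⟨h1, h2⟩), one_mul]
    · rw [indicator_of_notMem h2,
        indicator_of_notMem (show a ∉ Icc y (y + ε) ∩ Icc z (z + ε) from fun h => h2 h.2), mul_zero]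
    · rw [indicator_of_notMem h1,
        indicator_of_notMem (show a ∉ Icc y (y + ε) ∩ Icc z (z + ε) from fun h => h1 h.1), zero_mul]
    · rw [indicator_of_notMem h1,
        indicator_of_notMem (show a ∉ Icc y (y + ε) ∩ Icc z (z + ε) from fun h => h1 h.1), zero_mul]
  rw [e, integral_indicator measurableSet_Icc, integral_const, smul_eq_mul, mul_one]
  have h : min (y + ε) (z + ε) - max y z = ε - |y - z| := by
    rcases le_total y z with h | h
    · rw [max_eq_right h, min_eq_left (by linarith), abs_of_nonpos (by linarith)]; ring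
    · rw [max_eq_left h, min_eq_right (by linarith), abs_of_nonneg (by linarith)]; ring
  simp [measureReal_def, h, max_comm, ENNReal.toReal_ofReal']

theorem int_bx_nu {ε y : ℝ} (hε : 0 < ε) (hy : 0 ≤ y) : ε * nu (y + ε) ≤ ∫ a, bx ε y a * nu a := by
  have h1 : ∫ a, bx ε y a * nu (y + ε) = ε * nu (y + ε) := by
    rw [integral_mul_const, int_bx hε]
  rw [← h1]
  refine integral_mono ((integrable_bx ε y).mul_const _)
    (integrable_bx_mul ε y measurable_nu nu_nonneg fun a => (nu_le a).trans (by norm_num)) fun a => ?_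
  by_cases h : a ∈ Icc y (y + ε)
  · exact mul_le_mul_of_nonneg_left (nu_anti (hy.trans h.1) h.2) (bx_nonneg _ _ _)
  · have : bx ε y a = 0 := by
      unfold bx
      exact indicator_of_notMem h _
    simp only [this, zero_mul, le_refl]

variable {ι : Type} [Fintype ι]

theorem quad (y : ι → ℝ) (hy : ∀ i, 0 ≤ y i) {ε : ℝ} (hε : 0 < ε) {N : ℝ} (hN : 0 < N) :
    2 / N * ∑ i, nu (y i + ε) - 44982 / 100000 ≤ 1 / N ^ 2 * ∑ i, ∑ j, tri ε (y i - y j) := by
  obtain ⟨n1, n2⟩ := int_nu_sq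
  have i1 : ∀ i j, Integrable fun a => bx ε (y i) a * bx ε (y j) a := fun i j =>
    integrable_bx_mul ε (y i) (measurable_bx ε (y j)) (bx_nonneg _ _) (bx_le_one _ _)
  have i2 : ∀ i, Integrable fun a => bx ε (y i) a * nu a := fun i =>
    integrable_bx_mul ε (y i) measurable_nu nu_nonneg fun a => (nu_le a).trans (by norm_num)
  have i3 : Integrable fun a => ∑ i, ∑ j, bx ε (y i) a * bx ε (y j) a :=
    integrable_finsetSum _ fun i _ => integrable_finsetSum _ fun j _ => i1 i j
  have i4 : Integrable fun a => ∑ i, bx ε (y i) a * nu a := integrable_finsetSum _ fun i _ => i2 i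
  have h0 : 0 ≤ ∫ a, ((1 / (N * ε)) * ∑ i, bx ε (y i) a - nu a) ^ 2 :=
    integral_nonneg fun a => sq_nonneg _
  have e1 : (fun a => ((1 / (N * ε)) * ∑ i, bx ε (y i) a - nu a) ^ 2) = fun a =>
      (1 / (N * ε)) ^ 2 * (∑ i, ∑ j, bx ε (y i) a * bx ε (y j) a) -
        (2 * (1 / (N * ε))) * (∑ i, bx ε (y i) a * nu a) + nu a ^ 2 := by
    funext a
    have e2 : ∑ i, ∑ j, bx ε (y i) a * bx ε (y j) a = (∑ i, bx ε (y i) a) ^ 2 := by
      rw [sq, Finset.sum_mul_sum]
    have e3 : ∑ i, bx ε (y i) a * nu a = (∑ i, bx ε (y i) a) * nu a := by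
      rw [Finset.sum_mul]
    rw [e2, e3]; ring
  have i5 : Integrable fun a => (1 / (N * ε)) ^ 2 * (∑ i, ∑ j, bx ε (y i) a * bx ε (y j) a) -
      (2 * (1 / (N * ε))) * (∑ i, bx ε (y i) a * nu a) := (i3.const_mul _).sub (i4.const_mul _)
  rw [e1, integral_add i5 n1,
    integral_sub (i3.const_mul _) (i4.const_mul _), integral_const_mul, integral_const_mul,
    integral_finsetSum _ (fun i _ => integrable_finsetSum _ fun j _ => i1 i j),
    integral_finsetSum _ (fun i _ => i2 i)] at h0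
  have e4 : ∑ i, ∫ a, ∑ j, bx ε (y i) a * bx ε (y j) a = ε ^ 2 * ∑ i, ∑ j, tri ε (y i - y j) := by
    rw [Finset.mul_sum]
    refine Finset.sum_congr rfl fun i _ => ?_
    rw [integral_finsetSum _ (fun j _ => i1 i j), Finset.mul_sum]
    refine Finset.sum_congr rfl fun j _ => ?_
    rw [int_bx_bx]
    unfold tri
    field_simp
  have h5 : ε * ∑ i, nu (y i + ε) ≤ ∑ i, ∫ a, bx ε (y i) a * nu a := by
    rw [Finset.mul_sum]
    exact Finset.sum_le_sum fun i _ => int_bx_nu hε (hy i)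
  rw [e4] at h0
  have hNe : 0 < 2 * (1 / (N * ε)) := by positivity
  have h6 := mul_le_mul_of_nonneg_left h5 hNe.le
  have e7 : 2 * (1 / (N * ε)) * (ε * ∑ i, nu (y i + ε)) = 2 / N * ∑ i, nu (y i + ε) := by
    field_simp
  have e8 : (1 / (N * ε)) ^ 2 * (ε ^ 2 * ∑ i, ∑ j, tri ε (y i - y j)) =
      1 / N ^ 2 * ∑ i, ∑ j, tri ε (y i - y j) := by
    field_simp
  rw [e7] at h6
  rw [e8] at h0
  linarith

/-- for nonnegative numbers of mean one the weighted number of planks is bounded below -/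
theorem comb [DecidableEq ι] (y : ι → ℝ) (hy : ∀ i, 0 ≤ y i) {ε : ℝ} (hε : 0 < ε) {N : ℝ} (hN : 0 < N)
    (hc : (Fintype.card ι : ℝ) = N) (hs : ∑ i, y i = N) :
    9 / 20 * (2 - ε) - 44982 / 100000 - 1 / (N * ε) ≤
      ∑ i, 1 / N * phi (y i) + ∑ i, ∑ j, (if i = j then 0 else 1 / N ^ 2 * tri ε (y i - y j)) := by
  have h1 := quad y hy hε hN
  have h2 : ∑ i, (9 / 20 * (3 - ε - y i)) ≤ ∑ i, (phi (y i) + 2 * nu (y i + ε)) :=
    Finset.sum_le_sum fun i _ => phi_nu (hy i) hε.le
  rw [← Finset.mul_sum, Finset.sum_sub_distrib, hs, Finset.sum_add_distrib, ← Finset.mul_sum,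
    Finset.sum_const, Finset.card_univ, nsmul_eq_mul, hc] at h2
  have h3 : 1 / N * (9 / 20 * (N * (3 - ε) - N)) ≤
      1 / N * (∑ i, phi (y i) + 2 * ∑ i, nu (y i + ε)) :=
    mul_le_mul_of_nonneg_left h2 (by positivity)
  have e1 : 1 / N * (9 / 20 * (N * (3 - ε) - N)) = 9 / 20 * (2 - ε) := by
    field_simp
    ring
  have e2 : ∑ i, ∑ j, (if i = j then 0 else 1 / N ^ 2 * tri ε (y i - y j)) =
      1 / N ^ 2 * ∑ i, ∑ j, tri ε (y i - y j) - 1 / (N * ε) := by
    have e3 : ∀ i, ∑ j, (if i = j then 0 else 1 / N ^ 2 * tri ε (y i - y j)) =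
        1 / N ^ 2 * ∑ j, tri ε (y i - y j) - 1 / N ^ 2 * tri ε 0 := by
      intro i
      have e4 : ∀ j, (if i = j then 0 else 1 / N ^ 2 * tri ε (y i - y j)) =
          1 / N ^ 2 * tri ε (y i - y j) - (if i = j then 1 / N ^ 2 * tri ε 0 else 0) := by
        intro j
        by_cases h : i = j
        · subst h; simp
        · simp [h]
      simp_rw [e4]
      rw [Finset.sum_sub_distrib, ← Finset.mul_sum, Finset.sum_ite_eq]
      simp
    simp_rw [e3]
    rw [Finset.sum_sub_distrib, ← Finset.mul_sum, Finset.sum_const, Finset.card_univ, nsmul_eq_mul, hc]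
    have e5 : tri ε 0 = 1 / ε := by
      unfold tri
      rw [abs_zero, sub_zero, max_eq_right hε.le]
      field_simp
    rw [e5]
    congr 1
    field_simp
  rw [e2, ← Finset.mul_sum]
  rw [e1] at h3
  have e6 : 1 / N * (∑ i, phi (y i) + 2 * ∑ i, nu (y i + ε)) =
      1 / N * ∑ i, phi (y i) + 2 / N * ∑ i, nu (y i + ε) := by ring
  rw [e6] at h3
  linarith

end Pool.Agent.V5helper78.PK.S2
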