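import Mathlib
import Pool.Agent.V5helper78.PK.SX
import Pool.Agent.V5helper78.PK.SZ

/-!
# The regular simplex: an upper bound for the limit of `c_K(k)/k` better than `2r/w`
-/

set_option autoImplicit false

open Set MeasureTheory Filter Topology
open scoped ENNReal

namespace Pool.Agent.V5helper78.PK.S2

open Pool.Agent.Helper934.PlankDefs Pool.Agent.Helper934.PlankSupp Pool.Agent.Helper934.PlankMain

variable {d : ℕ}

/-- the vector `(1, …, 1)` -/
noncomputable def on (d : ℕ) : EuclideanSpace ℝ (Fin d) := WithLp.toLp 2 fun _ => 1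

theorem inner_on (x : EuclideanSpace ℝ (Fin d)) : (inner ℝ x (on d) : ℝ) = ∑ j, x j := by
  simp [PiLp.inner_apply, on]

theorem inner_single' (x : EuclideanSpace ℝ (Fin d)) (i : Fin d) :
    (inner ℝ x (EuclideanSpace.single i (1 : ℝ)) : ℝ) = x i := by
  rw [EuclideanSpace.inner_single_right]; simp

/-- gradients of the barycentric coordinates -/
noncomputable def vv (d : ℕ) : Option (Fin d) → EuclideanSpace ℝ (Fin d)
  | some i => EuclideanSpace.single i (1 : ℝ) - qq d • on d
  | none => (-(1 / Real.sqrt (d + 1))) • on d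

/-- constants of the barycentric coordinates -/
noncomputable def cc (d : ℕ) : Option (Fin d) → ℝ
  | some _ => qq d
  | none => 1 / Real.sqrt (d + 1)

/-- barycentric coordinates -/
noncomputable def lam (x : EuclideanSpace ℝ (Fin d)) (i : Option (Fin d)) : ℝ :=
  inner ℝ x (vv d i) + cc d i

theorem lam_some (x : EuclideanSpace ℝ (Fin d)) (i : Fin d) :
    lam x (some i) = x i + qq d * (1 - ∑ j, x j) := by
  unfold lam vv cc
  simp only
  rw [inner_sub_right, inner_smul_right, inner_on, inner_single']
  ring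

theorem lam_none (x : EuclideanSpace ℝ (Fin d)) :
    lam x none = 1 / Real.sqrt (d + 1) * (1 - ∑ j, x j) := by
  unfold lam vv cc
  simp only
  rw [inner_smul_right, inner_on]
  ring

theorem lam_nonneg {x : EuclideanSpace ℝ (Fin d)} (hx : x ∈ simplex d) (i : Option (Fin d)) :
    0 ≤ lam x i := by
  cases i with
  | none =>
      rw [lam_none]
      have := hx.1
      have h1 : 0 ≤ 1 - ∑ j, x j := by linarith
      positivity
  | some i => rw [lam_some]; exact hx.2 i

theorem sum_lam (x : EuclideanSpace ℝ (Fin d)) : ∑ i, lam x i = 1 := by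
  obtain ⟨s1, s2⟩ := s_facts d
  have hdq := d_qq d
  rw [Fintype.sum_option, lam_none]
  simp_rw [lam_some]
  rw [Finset.sum_add_distrib, Finset.sum_const, Finset.card_univ, Fintype.card_fin, nsmul_eq_mul]
  have e : (d : ℝ) * (qq d * (1 - ∑ j, x j)) =
      (Real.sqrt ((d : ℝ) + 1) - 1) / Real.sqrt ((d : ℝ) + 1) * (1 - ∑ j, x j) := by
    rw [← mul_assoc, hdq]
  rw [e]
  have hs : (0 : ℝ) < Real.sqrt ((d : ℝ) + 1) := by linarith
  generalize Real.sqrt ((d : ℝ) + 1) = s at *
  field_simp
  ring

theorem inner_on_on : (inner ℝ (on d) (on d) : ℝ) = d := by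
  rw [inner_on]; simp [on]

theorem on_apply (i : Fin d) : (on d) i = 1 := rfl

theorem norm_vv_sq (i : Option (Fin d)) : ‖vv d i‖ ^ 2 = d / (d + 1) := by
  obtain ⟨s1, s2⟩ := s_facts d
  have hs : (0 : ℝ) < Real.sqrt ((d : ℝ) + 1) := by linarith
  have ed : (d : ℝ) = Real.sqrt ((d : ℝ) + 1) ^ 2 - 1 := by rw [s2]; ring
  rw [← real_inner_self_eq_norm_sq]
  cases i with
  | none =>
      simp only [vv]
      rw [real_inner_smul_left, real_inner_smul_right, inner_on_on,
        show ((d : ℝ) / (d + 1)) = d / Real.sqrt ((d : ℝ) + 1) ^ 2 by rw [s2]]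
      field_simp
  | some i =>
      simp only [vv]
      rw [inner_sub_left, inner_sub_right, inner_sub_right, real_inner_smul_left,
        real_inner_smul_left, real_inner_smul_right, real_inner_smul_right, inner_on_on,
        inner_single', inner_single', inner_on, on_apply]
      have e1 : ∑ j, (EuclideanSpace.single i (1 : ℝ) : EuclideanSpace ℝ (Fin d)) j = 1 := by simp
      have e2 : (EuclideanSpace.single i (1 : ℝ) : EuclideanSpace ℝ (Fin d)) i = 1 := by simp
      rw [e1, e2]
      unfold qq
      generalize Real.sqrt ((d : ℝ) + 1) = s at *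
      rw [ed]
      have : s ^ 2 - 1 + 1 = s ^ 2 := by ring
      rw [this]
      field_simp
      ring

theorem norm_vv_sub_sq {i j : Option (Fin d)} (h : i ≠ j) : ‖vv d i - vv d j‖ ^ 2 = 2 := by
  obtain ⟨s1, s2⟩ := s_facts d
  have hs : (0 : ℝ) < Real.sqrt ((d : ℝ) + 1) := by linarith
  have ed : (d : ℝ) = Real.sqrt ((d : ℝ) + 1) ^ 2 - 1 := by rw [s2]; ring
  have key : ∀ i : Fin d, ‖vv d (some i) - vv d none‖ ^ 2 = 2 := by
    intro i
    have e : vv d (some i) - vv d none =
        EuclideanSpace.single i (1 : ℝ) + (1 / Real.sqrt (d + 1) - qq d) • on d := by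
      simp only [vv]
      module
    rw [e, ← real_inner_self_eq_norm_sq, inner_add_left, inner_add_right, inner_add_right,
      real_inner_smul_left, real_inner_smul_left, real_inner_smul_right, real_inner_smul_right,
      inner_on_on, inner_single', inner_single', inner_on, on_apply]
    have e1 : ∑ j, (EuclideanSpace.single i (1 : ℝ) : EuclideanSpace ℝ (Fin d)) j = 1 := by simp
    have e2 : (EuclideanSpace.single i (1 : ℝ) : EuclideanSpace ℝ (Fin d)) i = 1 := by simp
    rw [e1, e2]
    unfold qq
    generalize Real.sqrt ((d : ℝ) + 1) = s at *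
    rw [ed]
    field_simp
    ring
  cases i with
  | none =>
      cases j with
      | none => exact absurd rfl h
      | some j => rw [norm_sub_rev]; exact key j
  | some i =>
      cases j with
      | none => exact key i
      | some j =>
          have hij : i ≠ j := fun e => h (by rw [e])
          have e : vv d (some i) - vv d (some j) =
              EuclideanSpace.single i (1 : ℝ) - EuclideanSpace.single j (1 : ℝ) := by
            simp only [vv]
            module
          rw [e, ← real_inner_self_eq_norm_sq, inner_sub_left, inner_sub_right, inner_sub_right,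
            inner_single', inner_single', inner_single', inner_single']
          simp [hij, hij.symm]
          norm_num

theorem inner_smul_lam (x : EuclideanSpace ℝ (Fin d)) (i : Option (Fin d)) :
    ((d : ℝ) + 1) * lam x i = (inner ℝ x (((d : ℝ) + 1) • vv d i) : ℝ) + (d + 1) * cc d i := by
  unfold lam
  rw [real_inner_smul_right]; ring

/-- the bound for measures on the simplex -/
theorem simplex_measure (hd : 1 ≤ d) {μ : Measure (EuclideanSpace ℝ (Fin d))} (hμ : PB μ)
    {ε : ℝ} (hε : 0 < ε) :
    ENNReal.ofReal (9 / 20 * (2 - ε) - 44982 / 100000 - 1 / ((d + 1) * ε)) * μ (simplex d) ≤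
      ENNReal.ofReal ((9 / 1000 + Real.sqrt (1 / 2)) / (Real.sqrt (d + 1) * Real.sqrt d)) := by
  classical
  set N : ℝ := (d : ℝ) + 1 with hNd
  have hdp : (0 : ℝ) < d := by exact_mod_cast hd
  have hN : 0 < N := by rw [hNd]; linarith
  set D : ℝ := 9 / 20 * (2 - ε) - 44982 / 100000 - 1 / (N * ε) with hD
  set Y : EuclideanSpace ℝ (Fin d) → Option (Fin d) → ℝ := fun x i => N * lam x i with hY
  have hlm : ∀ i, Measurable fun x : EuclideanSpace ℝ (Fin d) => lam x i := by
    intro i
    unfold lam
    fun_prop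
  have hpt : ∀ x ∈ simplex d, ENNReal.ofReal D ≤
      ∑ i, ENNReal.ofReal (1 / N * phi (Y x i)) +
        ∑ i, ∑ j, (if i = j then 0 else ENNReal.ofReal (1 / N ^ 2 * tri ε (Y x i - Y x j))) := by
    intro x hx
    have h := comb (Y x) (fun i => mul_nonneg hN.le (lam_nonneg hx i)) hε hN
      (by rw [Fintype.card_option, Fintype.card_fin]; push_cast; rfl)
      (by rw [hY]; simp only; rw [← Finset.mul_sum, sum_lam, mul_one])
    have e1 : ∑ i, ENNReal.ofReal (1 / N * phi (Y x i)) =
        ENNReal.ofReal (∑ i, 1 / N * phi (Y x i)) :=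
      (ENNReal.ofReal_sum_of_nonneg fun i _ => mul_nonneg (by positivity) (phi_nonneg _)).symm
    have e2 : ∑ i, ∑ j, (if i = j then 0 else ENNReal.ofReal (1 / N ^ 2 * tri ε (Y x i - Y x j))) =
        ENNReal.ofReal (∑ i, ∑ j, (if i = j then 0 else 1 / N ^ 2 * tri ε (Y x i - Y x j))) := by
      have h0 : ∀ i j, (0 : ℝ) ≤ (if i = j then 0 else 1 / N ^ 2 * tri ε (Y x i - Y x j)) := by
        intro i j
        split_ifs
        · exact le_rfl
        · exact mul_nonneg (by positivity) (tri_nonneg hε _)
      rw [ENNReal.ofReal_sum_of_nonneg fun i _ => Finset.sum_nonneg fun j _ => h0 i j]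
      refine Finset.sum_congr rfl fun i _ => ?_
      rw [ENNReal.ofReal_sum_of_nonneg fun j _ => h0 i j]
      refine Finset.sum_congr rfl fun j _ => ?_
      split_ifs
      · simp
      · rfl
    rw [e1, e2, ← ENNReal.ofReal_add]
    · exact ENNReal.ofReal_le_ofReal h
    · exact Finset.sum_nonneg fun i _ => mul_nonneg (by positivity) (phi_nonneg _)
    · refine Finset.sum_nonneg fun i _ => Finset.sum_nonneg fun j _ => ?_
      split_ifs
      · exact le_rfl
      · exact mul_nonneg (by positivity) (tri_nonneg hε _)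
  have mphi : ∀ i, Measurable fun x => ENNReal.ofReal (1 / N * phi (Y x i)) := fun i =>
    ENNReal.measurable_ofReal.comp (measurable_const.mul (measurable_phi.comp ((hlm i).const_mul N)))
  have mtri : ∀ i j, Measurable fun x =>
      (if i = j then (0 : ℝ≥0∞) else ENNReal.ofReal (1 / N ^ 2 * tri ε (Y x i - Y x j))) := by
    intro i j
    split_ifs
    · exact measurable_const
    · exact ENNReal.measurable_ofReal.comp (measurable_const.mul ((measurable_tri ε).comp
        (((hlm i).const_mul N).sub ((hlm j).const_mul N))))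
  have hNn : ‖N‖ = N := by rw [Real.norm_eq_abs, abs_of_pos hN]
  -- the two costs
  have c1 : ∀ i, ∫⁻ x, ENNReal.ofReal (1 / N * phi (Y x i)) ∂μ ≤
      ENNReal.ofReal (1 / N * (1 / (N * Real.sqrt (d / N)) * (9 / 1000))) := by
    intro i
    have hv : ‖N • vv d i‖ = N * Real.sqrt (d / N) := by
      rw [norm_smul, hNn, ← norm_vv_sq i, Real.sqrt_sq (norm_nonneg _)]
    have hpos : 0 < N * Real.sqrt (d / N) := by positivity
    have hv0 : N • vv d i ≠ 0 := by
      intro h
      rw [h, norm_zero] at hv
      linarith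
    have h := lint_le hμ hv0 (N * cc d i) (φ := fun s => ENNReal.ofReal (phi s))
      (ENNReal.measurable_ofReal.comp measurable_phi)
    rw [hv, lint_phi, ← ENNReal.ofReal_mul (by positivity)] at h
    have mm : Measurable fun x : EuclideanSpace ℝ (Fin d) =>
        ENNReal.ofReal (phi ((inner ℝ x (N • vv d i) : ℝ) + N * cc d i)) :=
      ENNReal.measurable_ofReal.comp (measurable_phi.comp (by fun_prop))
    calc ∫⁻ x, ENNReal.ofReal (1 / N * phi (Y x i)) ∂μ
        = ENNReal.ofReal (1 / N) * ∫⁻ x, ENNReal.ofReal (phi ((inner ℝ x (N • vv d i) : ℝ) + N * cc d i)) ∂μ := by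
          rw [← lintegral_const_mul _ mm]
          refine lintegral_congr fun x => ?_
          rw [← ENNReal.ofReal_mul (by positivity), hY]
          simp only
          rw [hNd, inner_smul_lam]
      _ ≤ ENNReal.ofReal (1 / N) * ENNReal.ofReal (1 / (N * Real.sqrt (d / N)) * (9 / 1000)) := by
          gcongr
      _ = _ := by rw [← ENNReal.ofReal_mul (by positivity)]
  have c2 : ∀ i j, ∫⁻ x, (if i = j then (0 : ℝ≥0∞) else ENNReal.ofReal (1 / N ^ 2 * tri ε (Y x i - Y x j))) ∂μ ≤
      ENNReal.ofReal (1 / N ^ 2 * (1 / (N * Real.sqrt 2))) := by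
    intro i j
    by_cases hij : i = j
    · simp [hij]
    · simp only [hij, if_false]
      have hv : ‖N • (vv d i - vv d j)‖ = N * Real.sqrt 2 := by
        rw [norm_smul, hNn, ← norm_vv_sub_sq hij, Real.sqrt_sq (norm_nonneg _)]
      have hpos : 0 < N * Real.sqrt 2 := by positivity
      have hv0 : N • (vv d i - vv d j) ≠ 0 := by
        intro h
        rw [h, norm_zero] at hv
        linarith
      have h := lint_le hμ hv0 (N * (cc d i - cc d j)) (φ := fun s => ENNReal.ofReal (tri ε s))
        (ENNReal.measurable_ofReal.comp (measurable_tri ε))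
      rw [hv] at h
      have h' := h.trans (mul_le_mul_right (lint_tri hε) _)
      rw [mul_one] at h'
      have mm : Measurable fun x : EuclideanSpace ℝ (Fin d) => ENNReal.ofReal
          (tri ε ((inner ℝ x (N • (vv d i - vv d j)) : ℝ) + N * (cc d i - cc d j))) :=
        ENNReal.measurable_ofReal.comp ((measurable_tri ε).comp (by fun_prop))
      calc ∫⁻ x, ENNReal.ofReal (1 / N ^ 2 * tri ε (Y x i - Y x j)) ∂μ
          = ENNReal.ofReal (1 / N ^ 2) * ∫⁻ x, ENNReal.ofReal
              (tri ε ((inner ℝ x (N • (vv d i - vv d j)) : ℝ) + N * (cc d i - cc d j))) ∂μ := by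
            rw [← lintegral_const_mul _ mm]
            refine lintegral_congr fun x => ?_
            rw [← ENNReal.ofReal_mul (by positivity), hY]
            simp only
            congr 3
            unfold lam
            rw [real_inner_smul_right, inner_sub_right]
            ring
        _ ≤ ENNReal.ofReal (1 / N ^ 2) * ENNReal.ofReal (1 / (N * Real.sqrt 2)) := by
            gcongr
        _ = _ := by rw [← ENNReal.ofReal_mul (by positivity)]
  -- sum up
  have hcard : (Finset.univ : Finset (Option (Fin d))).card = d + 1 := by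
    rw [Finset.card_univ, Fintype.card_option, Fintype.card_fin]
  have hNc : ((d + 1 : ℕ) : ℝ≥0∞) = ENNReal.ofReal N := by
    rw [hNd, show (d : ℝ) + 1 = ((d + 1 : ℕ) : ℝ) by push_cast; ring, ENNReal.ofReal_natCast]
  have hms : MeasurableSet (simplex d) := simplex_closed.measurableSet
  calc ENNReal.ofReal D * μ (simplex d)
      = ∫⁻ _x in simplex d, ENNReal.ofReal D ∂μ := by rw [setLIntegral_const]
    _ ≤ ∫⁻ x in simplex d, (∑ i, ENNReal.ofReal (1 / N * phi (Y x i)) +
        ∑ i, ∑ j, (if i = j then 0 else ENNReal.ofReal (1 / N ^ 2 * tri ε (Y x i - Y x j)))) ∂μ :=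
        setLIntegral_mono' hms hpt
    _ ≤ ∫⁻ x, (∑ i, ENNReal.ofReal (1 / N * phi (Y x i)) +
        ∑ i, ∑ j, (if i = j then 0 else ENNReal.ofReal (1 / N ^ 2 * tri ε (Y x i - Y x j)))) ∂μ :=
        setLIntegral_le_lintegral _ _
    _ = ∑ i, ∫⁻ x, ENNReal.ofReal (1 / N * phi (Y x i)) ∂μ +
        ∑ i, ∑ j, ∫⁻ x, (if i = j then 0 else ENNReal.ofReal (1 / N ^ 2 * tri ε (Y x i - Y x j))) ∂μ := by
        rw [lintegral_add_left (Finset.measurable_sum _ fun i _ => mphi i),
          lintegral_finsetSum _ fun i _ => mphi i,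
          lintegral_finsetSum _ fun i _ => Finset.measurable_sum _ fun j _ => mtri i j]
        congr 1
        refine Finset.sum_congr rfl fun i _ => ?_
        rw [lintegral_finsetSum _ fun j _ => mtri i j]
    _ ≤ ∑ _i : Option (Fin d), ENNReal.ofReal (1 / N * (1 / (N * Real.sqrt (d / N)) * (9 / 1000))) +
        ∑ _i : Option (Fin d), ∑ _j : Option (Fin d), ENNReal.ofReal (1 / N ^ 2 * (1 / (N * Real.sqrt 2))) :=
        add_le_add (Finset.sum_le_sum fun i _ => c1 i)
          (Finset.sum_le_sum fun i _ => Finset.sum_le_sum fun j _ => c2 i j)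
    _ = ENNReal.ofReal (1 / (N * Real.sqrt (d / N)) * (9 / 1000) + 1 / (N * Real.sqrt 2)) := by
        rw [Finset.sum_const, Finset.sum_const, Finset.sum_const, hcard, nsmul_eq_mul, nsmul_eq_mul,
          nsmul_eq_mul, hNc, ← ENNReal.ofReal_mul hN.le, ← ENNReal.ofReal_mul hN.le,
          ← ENNReal.ofReal_mul hN.le, ← ENNReal.ofReal_add (by positivity) (by positivity)]
        congr 1
        field_simp
    _ ≤ ENNReal.ofReal ((9 / 1000 + Real.sqrt (1 / 2)) / (Real.sqrt N * Real.sqrt d)) := by
        apply ENNReal.ofReal_le_ofReal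
        have hsN : 0 < Real.sqrt N := Real.sqrt_pos.2 hN
        have hsd : 0 < Real.sqrt (d : ℝ) := Real.sqrt_pos.2 hdp
        have e1 : N * Real.sqrt (d / N) = Real.sqrt N * Real.sqrt d := by
          rw [Real.sqrt_div' _ hN.le]
          nth_rewrite 1 [← Real.mul_self_sqrt hN.le]
          field_simp
        have e2 : 1 / (N * Real.sqrt 2) ≤ Real.sqrt (1 / 2) / (Real.sqrt N * Real.sqrt d) := by
          have h1 : Real.sqrt (1 / 2) = 1 / Real.sqrt 2 := by
            rw [one_div, Real.sqrt_inv, one_div]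
          have h2 : Real.sqrt N * Real.sqrt d ≤ N := by
            calc Real.sqrt N * Real.sqrt d ≤ Real.sqrt N * Real.sqrt N := by
                  gcongr
                  rw [hNd]; linarith
              _ = N := Real.mul_self_sqrt hN.le
          rw [h1, div_div, mul_comm (Real.sqrt 2)]
          gcongr
        rw [e1]
        calc 1 / (Real.sqrt N * Real.sqrt d) * (9 / 1000) + 1 / (N * Real.sqrt 2)
            ≤ 1 / (Real.sqrt N * Real.sqrt d) * (9 / 1000) +
              Real.sqrt (1 / 2) / (Real.sqrt N * Real.sqrt d) := by gcongr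
          _ = _ := by ring

/-- the improved upper bound for the limit of `c_d(k)/k` -/
theorem limDim_le_new (hd : 1000000 ≤ d) : limDim d ≤ 4 / (5 * Real.sqrt d) := by
  have hd1 : 1 ≤ d := by omega
  have hb := simplex_body (d := d)
  refine (limDim_le hd1 hb).trans ?_
  obtain ⟨μ, hμf, -, hμp, hμK⟩ := exists_measure hd1 hb
  have hdR : (1000000 : ℝ) ≤ d := by exact_mod_cast hd
  set s := Real.sqrt ((d : ℝ) + 1) with hs
  have hs1 : 1000 ≤ s := by
    rw [hs]
    apply Real.le_sqrt_of_sq_le
    linarith
  have hs2 : s ^ 2 = (d : ℝ) + 1 := Real.sq_sqrt (by linarith)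
  have hsp : 0 < s := by linarith
  have hsd : 0 < Real.sqrt (d : ℝ) := Real.sqrt_pos.2 (by linarith)
  have h := simplex_measure hd1 (fun θ a b h1 h2 => hμp θ a b h1 h2 : PB μ) (ε := 1 / s) (by positivity)
  have h2 : (Real.sqrt (1 / 2)) ≤ 7072 / 10000 := by
    rw [Real.sqrt_le_left (by norm_num)]
    norm_num
  have hD : 4486 / 10000 ≤ 9 / 20 * (2 - 1 / s) - 44982 / 100000 - 1 / (((d : ℝ) + 1) * (1 / s)) := by
    rw [← hs2]
    have e : 1 / (s ^ 2 * (1 / s)) = 1 / s := by field_simp
    rw [e]
    have : 1 / s ≤ 1 / 1000 := one_div_le_one_div_of_le (by norm_num) hs1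
    linarith
  have hfin : μ (simplex d) ≠ ⊤ := measure_ne_top _ _
  have h3 : (9 / 20 * (2 - 1 / s) - 44982 / 100000 - 1 / (((d : ℝ) + 1) * (1 / s))) *
      (μ (simplex d)).toReal ≤ (9 / 1000 + Real.sqrt (1 / 2)) / (s * Real.sqrt d) := by
    have h4 := ENNReal.toReal_mono ENNReal.ofReal_ne_top h
    rw [ENNReal.toReal_mul, ENNReal.toReal_ofReal (by linarith),
      ENNReal.toReal_ofReal (by positivity)] at h4
    exact h4
  rw [hμK] at h3
  have hl : 0 ≤ limConst (simplex d) := limConst_nonneg hd1 hb
  have hw := simplex_width hd1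
  have hw0 : 0 < minWidth (simplex d) := minWidth_pos hd1 hb
  have h5 : 4486 / 10000 * (limConst (simplex d) * (2 / s)) ≤ (9 / 1000 + Real.sqrt (1 / 2)) / (s * Real.sqrt d) := by
    refine le_trans ?_ h3
    apply mul_le_mul hD
    · exact mul_le_mul_of_nonneg_left hw hl
    · positivity
    · linarith
  have h6 : (9 / 1000 + Real.sqrt (1 / 2)) / (s * Real.sqrt d) ≤ (7162 / 10000) / (s * Real.sqrt d) := by
    gcongr
    linarith
  have h7 := h5.trans h6
  rw [le_div_iff₀ (by positivity)] at h7
  rw [le_div_iff₀ (by positivity)]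
  have e : 4486 / 10000 * (limConst (simplex d) * (2 / s)) * (s * Real.sqrt d) =
      8972 / 10000 * (limConst (simplex d) * Real.sqrt d) := by
    field_simp
    ring
  rw [e] at h7
  nlinarith

end Pool.Agent.V5helper78.PK.S2
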